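import Pool.Agent.Y169.GP.Stm

/-!
# Existence of a branch point (GP-BR)

The projective line is simply connected: a function of degree at least two on a curve has a
place where its fibre is not completely split.
-/

set_option autoImplicit false

namespace Pool.Agent.Y169.GP

open scoped IntermediateField

namespace BRX

theorem algMap {Ω : Type} [Field Ω] [Algebra ℂ Ω] (a : ℂ) :
    algebraMap ℂ (LaurentSeries Ω) a = HahnSeries.C (algebraMap ℂ Ω a) := by
  rw [HahnSeries.algebraMap_apply', PowerSeries.algebraMap_apply, HahnSeries.ofPowerSeries_C]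

theorem gen {Λ : Type} [Field Λ] [Algebra ℂ Λ] (E₀ : Λ → Λ) (hadd : ∀ a b, E₀ (a + b) = E₀ a + E₀ b)
    (hleib : ∀ a b, E₀ (a * b) = a * E₀ b + b * E₀ a)
    (hC : ∀ c : ℂ, E₀ (algebraMap ℂ Λ c) = 0) :
    ∃ E : Derivation ℂ Λ Λ, ∀ x, E x = E₀ x :=
  ⟨Derivation.mk'
    { toFun := E₀
      map_add' := hadd
      map_smul' := fun c x => by
        rw [Algebra.smul_def, hleib, hC, mul_zero, add_zero, RingHom.id_apply, Algebra.smul_def] }
    (fun a b => hleib a b), fun _ => rfl⟩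

theorem leib_inv {Λ : Type} [Field Λ] [Algebra ℂ Λ] (E : Derivation ℂ Λ Λ) (a : Λ) :
    E a⁻¹ = -a⁻¹ ^ 2 * E a := by
  have := E.leibniz_inv a
  rwa [smul_eq_mul] at this

theorem transc_of_coeff {Ω : Type} [Field Ω] [Algebra ℂ Ω] (t : LaurentSeries Ω)
    (h : t.coeff 1 ≠ 0) : Transcendental ℂ t := by
  intro ht
  have hi : IsIntegral ℂ t := ht.isIntegral
  have h1 := minpoly.irreducible hi
  have h2 := IsAlgClosed.degree_eq_one_of_irreducible ℂ h1
  obtain ⟨a, ha⟩ := minpoly.mem_range_of_degree_eq_one ℂ t h2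
  apply h
  rw [← ha, algMap, HahnSeries.C_apply]
  exact HahnSeries.coeff_single_of_ne one_ne_zero

theorem cs_coeff {Ω : Type} [Field Ω] (c : Ω) (n : ℤ) :
    (cs c).coeff n = (if n = 0 then c else 0) + (if n = 1 then 1 else 0) := by
  rw [cs, HahnSeries.coeff_add, HahnSeries.C_apply, HahnSeries.coeff_single,
    HahnSeries.coeff_single]
  congr

theorem const_of_int {F : Type} [Field F] [Algebra ℂ F] {g : F} (h : IsIntegral ℂ g) :
    g ∈ Set.range (algebraMap ℂ F) :=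
  minpoly.mem_range_of_degree_eq_one ℂ g
    (IsAlgClosed.degree_eq_one_of_irreducible ℂ (minpoly.irreducible h))

theorem antideriv (p : Polynomial ℂ) : ∃ P : Polynomial ℂ, Polynomial.derivative P = p := by
  induction p using Polynomial.induction_on' with
  | add p q hp hq =>
    obtain ⟨P, hP⟩ := hp
    obtain ⟨Q, hQ⟩ := hq
    exact ⟨P + Q, by rw [Polynomial.derivative_add, hP, hQ]⟩
  | monomial n a =>
    refine ⟨Polynomial.monomial (n + 1) (a / ((n : ℂ) + 1)), ?_⟩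
    rw [Polynomial.derivative_monomial]
    have hn : ((n : ℂ) + 1) ≠ 0 := by exact_mod_cast Nat.succ_ne_zero n
    congr 1
    push_cast
    field_simp

theorem coeff_s_mul {Ω : Type} [Field Ω] (f : LaurentSeries Ω) (m : ℤ) :
    (cs (0 : Ω) * f).coeff m = f.coeff (m - 1) := by
  have h0 : cs (0 : Ω) = HahnSeries.single 1 1 := by
    rw [cs, map_zero, zero_add]
  have h1 := HahnSeries.coeff_single_mul_add (r := (1 : Ω)) (x := f) (a := m - 1) (b := 1)
  rw [one_mul, sub_add_cancel] at h1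
  rw [h0, h1]

section

variable {Ω : Type} [Field Ω] (E : LaurentSeries Ω → LaurentSeries Ω)
  (hE : ∀ (f : LaurentSeries Ω) (n : ℤ), (E f).coeff n = ((n + 1 : ℤ) : Ω) * f.coeff (n + 1))
include hE

theorem E_cs (c : Ω) : E (cs c) = 1 := by
  ext n
  rw [hE, cs_coeff, HahnSeries.coeff_one]
  rcases eq_or_ne n 0 with h | h
  · subst h
    simp
  · rw [if_neg h]
    rcases eq_or_ne (n + 1) 0 with h1 | h1
    · rw [h1]; simp
    · rw [if_neg h1, if_neg (by omega)]; simp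

theorem E_Nn {f : LaurentSeries Ω} (hf : Nn f) : Nn (E f) := by
  intro n hn
  rw [hE]
  rcases eq_or_ne (n + 1) 0 with h1 | h1
  · rw [h1]; simp
  · rw [hf (n + 1) (by omega), mul_zero]

end

end BRX

open BRX in
theorem br (h2 : S_C2) (hDF : S_DF) (hDL : S_DL) (hDC : S_DC) (hIN : S_IN) (hRT : S_RT)
    (hIB : S_IB) : S_BR := by
  intro F _ _ z hz hd Ω _ _
  by_contra hcon
  rw [not_or] at hcon
  obtain ⟨hc1, hc2⟩ := hcon
  have hc1' : ∀ c : ℂ, deg F z ≤ (Emb F z (LaurentSeries Ω) (cs (algebraMap ℂ Ω c))).ncard := by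
    intro c
    by_contra hlt
    exact hc1 ⟨c, not_le.mp hlt⟩
  have hd0 : 0 < deg F z := by omega
  have hz0 : z ≠ 0 := by
    rintro rfl
    exact hz (isAlgebraic_zero)
  have hzi : Transcendental ℂ z⁻¹ := fun h => hz (by simpa using h.inv)
  have hfield : ℂ⟮z⁻¹⟯ = ℂ⟮z⟯ := by
    apply le_antisymm
    · rw [IntermediateField.adjoin_simple_le_iff]
      exact inv_mem (IntermediateField.mem_adjoin_simple_self ℂ z)
    · rw [IntermediateField.adjoin_simple_le_iff]
      have := inv_mem (IntermediateField.mem_adjoin_simple_self ℂ z⁻¹)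
      rwa [inv_inv] at this
  have hdeg : deg F z⁻¹ = deg F z := by unfold deg; rw [hfield]
  have htr : ∀ c : Ω, Transcendental ℂ (cs c) := fun c =>
    transc_of_coeff _ (by rw [cs_coeff]; simp)
  have hcard : ∀ c : ℂ, (Emb F z (LaurentSeries Ω) (cs (algebraMap ℂ Ω c))).ncard = deg F z :=
    fun c => le_antisymm (h2 F z hz hd0 _ _ (htr _)).2.1 (hc1' c)
  rw [map_zero] at hc2
  have hcard' : (Emb F z⁻¹ (LaurentSeries Ω) (cs (0 : Ω))).ncard = deg F z⁻¹ :=
    le_antisymm (h2 F z⁻¹ hzi (by omega) _ _ (htr _)).2.1 (not_lt.mp hc2)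
  have hfin : (Emb F z⁻¹ (LaurentSeries Ω) (cs (0 : Ω))).Finite :=
    (h2 F z⁻¹ hzi (by omega) _ _ (htr _)).1
  have hne : ∀ c : ℂ, (Emb F z (LaurentSeries Ω) (cs (algebraMap ℂ Ω c))).Nonempty := by
    intro c
    rw [← Set.ncard_pos (h2 F z hz hd0 _ _ (htr _)).1, hcard c]
    exact hd0
  have hne' : (Emb F z⁻¹ (LaurentSeries Ω) (cs (0 : Ω))).Nonempty := by
    rw [← Set.ncard_pos hfin, hcard', hdeg]
    exact hd0
  obtain ⟨D, hD1, hD0⟩ := hDF F z hz hd0
  obtain ⟨E₀, hE₀⟩ := hDL Ω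
  obtain ⟨E, hEE⟩ := gen (Λ := LaurentSeries Ω) (fun x => E₀ x) (fun a b => map_add E₀ a b)
    (fun a b => by
      have := E₀.leibniz a b
      rw [smul_eq_mul, smul_eq_mul] at this
      exact this)
    (fun c => by
      ext n
      rw [hE₀, algMap, HahnSeries.C_apply, HahnSeries.coeff_zero]
      rcases eq_or_ne (n + 1) 0 with h1 | h1
      · rw [h1]; simp
      · rw [HahnSeries.coeff_single_of_ne h1, mul_zero])
  have hE : ∀ (f : LaurentSeries Ω) (n : ℤ), (E f).coeff n = ((n + 1 : ℤ) : Ω) * f.coeff (n + 1) := by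
    intro f n
    rw [hEE f]
    exact hE₀ f n
  -- (c)
  have hconst : ∀ g : F, (∀ c : ℂ, ∀ σ ∈ Emb F z (LaurentSeries Ω) (cs (algebraMap ℂ Ω c)),
      Nn (σ g)) → (∀ τ ∈ Emb F z⁻¹ (LaurentSeries Ω) (cs (0 : Ω)), Nn (τ g)) →
      g ∈ Set.range (algebraMap ℂ F) := by
    intro g hg hg'
    have hco : ∀ i, (((minpoly ℂ⟮z⟯ g).coeff i : ℂ⟮z⟯) : F) ∈ Set.range (algebraMap ℂ F) := by
      intro i
      refine (hRT F z hz Ω _ (SetLike.coe_mem _) (fun c => ?_)).2 ?_
      · obtain ⟨σ, hσ⟩ := hne c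
        exact ⟨σ, hσ, hIN F z z hz hd0 hz rfl Ω _ (htr _) (hcard c) g (hg c) i σ hσ⟩
      · obtain ⟨τ, hτ⟩ := hne'
        exact ⟨τ, hτ, hIN F z z⁻¹ hz hd0 hzi hfield.symm Ω _ (htr _) hcard' g hg' i τ hτ⟩
    have hfd : FiniteDimensional ℂ⟮z⟯ F := Module.finite_of_finrank_pos hd0
    have hgi : IsIntegral ℂ⟮z⟯ g := IsIntegral.of_finite _ g
    have hl : (minpoly ℂ⟮z⟯ g).map (algebraMap ℂ⟮z⟯ F) ∈
        Polynomial.lifts (algebraMap ℂ F) := by
      rw [Polynomial.lifts_iff_coeff_lifts]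
      intro i
      rw [Polynomial.coeff_map]
      exact hco i
    obtain ⟨p, hp⟩ := (Polynomial.mem_lifts _).mp hl
    apply const_of_int
    apply IsAlgebraic.isIntegral
    refine ⟨p, ?_, ?_⟩
    · rintro rfl
      rw [Polynomial.map_zero] at hp
      have h3 := (Polynomial.map_eq_zero (algebraMap ℂ⟮z⟯ F)).mp hp.symm
      exact minpoly.ne_zero hgi h3
    · have h4 : Polynomial.eval g (p.map (algebraMap ℂ F)) = 0 := by
        rw [hp, Polynomial.eval_map_algebraMap]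
        exact minpoly.aeval _ g
      rwa [Polynomial.eval_map_algebraMap] at h4
  -- (a)
  have hDa : ∀ g : F, (∀ c : ℂ, ∀ σ ∈ Emb F z (LaurentSeries Ω) (cs (algebraMap ℂ Ω c)),
      Nn (σ g)) → (∀ c : ℂ, ∀ σ ∈ Emb F z (LaurentSeries Ω) (cs (algebraMap ℂ Ω c)),
      Nn (σ (D g))) := by
    intro g hg c σ hσ
    have h3 := hDC F z hz hd0 D hD1 _ E σ g
    have h4 : σ z = cs (algebraMap ℂ Ω c) := hσ
    rw [h4, E_cs E hE, one_mul] at h3
    rw [← h3]
    exact E_Nn E hE (hg c σ hσ)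
  -- (b)
  have hs0 : cs (0 : Ω) ≠ 0 := by
    intro h0
    exact htr 0 (by rw [h0]; exact isAlgebraic_zero)
  have hDb : ∀ (g : F) (N : ℤ), (∀ τ ∈ Emb F z⁻¹ (LaurentSeries Ω) (cs (0 : Ω)),
      ∀ n < N, (τ g).coeff n = 0) → (∀ τ ∈ Emb F z⁻¹ (LaurentSeries Ω) (cs (0 : Ω)),
      ∀ n < N + 1, (τ (D g)).coeff n = 0) := by
    intro g N hg τ hτ n hn
    have h3 := hDC F z hz hd0 D hD1 _ E τ g
    have h4 : τ z⁻¹ = cs (0 : Ω) := hτ
    have h5 : τ z = (cs (0 : Ω))⁻¹ := by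
      rw [← h4, map_inv₀, inv_inv]
    rw [h5, leib_inv E, E_cs E hE] at h3
    have h6 : τ (D g) = - (cs (0 : Ω) * (cs (0 : Ω) * E (τ g))) := by
      rw [h3, mul_one]
      field_simp
    rw [h6, HahnSeries.coeff_neg, coeff_s_mul, coeff_s_mul, hE, hg τ hτ _ (by omega), mul_zero,
      neg_zero]
  -- (d)
  have hpoly : ∀ (N : ℕ) (g : F), (∀ c : ℂ, ∀ σ ∈ Emb F z (LaurentSeries Ω)
      (cs (algebraMap ℂ Ω c)), Nn (σ g)) →
      (∀ τ ∈ Emb F z⁻¹ (LaurentSeries Ω) (cs (0 : Ω)), ∀ n < -(N : ℤ), (τ g).coeff n = 0) →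
      g ∈ Algebra.adjoin ℂ {z} := by
    intro N
    induction N with
    | zero =>
      intro g hg hg'
      obtain ⟨a, rfl⟩ := hconst g hg (fun τ hτ n hn => hg' τ hτ n (by simpa using hn))
      exact Subalgebra.algebraMap_mem _ a
    | succ N ih =>
      intro g hg hg'
      have h3 := ih (D g) (hDa g hg) (fun τ hτ n hn =>
        hDb g _ hg' τ hτ n (by push_cast; linarith))
      rw [Algebra.adjoin_singleton_eq_range_aeval] at h3
      obtain ⟨p, hp⟩ := h3
      obtain ⟨P, hP⟩ := antideriv p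
      have h4 : D (g - Polynomial.aeval z P) = 0 := by
        rw [map_sub, Derivation.map_aeval, hP, hD1, smul_eq_mul, mul_one]
        rw [← hp]
        exact sub_self _
      obtain ⟨a, ha⟩ := hD0 _ h4
      have h5 : g = algebraMap ℂ F a + Polynomial.aeval z P := by rw [ha]; ring
      rw [h5]
      refine Subalgebra.add_mem _ (Subalgebra.algebraMap_mem _ a) ?_
      rw [Algebra.adjoin_singleton_eq_range_aeval]
      exact ⟨P, rfl⟩
  -- (e)
  have htop : ℂ⟮z⟯ = ⊤ := by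
    rw [eq_top_iff]
    intro h _
    obtain ⟨q, hq, hq0, hqB⟩ := hIB F z hz hd0 h
    have hsub : ∀ x ∈ Algebra.adjoin ℂ {z}, x ∈ ℂ⟮z⟯ := by
      intro x hx
      exact IntermediateField.algebra_adjoin_le_adjoin ℂ {z} hx
    obtain ⟨N, hN⟩ : ∃ N : ℕ, ∀ τ ∈ Emb F z⁻¹ (LaurentSeries Ω) (cs (0 : Ω)),
        ∀ n < -(N : ℤ), (τ (q * h)).coeff n = 0 := by
      obtain ⟨M, hM⟩ := (hfin.image (fun τ => (-(τ (q * h)).order).toNat)).bddAbove
      refine ⟨M, fun τ hτ n hn => ?_⟩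
      apply HahnSeries.coeff_eq_zero_of_lt_order
      have := hM ⟨τ, hτ, rfl⟩
      simp only at this
      have h6 := Int.self_le_toNat (-(τ (q * h)).order)
      have h7 : ((-(τ (q * h)).order).toNat : ℤ) ≤ M := by exact_mod_cast this
      omega
    have h5 := hpoly N (q * h) (fun c σ hσ => hqB Ω c σ hσ) hN
    have h6 : h = q⁻¹ * (q * h) := by
      rw [← mul_assoc, inv_mul_cancel₀ hq0, one_mul]
    rw [h6]
    exact mul_mem (inv_mem (hsub q hq)) (hsub _ h5)
  have h1 : deg F z = 1 := by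
    unfold deg
    rw [IntermediateField.finrank_eq_one_iff_eq_top]
    exact htop
  omega

end Pool.Agent.Y169.GP
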