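import Pool.Agent.Y169.GP.Stm

/-! Embeddings of a function field in an algebraically closed field (by helper832). -/

set_option autoImplicit false

namespace Pool.Agent.Y169.GP

open scoped TensorProduct IntermediateField

namespace C1X

variable {F : Type} [Field F] [Algebra ℂ F] {Λ : Type} [Field Λ] [Algebra ℂ Λ]

/-- the embedding of the field of rational functions -/
noncomputable def emb (x : F) (hx : Transcendental ℂ x) (t : Λ) (ht : Transcendental ℂ t) :
    ℂ⟮x⟯ →ₐ[ℂ] Λ :=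
  (ℂ⟮t⟯.val).comp ((RatFunc.algEquivOfTranscendental t ht : RatFunc ℂ →ₐ[ℂ] ℂ⟮t⟯).comp
    ((RatFunc.algEquivOfTranscendental x hx).symm : ℂ⟮x⟯ →ₐ[ℂ] RatFunc ℂ))

theorem emb_gen (x : F) (hx : Transcendental ℂ x) (t : Λ) (ht : Transcendental ℂ t) :
    emb x hx t ht (IntermediateField.AdjoinSimple.gen ℂ x) = t := by
  unfold emb
  simp

theorem emb_unique (x : F) (hx : Transcendental ℂ x) (t : Λ) (ht : Transcendental ℂ t)
    (σ : F →ₐ[ℂ] Λ) (hσ : σ x = t) (a : ℂ⟮x⟯) : σ (a : F) = emb x hx t ht a := by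
  have h : σ.comp (ℂ⟮x⟯.val) = emb x hx t ht := by
    apply IntermediateField.algHom_ext_of_eq_adjoin (hS := rfl)
    intro y hy
    rw [Set.mem_singleton_iff] at hy
    subst hy
    have h1 := emb_gen y hx t ht
    have h2 : (IntermediateField.AdjoinSimple.gen ℂ y) = ⟨y, IntermediateField.mem_adjoin_simple_self ℂ y⟩ := rfl
    rw [h2] at h1
    rw [h1]
    exact hσ
  exact DFunLike.congr_fun h a

/-- embeddings with `x ↦ t` are homomorphisms over the field of rational functions -/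
theorem exists_equiv (x : F) (hx : Transcendental ℂ x) (t : Λ) (ht : Transcendental ℂ t) :
    ∃ (_ : Algebra ℂ⟮x⟯ Λ), Nonempty (Emb F x Λ t ≃ (F →ₐ[ℂ⟮x⟯] Λ)) := by
  letI : Algebra ℂ⟮x⟯ Λ := (emb x hx t ht).toRingHom.toAlgebra
  have hmap : ∀ a : ℂ⟮x⟯, algebraMap ℂ⟮x⟯ Λ a = emb x hx t ht a := fun a => rfl
  haveI : IsScalarTower ℂ ℂ⟮x⟯ Λ := IsScalarTower.of_algebraMap_eq fun c => by
    rw [hmap, AlgHom.commutes]
  refine ⟨inferInstance, ⟨{
    toFun := fun σ => { σ.1.toRingHom with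
      commutes' := fun a => emb_unique x hx t ht σ.1 σ.2 a }
    invFun := fun τ => ⟨τ.restrictScalars ℂ, ?_⟩
    left_inv := ?_
    right_inv := ?_ }⟩⟩
  · change τ x = t
    have h1 := τ.commutes (IntermediateField.AdjoinSimple.gen ℂ x)
    rw [hmap, emb_gen] at h1
    exact h1
  · intro σ
    apply Subtype.ext
    ext a
    rfl
  · intro τ
    ext a
    rfl

end C1X

open C1X in
theorem c1 : S_C1 := by
  intro F _ _ x hx hd Λ _ _ _ t ht
  obtain ⟨hAlg, ⟨e⟩⟩ := exists_equiv x hx t ht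
  haveI : FiniteDimensional ℂ⟮x⟯ F := FiniteDimensional.of_finrank_pos hd
  have h1 : (Emb F x Λ t).ncard = Nat.card (F →ₐ[ℂ⟮x⟯] Λ) := Nat.card_congr e
  rw [h1, Nat.card_eq_fintype_card, AlgHom.card ℂ⟮x⟯ F Λ]
  rfl

end Pool.Agent.Y169.GP
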