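import Pool.Agent.Y169.GP.C1

/-! Embeddings of a function field in an arbitrary field (by helper832). -/

set_option autoImplicit false

namespace Pool.Agent.Y169.GP

open scoped TensorProduct IntermediateField

open C1X in
theorem c2 : S_C2 := by
  intro F _ _ x hx hd Λ _ _ t ht
  obtain ⟨hAlg, ⟨e⟩⟩ := exists_equiv x hx t ht
  haveI : FiniteDimensional ℂ⟮x⟯ F := FiniteDimensional.of_finrank_pos hd
  have hfin : Finite (F →ₐ[ℂ⟮x⟯] Λ) := inferInstance
  have h1 : (Emb F x Λ t).ncard = Nat.card (F →ₐ[ℂ⟮x⟯] Λ) := Nat.card_congr e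
  have hF : (Emb F x Λ t).Finite := Finite.of_equiv _ e.symm
  let pb := Field.powerBasisOfFiniteOfSeparable ℂ⟮x⟯ F
  let p : Polynomial Λ := (minpoly ℂ⟮x⟯ pb.gen).map (algebraMap ℂ⟮x⟯ Λ)
  have hdeg : p.natDegree = deg F x := by
    have h2 : p.natDegree = (minpoly ℂ⟮x⟯ pb.gen).natDegree :=
      Polynomial.natDegree_map _
    rw [h2, pb.natDegree_minpoly]
    exact pb.finrank.symm
  have hsep0 : (minpoly ℂ⟮x⟯ pb.gen).Separable := Algebra.IsSeparable.isSeparable ℂ⟮x⟯ pb.gen
  have hsep : p.Separable := hsep0.map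
  have hcard : Nat.card (F →ₐ[ℂ⟮x⟯] Λ) = Multiset.card p.roots := by
    rw [Nat.card_congr pb.liftEquiv']
    have h2 : (minpoly ℂ⟮x⟯ pb.gen).aroots Λ = p.roots := rfl
    rw [h2]
    classical
    have h3 : Nat.card {y // y ∈ p.roots} = Nat.card {y // y ∈ p.roots.toFinset} := by
      apply Nat.card_congr
      exact Equiv.subtypeEquivRight (fun y => by rw [Multiset.mem_toFinset])
    rw [h3, Nat.card_eq_fintype_card, Fintype.card_coe,
      Multiset.toFinset_card_of_nodup (Polynomial.nodup_roots hsep)]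
  refine ⟨hF, ?_, ?_⟩
  · rw [h1, hcard, ← hdeg]
    exact Polynomial.card_roots' p
  · rw [h1, hcard, ← hdeg]
    intro h
    obtain ⟨q, -, hq2, hq3⟩ := Polynomial.exists_prod_multiset_X_sub_C_mul p
    have hq : q.natDegree = 1 := by omega
    have hq4 : q.degree = 1 := (Polynomial.degree_eq_iff_natDegree_eq_of_pos one_pos).2 hq
    rw [Polynomial.roots_degree_eq_one hq4] at hq3
    exact Multiset.singleton_ne_zero _ hq3

end Pool.Agent.Y169.GP
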