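import Pool.Agent.Y169.GP.Stm

set_option autoImplicit false

namespace Pool.Agent.Y169.GP

open scoped TensorProduct IntermediateField

namespace C3X

theorem ext_of_gen {n : ℕ} {F : Fin n → Type} [∀ i, Field (F i)] [∀ i, Algebra ℂ (F i)]
    {K : Type} [Field K] [Algebra ℂ K] {π : ∀ i, F i →ₐ[ℂ] K} (hP : PF F K π)
    {Λ : Type} [Field Λ] [Algebra ℂ Λ] {ρ ρ' : K →ₐ[ℂ] Λ}
    (h : ∀ i, ρ.comp (π i) = ρ'.comp (π i)) : ρ = ρ' := by
  have h1 : IntermediateField.adjoin ℂ (⋃ i, Set.range (π i)) ≤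
      (AlgHom.equalizer ρ ρ' : Subalgebra ℂ K).toIntermediateField (by
        intro x hx
        have hx' : ρ x = ρ' x := hx
        show ρ x⁻¹ = ρ' x⁻¹
        rw [map_inv₀, map_inv₀, hx']) := by
    rw [IntermediateField.adjoin_le_iff]
    intro y hy
    rw [Set.mem_iUnion] at hy
    obtain ⟨i, z, rfl⟩ := hy
    exact DFunLike.congr_fun (h i) z
  refine AlgHom.ext fun y => ?_
  have h2 : y ∈ IntermediateField.adjoin ℂ (⋃ i, Set.range (π i)) := by
    rw [hP.gen]
    exact IntermediateField.mem_top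
  exact h1 h2

end C3X

theorem c3 : S_C3 := by
  intro n F _ _ K _ _ π hP x hx Λ _ _ t ht
  rw [← Finset.prod_congr rfl (fun i _ => Nat.card_coe_set_eq (Emb (F i) (x i) Λ (t i))),
    ← Nat.card_pi, ← Nat.card_coe_set_eq]
  refine Nat.card_congr ?_
  refine Equiv.ofBijective (fun ρ i => ⟨ρ.1.comp (π i), ρ.2 i⟩) ⟨?_, ?_⟩
  · intro ρ ρ' h
    refine Subtype.ext (C3X.ext_of_gen hP fun i => ?_)
    exact congrArg Subtype.val (congrFun h i)
  · intro σ
    have h1 : AlgebraicIndependent ℂ (fun i => (σ i).1 (x i)) := by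
      have h2 : (fun i => (σ i).1 (x i)) = t := funext fun i => (σ i).2
      rw [h2]
      exact ht
    obtain ⟨ρ, hρ⟩ := hP.ext x hx Λ (fun i => (σ i).1) h1
    refine ⟨⟨ρ, fun i => ?_⟩, ?_⟩
    · have h3 : ρ (π i (x i)) = (σ i).1 (x i) := DFunLike.congr_fun (hρ i) (x i)
      rw [h3]
      exact (σ i).2
    · funext i
      exact Subtype.ext (hρ i)

end Pool.Agent.Y169.GP
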