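import Pool.Agent.Y169.GP.Stm

set_option autoImplicit false

/-! # GP-CF: nonconstant functions on curves -/

namespace Pool.Agent.Y169.GP

open scoped TensorProduct IntermediateField

namespace CFX

private theorem transc {F : Type} [Field F] [Algebra ℂ F] {x : F}
    (hx : x ∉ Set.range (algebraMap ℂ F)) : Transcendental ℂ x := by
  rintro ⟨p, hp, hpx⟩
  apply hx
  apply (IsAlgClosed.splits p).mem_range_of_isRoot hp
  rwa [Polynomial.IsRoot.def, Polynomial.eval_map_algebraMap]

private theorem fin_dim {F : Type} [Field F] [Algebra ℂ F] (hF : IsCurveField F) {x : F}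
    (hx : Transcendental ℂ x) : FiniteDimensional ℂ⟮x⟯ F := by
  have hai : AlgebraicIndependent ℂ (fun _ : Unit => x) :=
    algebraicIndependent_unique_type_iff.2 hx
  have htb : IsTranscendenceBasis ℂ (fun _ : Unit => x) :=
    hai.isTranscendenceBasis_of_trdeg_le_of_finite (by rw [hF.2]; simp)
  have halg := htb.isAlgebraic_field
  rw [Set.range_const] at halg
  obtain ⟨S, hS⟩ := hF.1
  have htop : IntermediateField.adjoin ℂ⟮x⟯ (S : Set F) = ⊤ := by
    rw [eq_top_iff]
    intro y _
    have hy : y ∈ IntermediateField.adjoin ℂ (S : Set F) := by rw [hS]; trivial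
    have hle : IntermediateField.adjoin ℂ (S : Set F) ≤
        (IntermediateField.adjoin ℂ⟮x⟯ (S : Set F)).restrictScalars ℂ := by
      rw [IntermediateField.adjoin_le_iff]
      exact IntermediateField.subset_adjoin _ _
    exact hle hy
  have hfd : FiniteDimensional ℂ⟮x⟯ (IntermediateField.adjoin ℂ⟮x⟯ (S : Set F)) :=
    IntermediateField.finiteDimensional_adjoin fun y _ => (halg.isAlgebraic y).isIntegral
  rw [htop] at hfd
  exact Module.Finite.equiv (IntermediateField.topEquiv (F := ℂ⟮x⟯) (E := F)).toLinearEquiv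

private theorem inv_notMem {F : Type} [Field F] [Algebra ℂ F] {x : F}
    (hx : x ∉ Set.range (algebraMap ℂ F)) : x⁻¹ ∉ Set.range (algebraMap ℂ F) := by
  rintro ⟨c, hc⟩
  exact hx ⟨c⁻¹, by rw [map_inv₀, hc, inv_inv]⟩

private theorem deg_inv {F : Type} [Field F] [Algebra ℂ F] (x : F) : deg F x⁻¹ = deg F x := by
  have h : ℂ⟮x⁻¹⟯ = ℂ⟮x⟯ := by
    apply le_antisymm
    · rw [IntermediateField.adjoin_simple_le_iff]
      exact inv_mem (IntermediateField.mem_adjoin_simple_self ℂ x)
    · rw [IntermediateField.adjoin_simple_le_iff]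
      have := inv_mem (IntermediateField.mem_adjoin_simple_self ℂ x⁻¹)
      rwa [inv_inv] at this
  unfold deg
  rw [h]

private theorem exists_nonconst {F : Type} [Field F] [Algebra ℂ F] (hF : IsCurveField F) :
    ∃ x : F, x ∉ Set.range (algebraMap ℂ F) := by
  by_contra hcon
  push Not at hcon
  have halg : Algebra.IsAlgebraic ℂ F := ⟨fun x => by
    obtain ⟨c, hc⟩ := hcon x
    rw [← hc]
    exact isAlgebraic_algebraMap c⟩
  have h0 : Algebra.trdeg ℂ F = 0 := trdeg_eq_zero
  rw [hF.2] at h0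
  exact one_ne_zero h0

end CFX

theorem cf : S_CF := by
  intro F _ _ hF
  have h1 : ∀ x : F, x ∉ Set.range (algebraMap ℂ F) → Transcendental ℂ x ∧ 0 < deg F x := by
    intro x hx
    have ht := CFX.transc hx
    have := CFX.fin_dim hF ht
    exact ⟨ht, Module.finrank_pos⟩
  have hne : {d : ℕ | ∃ f : F, f ∉ Set.range (algebraMap ℂ F) ∧ d = deg F f}.Nonempty := by
    obtain ⟨x, hx⟩ := CFX.exists_nonconst hF
    exact ⟨deg F x, x, hx, rfl⟩
  obtain ⟨x, hx, hxd⟩ := Nat.sInf_mem hne
  have hg : gonality F = deg F x := hxd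
  refine ⟨h1, ⟨x, hx, hg.symm⟩, ?_, ?_⟩
  · rw [hg]; exact (h1 x hx).2
  · intro y hy
    refine ⟨Nat.sInf_le ⟨y, hy, rfl⟩, CFX.deg_inv y, CFX.inv_notMem hy⟩

end Pool.Agent.Y169.GP
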