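import Pool.Agent.Y169.GP.Stm

/-!
# GP-DC: compatibility of derivations with embeddings (helper420)
-/

set_option autoImplicit false

namespace Pool.Agent.Y169.GP

open scoped TensorProduct IntermediateField

namespace DCX

/-- the difference of two derivations along an embedding -/
noncomputable def dl {F Λ : Type} [Field F] [Algebra ℂ F] [Field Λ] [Algebra ℂ Λ]
    (z : F) (D : Derivation ℂ F F) (E : Derivation ℂ Λ Λ) (σ : F →ₐ[ℂ] Λ) (g : F) : Λ :=
  E (σ g) - E (σ z) * σ (D g)

section

variable {F Λ : Type} [Field F] [Algebra ℂ F] [Field Λ] [Algebra ℂ Λ]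
    (z : F) (D : Derivation ℂ F F) (E : Derivation ℂ Λ Λ) (σ : F →ₐ[ℂ] Λ)

theorem dl_add (a b : F) : dl z D E σ (a + b) = dl z D E σ a + dl z D E σ b := by
  simp only [dl, map_add]
  ring

theorem dl_zero : dl z D E σ 0 = 0 := by
  simp only [dl, map_zero, mul_zero, sub_zero]

theorem dl_mul (a b : F) : dl z D E σ (a * b) = σ a * dl z D E σ b + σ b * dl z D E σ a := by
  simp only [dl, map_mul, Derivation.leibniz, smul_eq_mul, map_add]
  ring

theorem dl_alg (c : ℂ) : dl z D E σ (algebraMap ℂ F c) = 0 := by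
  simp only [dl, AlgHom.commutes, Derivation.map_algebraMap, map_zero, mul_zero, sub_zero]

theorem dl_z (hD : D z = 1) : dl z D E σ z = 0 := by
  simp only [dl, hD, map_one, mul_one, sub_self]

theorem dl_inv (a : F) (h : dl z D E σ a = 0) : dl z D E σ a⁻¹ = 0 := by
  by_cases ha : a = 0
  · rw [ha, inv_zero, dl_zero]
  have h1 := dl_mul z D E σ a a⁻¹
  have h2 : dl z D E σ (a * a⁻¹) = 0 := by
    rw [mul_inv_cancel₀ ha]
    have := dl_alg z D E σ 1
    rwa [map_one] at this
  rw [h2, h, mul_zero, add_zero] at h1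
  have h3 : σ a ≠ 0 := fun h4 => ha (by simpa using h4)
  exact (mul_eq_zero.1 h1.symm).resolve_left h3

theorem dl_adj (hD : D z = 1) (g : F) (hg : g ∈ ℂ⟮z⟯) : dl z D E σ g = 0 := by
  refine IntermediateField.adjoin_induction (F := ℂ) (s := {z})
    (p := fun g _ => dl z D E σ g = 0) ?_ ?_ ?_ ?_ ?_ hg
  · intro x hx
    rw [Set.mem_singleton_iff] at hx
    rw [hx]
    exact dl_z z D E σ hD
  · intro c
    exact dl_alg z D E σ c
  · intro x y _ _ hx hy
    rw [dl_add, hx, hy, add_zero]
  · intro x _ hx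
    exact dl_inv z D E σ x hx
  · intro x y _ _ hx hy
    rw [dl_mul, hx, hy, mul_zero, mul_zero, add_zero]

theorem dl_pow (g : F) (n : ℕ) :
    dl z D E σ (g ^ n) = (n : Λ) * σ g ^ (n - 1) * dl z D E σ g := by
  induction n with
  | zero =>
    have := dl_alg z D E σ 1
    rw [map_one] at this
    simp [this]
  | succ n ih =>
    rw [pow_succ, dl_mul, ih]
    rcases n with _ | m
    · simp
    · simp only [Nat.add_sub_cancel, map_pow]
      push_cast
      ring

theorem dl_poly (hD : D z = 1) (g : F) (p : Polynomial ℂ⟮z⟯) :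
    dl z D E σ (Polynomial.aeval g p) =
      σ (Polynomial.aeval g (Polynomial.derivative p)) * dl z D E σ g := by
  induction p using Polynomial.induction_on' with
  | add p q hp hq =>
    rw [map_add, dl_add, hp, hq, Polynomial.derivative_add, map_add, map_add]
    ring
  | monomial n a =>
    rw [Polynomial.aeval_monomial, dl_mul, dl_pow, Polynomial.derivative_monomial,
      Polynomial.aeval_monomial]
    have ha : dl z D E σ (algebraMap ℂ⟮z⟯ F a) = 0 := dl_adj z D E σ hD _ a.2
    rw [ha]
    simp only [map_mul, map_pow, map_natCast]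
    ring

end

end DCX

theorem dc : S_DC := by
  intro F _ _ z hz hdeg D hD Λ _ _ E σ g
  have hfin : FiniteDimensional ℂ⟮z⟯ F := Module.finite_of_finrank_pos hdeg
  have hint : IsIntegral ℂ⟮z⟯ g := Algebra.IsIntegral.isIntegral g
  have hirr := minpoly.irreducible hint
  have : CharZero ℂ⟮z⟯ := charZero_of_injective_algebraMap (algebraMap ℂ ℂ⟮z⟯).injective
  have hsep : (minpoly ℂ⟮z⟯ g).Separable := hirr.separable
  have hne := hsep.aeval_derivative_ne_zero (minpoly.aeval ℂ⟮z⟯ g)
  have h1 := DCX.dl_poly z D E σ hD g (minpoly ℂ⟮z⟯ g)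
  rw [minpoly.aeval, DCX.dl_zero] at h1
  have h2 : σ (Polynomial.aeval g (Polynomial.derivative (minpoly ℂ⟮z⟯ g))) ≠ 0 :=
    fun h => hne (by simpa using h)
  have h3 := (mul_eq_zero.1 h1.symm).resolve_left h2
  rw [DCX.dl, sub_eq_zero] at h3
  exact h3

end Pool.Agent.Y169.GP
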