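import Pool.Agent.Y169.GP.Stm

/-!
# The derivation `d/dz` of a function field
-/

set_option autoImplicit false

namespace Pool.Agent.Y169.GP

namespace DFX

open Polynomial
open scoped IntermediateField TensorProduct KaehlerDifferential
open scoped IntermediateField.algebraAdjoinAdjoin

variable {F : Type} [Field F] [Algebra ℂ F]

lemma map_e (z : F) (hz : Transcendental ℂ z) (p : ℂ[X]) :
    algebraMap (Algebra.adjoin ℂ {z}) F (algEquivOfTranscendental ℂ z hz p) = aeval z p := by
  rw [algEquivOfTranscendental_apply, ← aeval_algebraMap_apply]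
  rfl

/-- the derivation of the ring of polynomials in `z` -/
noncomputable def dA (z : F) (hz : Transcendental ℂ z) :
    Derivation ℂ (Algebra.adjoin ℂ {z}) F :=
  Derivation.mk' ((aeval z).toLinearMap ∘ₗ derivative ∘ₗ
    (algEquivOfTranscendental ℂ z hz).symm.toLinearMap) (by
    intro a b
    obtain ⟨p, rfl⟩ := (algEquivOfTranscendental ℂ z hz).surjective a
    obtain ⟨q, rfl⟩ := (algEquivOfTranscendental ℂ z hz).surjective b
    rw [← map_mul]
    simp only [LinearMap.comp_apply, AlgEquiv.toLinearMap_apply, AlgEquiv.symm_apply_apply,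
      AlgHom.toLinearMap_apply, derivative_mul, map_add, map_mul]
    rw [Algebra.smul_def, Algebra.smul_def, map_e, map_e]
    ring)

lemma dA_z (z : F) (hz : Transcendental ℂ z) :
    dA z hz ⟨z, Algebra.self_mem_adjoin_singleton ℂ z⟩ = 1 := by
  have h : (⟨z, Algebra.self_mem_adjoin_singleton ℂ z⟩ : Algebra.adjoin ℂ {z}) =
      algEquivOfTranscendental ℂ z hz X := (algEquivOfTranscendental_apply_X ℂ z hz).symm
  rw [h]
  change aeval z (derivative ((algEquivOfTranscendental ℂ z hz).symm
    (algEquivOfTranscendental ℂ z hz X))) = 1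
  rw [AlgEquiv.symm_apply_apply, derivative_X, map_one]

lemma exists_D (z : F) (hz : Transcendental ℂ z) (hd : 0 < deg F z) :
    ∃ D : Derivation ℂ F F, D z = 1 := by
  have hfd : FiniteDimensional ℂ⟮z⟯ F := Module.finite_of_finrank_pos hd
  have h1 : Algebra.FormallyEtale (Algebra.adjoin ℂ {z}) ℂ⟮z⟯ :=
    Algebra.FormallyEtale.of_isLocalization (nonZeroDivisors _)
  have h2 : Algebra.FormallyEtale ℂ⟮z⟯ F := Algebra.FormallyEtale.of_isSeparable _ _
  have h3 : Algebra.FormallyEtale (Algebra.adjoin ℂ {z}) F := Algebra.FormallyEtale.comp _ ℂ⟮z⟯ _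
  let l : F ⊗[Algebra.adjoin ℂ {z}] Ω[(Algebra.adjoin ℂ {z})⁄ℂ] →ₗ[F] F :=
    (dA z hz).liftKaehlerDifferential.liftBaseChange F
  let E := KaehlerDifferential.tensorKaehlerEquivOfFormallyEtale ℂ (Algebra.adjoin ℂ {z}) F
  refine ⟨(l ∘ₗ E.symm.toLinearMap).compDer (KaehlerDifferential.D ℂ F), ?_⟩
  have h4 := KaehlerDifferential.tensorKaehlerEquivOfFormallyEtale_symm_D_algebraMap ℂ
    (Algebra.adjoin ℂ {z}) F ⟨z, Algebra.self_mem_adjoin_singleton ℂ z⟩
  change l (E.symm (KaehlerDifferential.D ℂ F (algebraMap (Algebra.adjoin ℂ {z}) F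
    ⟨z, Algebra.self_mem_adjoin_singleton ℂ z⟩))) = 1
  rw [h4]
  change (dA z hz).liftKaehlerDifferential.liftBaseChange F _ = 1
  rw [LinearMap.liftBaseChange_tmul, one_smul, Derivation.liftKaehlerDifferential_comp_D, dA_z]

/-- the kernel of a derivation -/
def kerD (D : Derivation ℂ F F) : IntermediateField ℂ F where
  carrier := {x | D x = 0}
  mul_mem' := fun {a b} ha hb => by
    change D (a * b) = 0
    rw [Derivation.leibniz, show D a = 0 from ha, show D b = 0 from hb, smul_zero, smul_zero,
      add_zero]
  add_mem' := fun {a b} ha hb => by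
    change D (a + b) = 0
    rw [map_add, show D a = 0 from ha, show D b = 0 from hb, add_zero]
  algebraMap_mem' := fun c => D.map_algebraMap c
  inv_mem' := fun a ha => by
    change D a⁻¹ = 0
    rw [Derivation.leibniz_inv, show D a = 0 from ha, smul_zero]

lemma mem_kerD (D : Derivation ℂ F F) (x : F) : x ∈ kerD D ↔ D x = 0 := Iff.rfl

/-- the derivation over its kernel -/
noncomputable def dK (D : Derivation ℂ F F) : Derivation (kerD D) F F :=
  Derivation.mk' { toFun := D
                   map_add' := fun a b => map_add D a b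
                   map_smul' := fun c x => by
                     have hc : D (c : F) = 0 := c.2
                     change D ((c : F) * x) = c • D x
                     rw [Derivation.leibniz, hc, smul_zero, add_zero]
                     rfl } (fun a b => D.leibniz a b)

end DFX

open DFX Polynomial IntermediateField.algebraAdjoinAdjoin in
theorem df : S_DF := by
  intro F _ _ z hz hd
  obtain ⟨D, hD⟩ := exists_D z hz hd
  refine ⟨D, hD, ?_⟩
  intro g hg
  by_contra hgc
  have hfd : FiniteDimensional (IntermediateField.adjoin ℂ {z}) F :=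
    Module.finite_of_finrank_pos hd
  -- `g` is transcendental
  have hgt : Transcendental ℂ g := by
    intro halg
    apply hgc
    have h1 := IsAlgClosed.degree_eq_one_of_irreducible ℂ (minpoly.irreducible halg.isIntegral)
    exact minpoly.mem_range_of_degree_eq_one ℂ g h1
  -- `z` is algebraic over the kernel
  have hA : Algebra.IsAlgebraic (Algebra.adjoin ℂ {z}) F :=
    Algebra.IsAlgebraic.trans (Algebra.adjoin ℂ {z}) (IntermediateField.adjoin ℂ {z}) F
  have htr : Algebra.trdeg ℂ F ≤ 1 := by
    have h1 := Algebra.IsAlgebraic.trdeg_le_cardinalMk ℂ ({z} : Set F)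
    rwa [Cardinal.mk_singleton] at h1
  have hind : AlgebraicIndependent ℂ (fun _ : Unit => g) :=
    algebraicIndependent_unique_type_iff.mpr hgt
  have hbas := hind.isTranscendenceBasis_of_trdeg_le_of_finite (by
    rw [Cardinal.mk_unit]
    exact htr)
  have halg := hbas.isAlgebraic_field
  have hle : IntermediateField.adjoin ℂ (Set.range (fun _ : Unit => g)) ≤ kerD D := by
    rw [IntermediateField.adjoin_le_iff]
    rintro _ ⟨_, rfl⟩
    exact hg
  have hzalg : IsAlgebraic (kerD D) z := by
    obtain ⟨p, hp0, hp⟩ := halg.isAlgebraic z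
    refine ⟨p.map (IntermediateField.inclusion hle : _ →+* _),
      (Polynomial.map_ne_zero_iff (IntermediateField.inclusion hle).injective).mpr hp0, ?_⟩
    rw [aeval_def, eval₂_map]
    exact hp
  have hsep : (minpoly (kerD D) z).Separable := (minpoly.irreducible hzalg.isIntegral).separable
  have h1 := hsep.aeval_derivative_ne_zero (minpoly.aeval (kerD D) z)
  have h2 := (dK D).map_aeval (minpoly (kerD D) z) z
  rw [minpoly.aeval, map_zero] at h2
  have h3 : dK D z = 1 := hD
  rw [h3, smul_eq_mul, mul_one] at h2
  exact h1 h2.symm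

end Pool.Agent.Y169.GP
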