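import Pool.Agent.Y169.GP.Stm

/-! The derivation of the field of Laurent series (by helper832). -/

set_option autoImplicit false

namespace Pool.Agent.Y169.GP

namespace DLX

variable {Ω : Type} [Field Ω] [Algebra ℂ Ω]

/-- the Euler operator -/
noncomputable def th (f : LaurentSeries Ω) : LaurentSeries Ω where
  coeff n := (n : Ω) * f.coeff n
  isPWO_support' := f.isPWO_support.mono (fun n hn h => hn (by
    change (n : Ω) * f.coeff n = 0
    rw [h, mul_zero]))

theorem th_coeff (f : LaurentSeries Ω) (n : ℤ) : (th f).coeff n = (n : Ω) * f.coeff n := rfl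

theorem th_supp (f : LaurentSeries Ω) : (th f).support ⊆ f.support := by
  intro n hn h
  apply hn
  rw [th_coeff, h, mul_zero]

theorem th_mul (f g : LaurentSeries Ω) : th (f * g) = th f * g + f * th g := by
  ext n
  rw [th_coeff, HahnSeries.coeff_add, HahnSeries.coeff_mul,
    HahnSeries.coeff_mul_left' f.isPWO_support (th_supp f),
    HahnSeries.coeff_mul_right' g.isPWO_support (th_supp g), Finset.mul_sum,
    ← Finset.sum_add_distrib]
  apply Finset.sum_congr rfl
  intro ij hij
  rw [Finset.mem_addAntidiagonal] at hij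
  rw [th_coeff, th_coeff, ← hij.2.2]
  push_cast
  ring

/-- the derivative -/
noncomputable def dd (f : LaurentSeries Ω) : LaurentSeries Ω :=
  HahnSeries.single (-1 : ℤ) (1 : Ω) * th f

theorem dd_coeff (f : LaurentSeries Ω) (n : ℤ) :
    (dd f).coeff n = ((n + 1 : ℤ) : Ω) * f.coeff (n + 1) := by
  unfold dd
  have h2 : n = (n + 1) + -1 := by ring
  conv_lhs => rw [h2]
  rw [HahnSeries.coeff_single_mul_add, th_coeff, one_mul]

theorem dd_mul (f g : LaurentSeries Ω) : dd (f * g) = f * dd g + g * dd f := by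
  unfold dd
  rw [th_mul]
  ring

theorem dd_add (f g : LaurentSeries Ω) : dd (f + g) = dd f + dd g := by
  ext n
  rw [HahnSeries.coeff_add, dd_coeff, dd_coeff, dd_coeff, HahnSeries.coeff_add, mul_add]

theorem dd_smul (c : ℂ) (f : LaurentSeries Ω) : dd (c • f) = c • dd f := by
  ext n
  rw [dd_coeff]
  change _ = c • (dd f).coeff n
  rw [dd_coeff]
  change _ * (c • f.coeff (n + 1)) = _
  rw [mul_smul_comm]

theorem dd_one : dd (1 : LaurentSeries Ω) = 0 := by
  have h := dd_mul (1 : LaurentSeries Ω) 1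
  rw [one_mul, one_mul] at h
  exact left_eq_add.1 h

end DLX

theorem DLX.alg_smul {Ω : Type} [Field Ω] [Algebra ℂ Ω] (c : ℂ) (f : LaurentSeries Ω) :
    @HSMul.hSMul ℂ (LaurentSeries Ω) (LaurentSeries Ω)
      (@instHSMul ℂ (LaurentSeries Ω) Algebra.toSMul) c f = c • f := by
  rw [Algebra.smul_def, HahnSeries.algebraMap_apply', PowerSeries.algebraMap_apply,
    HahnSeries.ofPowerSeries_C]
  ext n
  rw [HahnSeries.C_mul_eq_smul]
  change algebraMap ℂ Ω c • f.coeff n = c • f.coeff n
  rw [algebraMap_smul]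

open DLX in
theorem dl : S_DL := by
  intro Ω _ _
  refine ⟨Derivation.mk' (R := ℂ) (A := LaurentSeries Ω) (M := LaurentSeries Ω)
    (@LinearMap.mk ℂ ℂ _ _ (RingHom.id ℂ) (LaurentSeries Ω) (LaurentSeries Ω) _ _
      (@Algebra.toModule ℂ (LaurentSeries Ω) _ _ _) _ ⟨dd, dd_add⟩
      (fun c f => (congrArg dd (alg_smul c f)).trans (dd_smul c f))) ?_, ?_⟩
  · intro f g
    exact dd_mul f g
  · intro f n
    exact dd_coeff f n

end Pool.Agent.Y169.GP
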