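import Pool.Agent.Y169.GP.Stm

/-! GP-FD: finiteness over the subfield of the coordinates. -/

set_option autoImplicit false

namespace Pool.Agent.Y169.GP

open scoped TensorProduct IntermediateField

namespace FDX

/-- the image of an element algebraic over `ℂ(x)` is algebraic over every field over which the image
of `x` is algebraic -/
theorem integral_of {E : Type} [Field E] [Algebra ℂ E] {K : Type} [Field K] [Algebra ℂ K]
    (p : E →ₐ[ℂ] K) (x : E) (hx : 0 < deg E x) (M : IntermediateField ℂ K)
    (hM : IsIntegral M (p x)) (f : E) : IsIntegral M (p f) := by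
  have hfin : FiniteDimensional ℂ⟮x⟯ E := Module.finite_of_finrank_pos hx
  let A : IntermediateField M K := algebraicClosure M K
  let B : IntermediateField ℂ E := (A.restrictScalars ℂ).comap p
  have hxB : x ∈ B := by
    show p x ∈ A
    exact (mem_algebraicClosure_iff).2 hM.isAlgebraic
  have hB : ℂ⟮x⟯ ≤ B := IntermediateField.adjoin_simple_le_iff.2 hxB
  let φ : ℂ⟮x⟯ →+* A :=
    { toFun := fun y => ⟨p y, hB y.2⟩
      map_one' := by ext; simp
      map_mul' := by intro a b; ext; simp
      map_zero' := by ext; simp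
      map_add' := by intro a b; ext; simp }
  have hf : IsIntegral ℂ⟮x⟯ f := Algebra.IsIntegral.isIntegral f
  have h1 : IsIntegral A (p.toRingHom f) := by
    refine IsIntegral.map_of_comp_eq φ p.toRingHom ?_ hf
    ext y
    rfl
  exact isIntegral_trans (R := M) (A := A) (p f) h1

variable {n : ℕ} {F : Fin n → Type} [∀ i, Field (F i)] [∀ i, Algebra ℂ (F i)]
  {K : Type} [Field K] [Algebra ℂ K] {π : ∀ i, F i →ₐ[ℂ] K}

/-- the main lemma -/
theorem finite_of (hPF : PF F K π) (x : ∀ i, F i) (hx : ∀ i, 0 < deg (F i) (x i))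
    (M : IntermediateField ℂ K) (hM : ∀ i, IsIntegral M (π i (x i))) : FiniteDimensional M K := by
  have hfin : ∀ i, FiniteDimensional ℂ⟮x i⟯ (F i) := fun i => Module.finite_of_finrank_pos (hx i)
  have hb : ∀ i, ∃ b : Finset (F i), Submodule.span ℂ⟮x i⟯ (b : Set (F i)) = ⊤ :=
    fun i => (Module.finite_def.1 (hfin i))
  choose b hb using hb
  let S : Set K := ⋃ i, π i '' (insert (x i) (b i : Set (F i)))
  have hSfin : S.Finite := Set.finite_iUnion fun i => ((b i).finite_toSet.insert _).image _
  have hSint : ∀ y ∈ S, IsIntegral M y := by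
    intro y hy
    obtain ⟨i, hi⟩ := Set.mem_iUnion.1 hy
    obtain ⟨f, _, rfl⟩ := hi
    exact integral_of (π i) (x i) (hx i) M (hM i) f
  have hfinS : Finite S := hSfin
  have h1 : FiniteDimensional M (IntermediateField.adjoin M S) :=
    IntermediateField.finiteDimensional_adjoin hSint
  have h2 : IntermediateField.adjoin M S = ⊤ := by
    have h3 : IntermediateField.adjoin ℂ (⋃ i, Set.range (π i)) ≤
        (IntermediateField.adjoin M S).restrictScalars ℂ := by
      rw [IntermediateField.adjoin_le_iff]
      intro y hy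
      obtain ⟨i, hi⟩ := Set.mem_iUnion.1 hy
      obtain ⟨f, rfl⟩ := hi
      let B : IntermediateField ℂ (F i) :=
        ((IntermediateField.adjoin M S).restrictScalars ℂ).comap (π i)
      have hmem : ∀ g ∈ insert (x i) (b i : Set (F i)), g ∈ B := by
        intro g hg
        exact IntermediateField.subset_adjoin M S (Set.mem_iUnion.2 ⟨i, ⟨g, hg, rfl⟩⟩)
      have hxB : ℂ⟮x i⟯ ≤ B :=
        IntermediateField.adjoin_simple_le_iff.2 (hmem _ (Set.mem_insert _ _))
      have hf : f ∈ Submodule.span ℂ⟮x i⟯ (b i : Set (F i)) := by rw [hb i]; trivial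
      show f ∈ B
      refine Submodule.span_induction (p := fun g _ => g ∈ B) ?_ ?_ ?_ ?_ hf
      · intro g hg
        exact hmem g (Set.mem_insert_of_mem _ hg)
      · exact B.zero_mem
      · intro g h _ _ hg hh
        exact B.add_mem hg hh
      · intro c g _ hg
        rw [Algebra.smul_def]
        exact B.mul_mem (hxB c.2) hg
    rw [hPF.gen] at h3
    rw [eq_top_iff]
    intro y _
    exact h3 (IntermediateField.mem_top)
  rw [h2] at h1
  exact (IntermediateField.topEquiv (F := M) (E := K)).toLinearEquiv.finiteDimensional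

end FDX

open FDX in
theorem fd : S_FD := by
  intro n F _ _ K _ _ π hPF x hx
  constructor
  · refine finite_of hPF x hx _ fun i => ?_
    have h : π i (x i) ∈ IntermediateField.adjoin ℂ (Set.range fun i => π i (x i)) :=
      IntermediateField.subset_adjoin _ _ ⟨i, rfl⟩
    exact isIntegral_algebraMap (x := (⟨_, h⟩ :
      IntermediateField.adjoin ℂ (Set.range fun i => π i (x i))))
  · intro i₀ j v hij
    set M := IntermediateField.adjoin ℂ (Set.range (tw π x i₀ j v)) with hMdef
    have hmem : ∀ i, tw π x i₀ j v i ∈ M := fun i =>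
      IntermediateField.subset_adjoin _ _ ⟨i, rfl⟩
    have hmem' : ∀ i, IsIntegral M (tw π x i₀ j v i) := fun i =>
      isIntegral_algebraMap (x := (⟨_, hmem i⟩ : M))
    have h1 : ∀ i, i ≠ j → IsIntegral M (π i (x i)) := by
      intro i hi
      have := hmem' i
      simpa only [tw, if_neg hi] using this
    refine finite_of hPF x hx _ fun i => ?_
    by_cases hi : i = j
    · subst hi
      have h2 := hmem' i
      simp only [tw, if_true] at h2
      have h3 := integral_of (π i₀) (x i₀) (hx i₀) M (h1 i₀ hij) v
      have h4 := h2.sub h3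
      rwa [add_sub_cancel_right] at h4
    · exact h1 i hi

end Pool.Agent.Y169.GP
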