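import Pool.Agent.Y169.GP.Stm

/-!
# GP-IN (helper550)
-/

set_option autoImplicit false

namespace Pool.Agent.Y169.GP

open scoped IntermediateField

namespace INX

open Polynomial

/-- coefficients of the minimal polynomial in the completely split case -/
theorem core {K F L : Type} [Field K] [Field F] [Field L] [Algebra K F] [Algebra K L]
    [FiniteDimensional K F] [Algebra.IsSeparable K F]
    (hc : Nat.card (F →ₐ[K] L) = Module.finrank K F) (A : Subring L) (h : F)
    (hA : ∀ ρ : F →ₐ[K] L, ρ h ∈ A) (n : ℕ) :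
    algebraMap K L ((minpoly K h).coeff n) ∈ A := by
  classical
  let P := AlgebraicClosure L
  have hcard : Nat.card (F →ₐ[K] P) = Module.finrank K F := by
    rw [Nat.card_eq_fintype_card]
    exact AlgHom.card K F P
  let j : L →ₐ[K] P := IsScalarTower.toAlgHom K L P
  have hj : Function.Injective j := (algebraMap L P).injective
  have hinj : Function.Injective (fun ρ : F →ₐ[K] L => j.comp ρ) := by
    intro ρ ρ' hρ
    ext x
    exact hj (DFunLike.congr_fun hρ x)
  have hbij : Function.Bijective (fun ρ : F →ₐ[K] L => j.comp ρ) := by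
    have : Finite (F →ₐ[K] L) := Finite.of_injective _ hinj
    exact (Nat.bijective_iff_injective_and_card _).2 ⟨hinj, by rw [hc, hcard]⟩
  have hroot : ∀ r ∈ ((minpoly K h).map (algebraMap K P)).roots, r ∈ A.map (algebraMap L P) := by
    intro r hr
    have h1 : r ∈ (minpoly K h).rootSet P := by
      rw [rootSet_def, Finset.mem_coe, Multiset.mem_toFinset]
      exact hr
    rw [← Algebra.IsAlgebraic.range_eval_eq_rootSet_minpoly] at h1
    obtain ⟨ψ, hψ⟩ := h1
    obtain ⟨ρ, hρ⟩ := hbij.2 ψ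
    refine Subring.mem_map.2 ⟨ρ h, hA ρ, ?_⟩
    rw [← hψ, ← hρ]
    rfl
  have hmon : ((minpoly K h).map (algebraMap K P)).Monic :=
    (minpoly.monic (Algebra.IsIntegral.isIntegral h)).map _
  have hsp : ((minpoly K h).map (algebraMap K P)).Splits := IsAlgClosed.splits _
  have hprod := hsp.eq_prod_roots_of_monic hmon
  have hlift : (minpoly K h).map (algebraMap K P) ∈ lifts (A.map (algebraMap L P)).subtype := by
    rw [hprod]
    refine multiset_prod_mem _ fun q hq => ?_
    obtain ⟨r, hr, rfl⟩ := Multiset.mem_map.1 hq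
    refine (lifts_iff_coeff_lifts _).2 fun m => ?_
    rw [coeff_sub, coeff_X, coeff_C]
    refine ⟨(if 1 = m then 1 else 0) - (if m = 0 then ⟨r, hroot r hr⟩ else 0), ?_⟩
    rw [map_sub]
    split_ifs <;> simp
  obtain ⟨b, hb⟩ := (lifts_iff_coeff_lifts _).1 hlift n
  rw [coeff_map] at hb
  obtain ⟨a, ha, hab⟩ := Subring.mem_map.1 b.2
  have h3 : algebraMap L P a = algebraMap L P (algebraMap K L ((minpoly K h).coeff n)) := by
    rw [hab, ← IsScalarTower.algebraMap_apply]
    exact hb
  rw [← (algebraMap L P).injective h3]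
  exact ha

/-- Laurent series without negative exponents are the power series -/
lemma nn_iff {Ω : Type} [Field Ω] (f : LaurentSeries Ω) :
    Nn f ↔ f ∈ (HahnSeries.ofPowerSeries ℤ Ω).range := by
  constructor
  · intro hf
    refine ⟨PowerSeries.mk fun n => f.coeff n, ?_⟩
    ext i
    have h1 := PowerSeries.coeff_coe (PowerSeries.mk fun n : ℕ => f.coeff (n : ℤ)) i
    refine h1.trans ?_
    split_ifs with hi
    · exact (hf i hi).symm
    · rw [PowerSeries.coeff_mk]
      congr 1
      omega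
  · rintro ⟨g, rfl⟩ i hi
    refine (PowerSeries.coeff_coe g i).trans ?_
    rw [if_pos hi]

/-- two embeddings which agree at the generator agree on the subfield -/
lemma agree {F L : Type} [Field F] [Algebra ℂ F] [Field L] [Algebra ℂ L] {y : F}
    {σ τ : F →ₐ[ℂ] L} (h : σ y = τ y) {x : F} (hx : x ∈ ℂ⟮y⟯) : σ x = τ x := by
  induction hx using IntermediateField.adjoin_induction with
  | mem x hx =>
    rw [Set.mem_singleton_iff] at hx
    rw [hx, h]
  | algebraMap x => rw [AlgHom.commutes, AlgHom.commutes]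
  | add x y hx hy h1 h2 => rw [map_add, map_add, h1, h2]
  | inv x hx h1 => rw [map_inv₀, map_inv₀, h1]
  | mul x y hx hy h1 h2 => rw [map_mul, map_mul, h1, h2]

end INX

theorem inn : S_IN := by
  intro F _ _ z y hz hd hy hzy Ω _ _ t ht hn h hh i σ hσ
  have hfin : FiniteDimensional ℂ⟮z⟯ F := Module.finite_of_finrank_pos hd
  let alg : Algebra ℂ⟮z⟯ (LaurentSeries Ω) :=
    (σ.toRingHom.comp (algebraMap ℂ⟮z⟯ F)).toAlgebra
  have halg : ∀ x : ℂ⟮z⟯, algebraMap ℂ⟮z⟯ (LaurentSeries Ω) x = σ (x : F) := fun x => rfl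
  have hyz : y ∈ ℂ⟮z⟯ := by
    rw [hzy]
    exact IntermediateField.mem_adjoin_simple_self ℂ y
  -- the embeddings over the subfield are the embeddings with `y ↦ t`
  have hmem : ∀ ρ : F →ₐ[ℂ⟮z⟯] LaurentSeries Ω, ∃ τ ∈ Emb F y (LaurentSeries Ω) t,
      ∀ x, τ x = ρ x := by
    intro ρ
    refine ⟨{ ρ.toRingHom with
      commutes' := fun c => ?_ }, ?_, fun x => rfl⟩
    · have h1 := ρ.commutes (algebraMap ℂ ℂ⟮z⟯ c)
      refine h1.trans ?_
      rw [halg]
      exact σ.commutes c
    · have h1 := ρ.commutes ⟨y, hyz⟩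
      exact h1.trans hσ
  have hmem' : ∀ τ ∈ Emb F y (LaurentSeries Ω) t, ∃ ρ : F →ₐ[ℂ⟮z⟯] LaurentSeries Ω,
      ∀ x, ρ x = τ x := by
    intro τ hτ
    refine ⟨{ τ.toRingHom with
      commutes' := fun x => ?_ }, fun x => rfl⟩
    have h1 : σ y = τ y := Eq.trans hσ (Eq.symm hτ)
    have h2 : (x : F) ∈ ℂ⟮y⟯ := by
      rw [← hzy]
      exact x.2
    exact (INX.agree h1 h2).symm
  choose f hf1 hf2 using hmem
  choose g hg using hmem'
  have hcard : Nat.card (F →ₐ[ℂ⟮z⟯] LaurentSeries Ω) = Module.finrank ℂ⟮z⟯ F := by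
    have e : (F →ₐ[ℂ⟮z⟯] LaurentSeries Ω) ≃ Emb F y (LaurentSeries Ω) t :=
      { toFun := fun ρ => ⟨f ρ, hf1 ρ⟩
        invFun := fun τ => g τ.1 τ.2
        left_inv := fun ρ => AlgHom.ext fun x => (hg _ _ x).trans (hf2 ρ x)
        right_inv := fun τ => Subtype.ext (AlgHom.ext fun x => (hf2 _ x).trans (hg _ _ x)) }
    rw [Nat.card_congr e, Nat.card_coe_set_eq, hn]
    unfold deg
    rw [hzy]
  have h2 := INX.core hcard (HahnSeries.ofPowerSeries ℤ Ω).range h
    (fun ρ => (INX.nn_iff _).1 (by rw [← hf2 ρ]; exact hh _ (hf1 ρ))) i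
  exact (INX.nn_iff _).2 h2

end Pool.Agent.Y169.GP
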