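import Pool.Agent.Y169.GP.Stm

/-!
# GP-MD: the degree of a rational map as a number of embeddings (helper420)
-/

set_option autoImplicit false

namespace Pool.Agent.Y169.GP

open scoped TensorProduct IntermediateField

namespace MDX

variable {n : ℕ} {K : Type} [Field K] [Algebra ℂ K]

theorem ext_sf {A : Type} [Field A] [Algebra ℂ A] (f g : SpaceField n →ₐ[ℂ] A)
    (h : ∀ i, f (coord i) = g (coord i)) : f = g := by
  have h1 : f.comp (IsScalarTower.toAlgHom ℂ (MvPolynomial (Fin n) ℂ) (SpaceField n)) =
      g.comp (IsScalarTower.toAlgHom ℂ (MvPolynomial (Fin n) ℂ) (SpaceField n)) := by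
    apply MvPolynomial.algHom_ext
    intro i
    exact h i
  apply AlgHom.ext
  intro x
  obtain ⟨p, q, hq, rfl⟩ := IsFractionRing.div_surjective (A := MvPolynomial (Fin n) ℂ) x
  rw [map_div₀, map_div₀]
  have h2 := AlgHom.congr_fun h1 p
  have h3 := AlgHom.congr_fun h1 q
  change f (algebraMap _ _ p) = g (algebraMap _ _ p) at h2
  change f (algebraMap _ _ q) = g (algebraMap _ _ q) at h3
  rw [h2, h3]

theorem exists_sf {A : Type} [Field A] [Algebra ℂ A] (t : Fin n → A)
    (ht : AlgebraicIndependent ℂ t) : ∃ j : SpaceField n →ₐ[ℂ] A, ∀ i, j (coord i) = t i := by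
  have hinj : Function.Injective (MvPolynomial.aeval (R := ℂ) t) := ht
  refine ⟨IsFractionRing.liftAlgHom (A := MvPolynomial (Fin n) ℂ) hinj, ?_⟩
  intro i
  have h1 := IsFractionRing.liftAlgHom_apply (A := MvPolynomial (Fin n) ℂ) (K := SpaceField n)
    (L := A) (hg := hinj) (x := coord i)
  rw [h1, coord, IsFractionRing.lift_algebraMap]
  simp

theorem range_eq (φ : SpaceField n →ₐ[ℂ] K) :
    IntermediateField.adjoin ℂ (Set.range fun i => φ (coord i)) = φ.fieldRange := by
  apply le_antisymm
  · rw [IntermediateField.adjoin_le_iff]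
    rintro _ ⟨i, rfl⟩
    exact ⟨coord i, rfl⟩
  · rintro _ ⟨x, rfl⟩
    obtain ⟨p, q, hq, rfl⟩ := IsFractionRing.div_surjective (A := MvPolynomial (Fin n) ℂ) x
    have h1 : ∀ p : MvPolynomial (Fin n) ℂ, φ (algebraMap _ _ p) ∈
        IntermediateField.adjoin ℂ (Set.range fun i => φ (coord i)) := by
      intro p
      induction p using MvPolynomial.induction_on with
      | C a =>
        have : φ (algebraMap (MvPolynomial (Fin n) ℂ) (SpaceField n) (MvPolynomial.C a)) =
            algebraMap ℂ K a := by
          have h3 : algebraMap (MvPolynomial (Fin n) ℂ) (SpaceField n) (MvPolynomial.C a) =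
            algebraMap ℂ (SpaceField n) a := by
            rw [IsScalarTower.algebraMap_apply ℂ (MvPolynomial (Fin n) ℂ) (SpaceField n)]
            rfl
          rw [h3, AlgHom.commutes]
        rw [this]
        exact IntermediateField.algebraMap_mem _ a
      | add p q hp hq =>
        rw [map_add, map_add]
        exact add_mem hp hq
      | mul_X p i hp =>
        rw [map_mul, map_mul]
        exact mul_mem hp (IntermediateField.subset_adjoin ℂ _ ⟨i, rfl⟩)
    change φ (_ / _) ∈ _
    rw [map_div₀]
    exact div_mem (h1 p) (h1 q)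

end MDX

theorem md : S_MD := by
  intro n K _ _ φ hfin Λ _ _ _ t ht
  obtain ⟨j, hj⟩ := MDX.exists_sf t ht
  rw [MDX.range_eq φ] at hfin
  let _ : Algebra (SpaceField n) K := φ.toRingHom.toAlgebra
  let _ : Algebra (SpaceField n) Λ := j.toRingHom.toAlgebra
  have hK : ∀ x, algebraMap (SpaceField n) K x = φ x := fun x => rfl
  have hΛ : ∀ x, algebraMap (SpaceField n) Λ x = j x := fun x => rfl
  -- the isomorphism onto the field range
  let e : SpaceField n ≃+* φ.fieldRange := RingEquiv.ofBijective
    ((φ.toRingHom.codRestrict φ.fieldRange (fun x => ⟨x, rfl⟩)) : SpaceField n →+* φ.fieldRange) (by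
      constructor
      · intro a b hab
        have := congrArg Subtype.val hab
        exact φ.toRingHom.injective this
      · rintro ⟨_, ⟨x, rfl⟩⟩
        exact ⟨x, rfl⟩)
  have he : (algebraMap φ.fieldRange K).comp (e : SpaceField n →+* φ.fieldRange) =
      (RingEquiv.refl K : K →+* K).comp (algebraMap (SpaceField n) K) := by
    ext x
    rfl
  have hrank : Module.finrank (SpaceField n) K = Module.finrank φ.fieldRange K :=
    Algebra.finrank_eq_of_equiv_equiv e (RingEquiv.refl K) he
  have : FiniteDimensional (SpaceField n) K := by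
    refine Module.Finite.of_equiv_equiv (A₁ := φ.fieldRange) (B₁ := K) e.symm (RingEquiv.refl K) ?_
    ext x
    change φ (e.symm x) = x
    have : e (e.symm x) = x := e.apply_symm_apply x
    exact congrArg Subtype.val this
  have : CharZero (SpaceField n) :=
    charZero_of_injective_algebraMap (algebraMap ℂ (SpaceField n)).injective
  have hcard := AlgHom.card (SpaceField n) K Λ
  let f : (K →ₐ[SpaceField n] Λ) → (K →ₐ[ℂ] Λ) := fun ρ =>
    { ρ.toRingHom with
      commutes' := fun c => by
        change ρ (algebraMap ℂ K c) = algebraMap ℂ Λ c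
        have h1 : algebraMap ℂ K c = algebraMap (SpaceField n) K (algebraMap ℂ (SpaceField n) c) := by
          rw [hK, AlgHom.commutes]
        rw [h1, AlgHom.commutes, hΛ, AlgHom.commutes] }
  have hf : ∀ ρ x, f ρ x = ρ x := fun ρ x => rfl
  have hinj : Function.Injective f := by
    intro a b hab
    ext x
    rw [← hf a x, ← hf b x, hab]
  have hset : {ρ : K →ₐ[ℂ] Λ | ∀ i, ρ (φ (coord i)) = t i} = Set.range f := by
    ext ρ
    constructor
    · intro hρ
      have h2 : ρ.comp φ = j := MDX.ext_sf _ _ (fun i => by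
        rw [hj i]
        exact hρ i)
      refine ⟨{ ρ.toRingHom with
        commutes' := fun x => ?_ }, ?_⟩
      · exact AlgHom.congr_fun h2 x
      · ext x
        rfl
    · rintro ⟨ρ', rfl⟩ i
      rw [hf, ← hK, AlgHom.commutes, hΛ, hj]
  rw [hset, mapDegree, ← hrank, ← hcard, ← Nat.card_eq_fintype_card]
  exact (Nat.card_congr (Equiv.ofInjective f hinj)).symm

end Pool.Agent.Y169.GP
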