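import Pool.Agent.Y169.GP.Stm

/-!
# GP-NU: the numerical lemma
-/

set_option autoImplicit false

namespace Pool.Agent.Y169.GP

theorem nu : S_NU := by
  intro n d s i₀ hd hmax h2 hs h1 h3
  have hP : ∀ (f : Fin n → ℕ) (i : Fin n), ∏ k, f k = f i * ∏ k ∈ Finset.univ \ {i}, f k := by
    intro f i
    rw [Finset.sdiff_singleton_eq_erase, Finset.mul_prod_erase _ _ (Finset.mem_univ i)]
  obtain ⟨i, hi⟩ : ∃ i, s i < d i := by
    by_contra hcon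
    push Not at hcon
    have h4 : ∏ i, d i ≤ ∏ i, s i := Finset.prod_le_prod (fun _ _ => Nat.zero_le _)
      fun i _ => hcon i
    omega
  have hi2 : s i + 2 ≤ d i := by
    have := (hs i).2
    omega
  obtain ⟨P, hPd⟩ : ∃ P, P = ∏ k, d k := ⟨_, rfl⟩
  obtain ⟨Pi, hPi⟩ : ∃ Pi, Pi = ∏ k ∈ Finset.univ \ {i}, d k := ⟨_, rfl⟩
  obtain ⟨P0, hP0⟩ : ∃ P0, P0 = ∏ k ∈ Finset.univ \ {i₀}, d k := ⟨_, rfl⟩
  obtain ⟨Q, hQ⟩ : ∃ Q, Q = ∏ k, s k := ⟨_, rfl⟩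
  have e1 : P = d i * Pi := by rw [hPd, hPi]; exact hP d i
  have e2 : P = d i₀ * P0 := by rw [hPd, hP0]; exact hP d i₀
  have e3 : Q ≤ s i * Pi := by
    rw [hQ, hP s i, hPi]
    exact Nat.mul_le_mul_left _ (Finset.prod_le_prod (fun _ _ => Nat.zero_le _)
      fun k _ => (hs k).1)
  have e4 : Q + 2 * Pi ≤ P := by
    rw [e1]
    calc Q + 2 * Pi ≤ s i * Pi + 2 * Pi := Nat.add_le_add_right e3 _
      _ = (s i + 2) * Pi := by ring
      _ ≤ d i * Pi := Nat.mul_le_mul_right _ hi2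
  have e5 : P ≤ Q + P0 := by
    have h5 : (d i₀ - 1) * P0 ≤ Q := by rw [hP0, hQ]; exact h1
    have h6 : d i₀ * P0 = (d i₀ - 1) * P0 + P0 := by
      obtain ⟨m, hm⟩ : ∃ m, d i₀ = m + 1 := ⟨d i₀ - 1, by omega⟩
      rw [hm, Nat.add_sub_cancel]
      ring
    rw [e2, h6]
    exact Nat.add_le_add_right h5 _
  have e6 : 2 * Pi ≤ P0 := by omega
  have hPpos : 0 < P := by rw [hPd]; exact Finset.prod_pos fun k _ => hd k
  have e7 : 2 * (P * d i₀) ≤ P * d i := by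
    calc 2 * (P * d i₀) = (2 * Pi) * (d i * d i₀) := by rw [e1]; ring
      _ ≤ P0 * (d i * d i₀) := Nat.mul_le_mul_right _ e6
      _ = P * d i := by rw [e2]; ring
  have e8 : P * d i ≤ P * d i₀ := Nat.mul_le_mul_left _ (hmax i)
  have e9 : 0 < P * d i₀ := Nat.mul_pos hPpos (hd i₀)
  omega

end Pool.Agent.Y169.GP
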