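import Pool.Agent.Y169.GP.Stm

/-!
# GP-RT: rational functions without poles
-/

set_option autoImplicit false

namespace Pool.Agent.Y169.GP

open scoped TensorProduct IntermediateField

namespace RTX

open Polynomial

variable {Ω : Type} [Field Ω]

/-- series without negative exponents are power series -/
theorem Nn_iff {f : LaurentSeries Ω} (h : Nn f) : ∃ g : PowerSeries Ω,
    HahnSeries.ofPowerSeries ℤ Ω g = f := by
  refine ⟨PowerSeries.mk fun n => f.coeff n, ?_⟩
  ext m
  rcases lt_or_ge m 0 with hm | hm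
  · rw [h m hm, PowerSeries.coeff_coe, if_pos hm]
  · rw [PowerSeries.coeff_coe, if_neg (not_lt.mpr hm), PowerSeries.coeff_mk]
    congr 1
    exact Int.natAbs_of_nonneg hm

variable [Algebra ℂ Ω]

theorem comp_eq : (HahnSeries.ofPowerSeries ℤ Ω).comp (algebraMap ℂ (PowerSeries Ω)) =
    algebraMap ℂ (LaurentSeries Ω) := by
  ext c
  rw [RingHom.comp_apply, HahnSeries.algebraMap_apply']

omit [Algebra ℂ Ω] in
theorem cs_eq (c : Ω) : cs c = HahnSeries.ofPowerSeries ℤ Ω (PowerSeries.C c + PowerSeries.X) := by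
  rw [map_add, HahnSeries.ofPowerSeries_C, HahnSeries.ofPowerSeries_X]
  rfl

/-- values of polynomials at power series -/
theorem aeval_ps (g : PowerSeries Ω) (p : ℂ[X]) :
    aeval (HahnSeries.ofPowerSeries ℤ Ω g) p =
      HahnSeries.ofPowerSeries ℤ Ω (eval₂ (algebraMap ℂ (PowerSeries Ω)) g p) := by
  rw [Polynomial.hom_eval₂, comp_eq]
  rfl

theorem const_eval (g : PowerSeries Ω) (c : ℂ) (hg : PowerSeries.constantCoeff g = algebraMap ℂ Ω c)
    (p : ℂ[X]) :
    PowerSeries.constantCoeff (eval₂ (algebraMap ℂ (PowerSeries Ω)) g p) =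
      algebraMap ℂ Ω (p.eval c) := by
  rw [Polynomial.hom_eval₂, hg]
  have e : (PowerSeries.constantCoeff (R := Ω)).comp (algebraMap ℂ (PowerSeries Ω)) =
      algebraMap ℂ Ω := by
    ext x
    simp [PowerSeries.algebraMap_apply]
  rw [e, Polynomial.eval₂_at_apply]



/-- the constant coefficients of an identity of values -/
theorem cc_eq (g G : PowerSeries Ω) (c : ℂ)
    (hg : PowerSeries.constantCoeff g = algebraMap ℂ Ω c) (a b : ℂ[X])
    (h : HahnSeries.ofPowerSeries ℤ Ω G * aeval (HahnSeries.ofPowerSeries ℤ Ω g) b =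
      aeval (HahnSeries.ofPowerSeries ℤ Ω g) a) :
    PowerSeries.constantCoeff G * algebraMap ℂ Ω (b.eval c) = algebraMap ℂ Ω (a.eval c) := by
  rw [aeval_ps, aeval_ps, ← map_mul] at h
  have h1 := HahnSeries.ofPowerSeries_injective h
  have h2 := congrArg (PowerSeries.constantCoeff (R := Ω)) h1
  rw [map_mul, const_eval g c hg, const_eval g c hg] at h2
  exact h2

end RTX

open Polynomial in
/-- **GP-RT** -/
theorem rt : S_RT := by
  intro F _ _ z hz Ω _ _ q hq h
  obtain ⟨r, s, hrs⟩ := (IntermediateField.mem_adjoin_simple_iff ℂ q).mp hq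
  have hinj : Function.Injective (aeval z : ℂ[X] →ₐ[ℂ] F) :=
    transcendental_iff_injective.mp hz
  -- q is a polynomial
  have hpoly : ∃ p : ℂ[X], q = aeval z p := by
    by_cases hs : s = 0
    · exact ⟨0, by rw [hrs, hs, map_zero, div_zero]⟩
    · set d := EuclideanDomain.gcd r s with hd
      have hd0 : d ≠ 0 := by
        intro h0
        exact hs (EuclideanDomain.gcd_eq_zero_iff.mp h0).2
      obtain ⟨a, ha⟩ : d ∣ r := EuclideanDomain.gcd_dvd_left r s
      obtain ⟨b, hb⟩ : d ∣ s := EuclideanDomain.gcd_dvd_right r s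
      have hcop : IsCoprime a b := by
        have h1 : d = r * EuclideanDomain.gcdA r s + s * EuclideanDomain.gcdB r s :=
          EuclideanDomain.gcd_eq_gcd_ab r s
        refine ⟨EuclideanDomain.gcdA r s, EuclideanDomain.gcdB r s, ?_⟩
        have h2 : d * (EuclideanDomain.gcdA r s * a + EuclideanDomain.gcdB r s * b) = d * 1 := by
          calc d * (EuclideanDomain.gcdA r s * a + EuclideanDomain.gcdB r s * b)
              = (d * a) * EuclideanDomain.gcdA r s + (d * b) * EuclideanDomain.gcdB r s := by ring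
            _ = r * EuclideanDomain.gcdA r s + s * EuclideanDomain.gcdB r s := by rw [← ha, ← hb]
            _ = d := h1.symm
            _ = d * 1 := (mul_one d).symm
        exact mul_left_cancel₀ hd0 h2
      have hb0 : b ≠ 0 := by
        intro h0
        rw [h0, mul_zero] at hb
        exact hs hb
      have hdz : aeval z d ≠ 0 := fun h0 => hd0 (hinj (by rw [h0, map_zero]))
      have hbz : aeval z b ≠ 0 := fun h0 => hb0 (hinj (by rw [h0, map_zero]))
      have hq2 : q * aeval z b = aeval z a := by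
        rw [hrs, ha, hb, map_mul, map_mul, mul_div_mul_left _ _ hdz, div_mul_cancel₀ _ hbz]
      by_cases hdeg : 0 < degree b
      · exfalso
        obtain ⟨c, hc⟩ := Complex.exists_root hdeg
        obtain ⟨σ, hσ, hN⟩ := h c
        obtain ⟨G, hG⟩ := RTX.Nn_iff hN
        have hσz : σ z = HahnSeries.ofPowerSeries ℤ Ω
            (PowerSeries.C (algebraMap ℂ Ω c) + PowerSeries.X) := by
          rw [← RTX.cs_eq]
          exact hσ
        have h3 := congrArg σ hq2
        rw [map_mul, ← hG, ← Polynomial.aeval_algHom_apply, ← Polynomial.aeval_algHom_apply,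
          hσz] at h3
        have h4 := RTX.cc_eq _ G c (by simp) a b h3
        rw [show b.eval c = 0 from hc, map_zero, mul_zero] at h4
        have h5 : a.eval c = 0 := (algebraMap ℂ Ω).injective (by rw [← h4, map_zero])
        obtain ⟨u, v, huv⟩ := hcop
        have h6 := congrArg (eval c) huv
        rw [eval_add, eval_mul, eval_mul, h5, show b.eval c = 0 from hc, mul_zero, mul_zero,
          add_zero, eval_one] at h6
        exact zero_ne_one h6
      · have hbC := eq_C_of_degree_le_zero (not_lt.mp hdeg)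
        set b0 := b.coeff 0 with hb0'
        have hb00 : b0 ≠ 0 := by
          intro h0
          rw [h0, C_0] at hbC
          exact hb0 hbC
        refine ⟨C b0⁻¹ * a, ?_⟩
        rw [map_mul, ← hq2, hbC]
        simp only [aeval_C]
        have h7 : algebraMap ℂ F b0 ≠ 0 := by
          intro h0
          exact hb00 ((algebraMap ℂ F).injective (by rw [h0, map_zero]))
        rw [map_inv₀]
        field_simp
  obtain ⟨p, hp⟩ := hpoly
  refine ⟨?_, ?_⟩
  · rw [hp]
    exact Polynomial.aeval_mem_adjoin_singleton ℂ z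
  · rintro ⟨σ, hσ, hN⟩
    obtain ⟨G, hG⟩ := RTX.Nn_iff hN
    have hz0 : z ≠ 0 := by
      rintro rfl
      exact hz isAlgebraic_zero
    have hσz : σ z⁻¹ = HahnSeries.ofPowerSeries ℤ Ω PowerSeries.X := by
      have h1 := RTX.cs_eq (0 : Ω)
      rw [map_zero, zero_add] at h1
      rw [← h1]
      exact hσ
    have hσz0 : σ z ≠ 0 := by
      intro h0
      exact hz0 ((map_eq_zero σ).mp h0)
    let _ : Invertible (σ z) := invertibleOfNonzero hσz0
    have h1 := Polynomial.eval₂_reverse_mul_pow (algebraMap ℂ (LaurentSeries Ω)) (σ z) p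
    have h2 : (⅟(σ z)) = HahnSeries.ofPowerSeries ℤ Ω PowerSeries.X := by
      rw [← hσz, map_inv₀, invOf_eq_inv]
    rw [h2] at h1
    have h3 : eval₂ (algebraMap ℂ (LaurentSeries Ω)) (σ z) p = σ q := by
      rw [hp, ← Polynomial.aeval_algHom_apply]
      rfl
    rw [h3, ← hG] at h1
    have h4 : (σ z) ^ p.natDegree * (HahnSeries.ofPowerSeries ℤ Ω PowerSeries.X) ^ p.natDegree
        = 1 := by
      rw [← mul_pow, ← hσz, map_inv₀, mul_inv_cancel₀ hσz0, one_pow]
    have h5 : HahnSeries.ofPowerSeries ℤ Ω (G * PowerSeries.X ^ p.natDegree) *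
        aeval (HahnSeries.ofPowerSeries ℤ Ω PowerSeries.X) (1 : ℂ[X]) =
        aeval (HahnSeries.ofPowerSeries ℤ Ω PowerSeries.X) (reverse p) := by
      rw [map_one, mul_one, map_mul, map_pow, ← h1, mul_assoc, h4, mul_one]
      rfl
    have h6 := RTX.cc_eq _ _ 0 (by simp) _ _ h5
    rw [← coeff_zero_eq_eval_zero (reverse p), coeff_zero_reverse, eval_one, map_one, mul_one,
      map_mul, map_pow, PowerSeries.constantCoeff_X] at h6
    by_cases hd : p.natDegree = 0
    · rw [natDegree_eq_zero] at hd
      obtain ⟨c, hc⟩ := hd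
      exact ⟨c, by rw [hp, ← hc, aeval_C]⟩
    · rw [zero_pow hd, mul_zero] at h6
      have h7 : p.leadingCoeff = 0 := (algebraMap ℂ Ω).injective (by rw [← h6, map_zero])
      rw [leadingCoeff_eq_zero] at h7
      rw [h7, natDegree_zero] at hd
      exact absurd rfl hd

end Pool.Agent.Y169.GP
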