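import Pool.Agent.Y169.GP.Stm

/-!
# Complete splitting near a transcendental point (helper751)
-/

set_option autoImplicit false

namespace Pool.Agent.Y169.GP

namespace S1X

open scoped IntermediateField
open Polynomial

/-- `ℂ[X] → Ω[[s]]`, `X ↦ t + s` -/
noncomputable def pol {Ω : Type} [Field Ω] [Algebra ℂ Ω] (t : Ω) : ℂ[X] →ₐ[ℂ] PowerSeries Ω :=
  aeval (PowerSeries.C t + PowerSeries.X)

lemma const_algebraMap {Ω : Type} [Field Ω] [Algebra ℂ Ω] (c : ℂ) :
    PowerSeries.constantCoeff (algebraMap ℂ (PowerSeries Ω) c) = algebraMap ℂ Ω c := by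
  rw [PowerSeries.algebraMap_apply]
  simp

lemma const_pol {Ω : Type} [Field Ω] [Algebra ℂ Ω] (t : Ω) (p : ℂ[X]) :
    PowerSeries.constantCoeff (pol t p) = aeval t p := by
  have h : (PowerSeries.constantCoeff (R := Ω)).comp (pol t).toRingHom =
      (aeval t : ℂ[X] →ₐ[ℂ] Ω).toRingHom := by
    apply Polynomial.ringHom_ext
    · intro c
      simp only [pol, AlgHom.toRingHom_eq_coe, RingHom.coe_comp, RingHom.coe_coe,
        Function.comp_apply, aeval_C]
      exact const_algebraMap c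
    · simp [pol]
  exact RingHom.congr_fun h p

lemma isUnit_pol {Ω : Type} [Field Ω] [Algebra ℂ Ω] {t : Ω} (ht : Transcendental ℂ t)
    (p : nonZeroDivisors ℂ[X]) : IsUnit (pol t (p : ℂ[X])) := by
  rw [PowerSeries.isUnit_iff_constantCoeff, const_pol, isUnit_iff_ne_zero]
  intro h
  exact nonZeroDivisors.ne_zero p.2 (transcendental_iff.1 ht _ h)

/-- `ℂ(x) → Ω[[s]]`, `x ↦ t + s` -/
noncomputable def phi {F : Type} [Field F] [Algebra ℂ F] {x : F} (hx : Transcendental ℂ x)
    {Ω : Type} [Field Ω] [Algebra ℂ Ω] {t : Ω} (ht : Transcendental ℂ t) :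
    ℂ⟮x⟯ →ₐ[ℂ] PowerSeries Ω :=
  (IsLocalization.liftAlgHom (M := nonZeroDivisors ℂ[X]) (S := RatFunc ℂ) (f := pol t)
    (isUnit_pol ht)).comp (RatFunc.algEquivOfTranscendental x hx).symm.toAlgHom

lemma phi_gen {F : Type} [Field F] [Algebra ℂ F] {x : F} (hx : Transcendental ℂ x)
    {Ω : Type} [Field Ω] [Algebra ℂ Ω] {t : Ω} (ht : Transcendental ℂ t) :
    phi hx ht (IntermediateField.AdjoinSimple.gen ℂ x) = PowerSeries.C t + PowerSeries.X := by
  have h1 : (RatFunc.algEquivOfTranscendental x hx).symm (IntermediateField.AdjoinSimple.gen ℂ x) =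
      algebraMap ℂ[X] (RatFunc ℂ) X := by
    rw [RatFunc.algEquivOfTranscendental_symm_gen, RatFunc.algebraMap_X]
  unfold phi
  change (IsLocalization.liftAlgHom (M := nonZeroDivisors ℂ[X]) (S := RatFunc ℂ) (f := pol t)
    (isUnit_pol ht)) ((RatFunc.algEquivOfTranscendental x hx).symm
      (IntermediateField.AdjoinSimple.gen ℂ x)) = _
  rw [h1, IsLocalization.liftAlgHom_apply, IsLocalization.lift_eq]
  simp [pol]

lemma transcendental_cs {Ω : Type} [Field Ω] [Algebra ℂ Ω] {t : Ω} (ht : Transcendental ℂ t) :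
    Transcendental ℂ (cs t : LaurentSeries Ω) := by
  rw [transcendental_iff]
  intro p hp
  have h : (aeval (cs t : LaurentSeries Ω) : ℂ[X] →ₐ[ℂ] LaurentSeries Ω).toRingHom =
      (HahnSeries.ofPowerSeries ℤ Ω).comp (pol t).toRingHom := by
    apply Polynomial.ringHom_ext
    · intro c
      simp only [pol, AlgHom.toRingHom_eq_coe, RingHom.coe_comp, RingHom.coe_coe,
        Function.comp_apply, aeval_C]
      exact HahnSeries.algebraMap_apply' ℤ c
    · simp only [pol, AlgHom.toRingHom_eq_coe, RingHom.coe_comp, RingHom.coe_coe,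
        Function.comp_apply, aeval_X, map_add]
      rw [HahnSeries.ofPowerSeries_C, HahnSeries.ofPowerSeries_X]
      rfl
  have h2 := RingHom.congr_fun h p
  simp only [AlgHom.toRingHom_eq_coe, RingHom.coe_comp, RingHom.coe_coe,
    Function.comp_apply] at h2
  rw [hp] at h2
  have h3 : pol t p = 0 := by
    apply HahnSeries.ofPowerSeries_injective (Γ := ℤ)
    rw [map_zero]
    exact h2.symm
  apply transcendental_iff.1 ht
  rw [← const_pol, h3, map_zero]

/-- embeddings are determined by the images of `x` and of a generator over `ℂ(x)` -/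
lemma emb_ext {F : Type} [Field F] [Algebra ℂ F] {x : F} (pb : PowerBasis ℂ⟮x⟯ F)
    {Λ : Type} [Field Λ] [Algebra ℂ Λ] (σ σ' : F →ₐ[ℂ] Λ) (hx : σ x = σ' x)
    (hg : σ pb.gen = σ' pb.gen) : σ = σ' := by
  have hE : σ.comp ℂ⟮x⟯.val = σ'.comp ℂ⟮x⟯.val := by
    apply IntermediateField.adjoin_algHom_ext
    intro y hy
    rw [Set.mem_singleton_iff] at hy
    subst hy
    exact hx
  letI : Algebra ℂ⟮x⟯ Λ := (σ.comp ℂ⟮x⟯.val).toRingHom.toAlgebra
  let s1 : F →ₐ[ℂ⟮x⟯] Λ := { σ.toRingHom with commutes' := fun r => rfl }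
  let s2 : F →ₐ[ℂ⟮x⟯] Λ := { σ'.toRingHom with
    commutes' := fun r => (DFunLike.congr_fun hE r).symm }
  have h : s1 = s2 := pb.algHom_ext hg
  ext y
  exact DFunLike.congr_fun h y

/-- the lifted embedding -/
lemma lift_emb {F : Type} [Field F] [Algebra ℂ F] {x : F} (hx : Transcendental ℂ x)
    (pb : PowerBasis ℂ⟮x⟯ F) (hsep : (minpoly ℂ⟮x⟯ pb.gen).Separable)
    {Ω : Type} [Field Ω] [Algebra ℂ Ω] {t : Ω} (ht : Transcendental ℂ t)
    (σ : F →ₐ[ℂ] Ω) (hσ : σ x = t) :
    ∃ τ : F →ₐ[ℂ] LaurentSeries Ω, τ x = cs t ∧ (τ pb.gen).coeff 0 = σ pb.gen := by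
  set f := minpoly ℂ⟮x⟯ pb.gen with hf
  have hint : IsIntegral ℂ⟮x⟯ pb.gen := pb.isIntegral_gen
  have hmon : f.Monic := minpoly.monic hint
  -- the two maps `ℂ(x) → Ω`
  have hE : ∀ y : ℂ⟮x⟯, PowerSeries.constantCoeff (phi hx ht y) = σ y := by
    let cA : PowerSeries Ω →ₐ[ℂ] Ω := { PowerSeries.constantCoeff (R := Ω) with
      commutes' := fun c => const_algebraMap c }
    have h : cA.comp (phi hx ht) = σ.comp ℂ⟮x⟯.val := by
      apply IntermediateField.adjoin_algHom_ext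
      intro y hy
      rw [Set.mem_singleton_iff] at hy
      subst hy
      have h2 := congrArg (PowerSeries.constantCoeff (R := Ω)) (phi_gen hx ht)
      simp only [map_add, PowerSeries.constantCoeff_C, PowerSeries.constantCoeff_X,
        add_zero] at h2
      change PowerSeries.constantCoeff (phi hx ht (IntermediateField.AdjoinSimple.gen ℂ y)) = σ y
      rw [h2, hσ]
    exact fun y => DFunLike.congr_fun h y
  have hEr : (PowerSeries.constantCoeff (R := Ω)).comp (phi hx ht).toRingHom =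
      σ.toRingHom.comp (algebraMap ℂ⟮x⟯ F) := RingHom.ext hE
  have hev : ∀ g : ℂ⟮x⟯[X], PowerSeries.constantCoeff
      ((g.map (phi hx ht).toRingHom).eval (PowerSeries.C (σ pb.gen))) =
        σ (aeval pb.gen g) := by
    intro g
    rw [eval_map, Polynomial.hom_eval₂, hEr, PowerSeries.constantCoeff_C]
    have h1 := Polynomial.hom_eval₂ g (algebraMap ℂ⟮x⟯ F) σ.toRingHom pb.gen
    exact h1.symm
  haveI : HenselianRing (PowerSeries Ω) (Ideal.span {PowerSeries.X}) :=
    IsAdicComplete.henselianRing _ _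
  obtain ⟨R, hR1, hR2⟩ := HenselianRing.is_henselian (I := Ideal.span {(PowerSeries.X : PowerSeries Ω)})
    (f.map (phi hx ht).toRingHom) (hmon.map _) (PowerSeries.C (σ pb.gen))
    (by
      rw [Ideal.mem_span_singleton, PowerSeries.X_dvd_iff, hev, minpoly.aeval, map_zero])
    (by
      apply IsUnit.map
      rw [PowerSeries.isUnit_iff_constantCoeff, derivative_map, hev, isUnit_iff_ne_zero]
      intro h
      rw [map_eq_zero] at h
      exact hsep.aeval_derivative_ne_zero (minpoly.aeval _ _) h)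
  rw [Ideal.mem_span_singleton, PowerSeries.X_dvd_iff, map_sub, PowerSeries.constantCoeff_C,
    sub_eq_zero] at hR2
  letI : Algebra ℂ⟮x⟯ (LaurentSeries Ω) :=
    ((HahnSeries.ofPowerSeries ℤ Ω).comp (phi hx ht).toRingHom).toAlgebra
  have halg : ∀ y : ℂ⟮x⟯, algebraMap ℂ⟮x⟯ (LaurentSeries Ω) y =
      HahnSeries.ofPowerSeries ℤ Ω (phi hx ht y) := fun y => rfl
  have hroot : aeval (HahnSeries.ofPowerSeries ℤ Ω R) f = 0 := by
    rw [aeval_def]
    have h1 : algebraMap ℂ⟮x⟯ (LaurentSeries Ω) =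
        (HahnSeries.ofPowerSeries ℤ Ω).comp (phi hx ht).toRingHom := rfl
    rw [h1, ← Polynomial.hom_eval₂]
    have h2 : f.eval₂ (phi hx ht).toRingHom R = 0 := by
      rw [← eval_map]
      exact hR1
    rw [h2, map_zero]
  have hcom : ∀ c : ℂ, (pb.lift (HahnSeries.ofPowerSeries ℤ Ω R) hroot) (algebraMap ℂ F c) =
      algebraMap ℂ (LaurentSeries Ω) c := by
    intro c
    rw [IsScalarTower.algebraMap_apply ℂ ℂ⟮x⟯ F c, AlgHom.commutes, halg, AlgHom.commutes]
    exact (HahnSeries.algebraMap_apply' ℤ c).symm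
  refine ⟨{ (pb.lift (HahnSeries.ofPowerSeries ℤ Ω R) hroot).toRingHom with
    commutes' := hcom }, ?_, ?_⟩
  · have h1 : (pb.lift (HahnSeries.ofPowerSeries ℤ Ω R) hroot)
        (algebraMap ℂ⟮x⟯ F (IntermediateField.AdjoinSimple.gen ℂ x)) =
        algebraMap ℂ⟮x⟯ (LaurentSeries Ω) (IntermediateField.AdjoinSimple.gen ℂ x) :=
      AlgHom.commutes _ _
    rw [IntermediateField.AdjoinSimple.algebraMap_gen, halg, phi_gen hx ht, map_add,
      HahnSeries.ofPowerSeries_C, HahnSeries.ofPowerSeries_X] at h1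
    exact h1
  · have h1 : (pb.lift (HahnSeries.ofPowerSeries ℤ Ω R) hroot) pb.gen =
        HahnSeries.ofPowerSeries ℤ Ω R := pb.lift_gen _ hroot
    change ((pb.lift (HahnSeries.ofPowerSeries ℤ Ω R) hroot) pb.gen).coeff 0 = _
    rw [h1]
    have h2 := HahnSeries.ofPowerSeries_apply_coeff (Γ := ℤ) R 0
    rw [Nat.cast_zero] at h2
    rw [h2, PowerSeries.coeff_zero_eq_constantCoeff_apply, hR2]

end S1X

open S1X

theorem s1 (h1 : S_C1) (h2 : S_C2) : S_S1 := by
  intro F _ _ x hx hd Ω _ _ _ t ht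
  obtain ⟨hfin, hle, -⟩ := h2 F x hx hd (LaurentSeries Ω) (cs t) (transcendental_cs ht)
  refine le_antisymm hle ?_
  rw [← h1 F x hx hd Ω t ht]
  haveI : FiniteDimensional (IntermediateField.adjoin ℂ {x}) F := Module.finite_of_finrank_pos hd
  let pb := Field.powerBasisOfFiniteOfSeparable (IntermediateField.adjoin ℂ {x}) F
  have hsep : (minpoly (IntermediateField.adjoin ℂ {x}) pb.gen).Separable :=
    Algebra.IsSeparable.isSeparable _ _
  have key : ∀ σ : F →ₐ[ℂ] Ω, ∃ τ : F →ₐ[ℂ] LaurentSeries Ω, σ x = t →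
      (τ x = cs t ∧ (τ pb.gen).coeff 0 = σ pb.gen) := by
    intro σ
    by_cases hσ : σ x = t
    · obtain ⟨τ, hτ⟩ := lift_emb hx pb hsep ht σ hσ
      exact ⟨τ, fun _ => hτ⟩
    · by_cases hne : Nonempty (F →ₐ[ℂ] LaurentSeries Ω)
      · exact ⟨hne.some, fun h => absurd h hσ⟩
      · exfalso
        have hpos : (Emb F x Ω t).ncard ≠ 0 := by
          rw [h1 F x hx hd Ω t ht]
          exact hd.ne'
        obtain ⟨σ₀, hσ₀⟩ := Set.nonempty_of_ncard_ne_zero hpos
        obtain ⟨τ, -⟩ := lift_emb hx pb hsep ht σ₀ hσ₀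
        exact hne ⟨τ⟩
  choose τ hτ using key
  refine Set.ncard_le_ncard_of_injOn τ (fun σ hσ => (hτ σ hσ).1) ?_ hfin
  intro σ hσ σ' hσ' h
  apply emb_ext pb σ σ'
  · rw [show σ x = t from hσ, show σ' x = t from hσ']
  · rw [← (hτ σ hσ).2, ← (hτ σ' hσ').2, h]

end Pool.Agent.Y169.GP
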