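import Pool.Agent.Y169.GP.Stm

/-!
# Embeddings with given values of the twisted coordinates
-/

set_option autoImplicit false

namespace Pool.Agent.Y169.GP

open scoped TensorProduct IntermediateField

namespace TCX

open scoped IntermediateField.algebraAdjoinAdjoin in
/-- the image of `v` is algebraic over every ring which contains the image of `x` -/
lemma alg_image {F : Type} [Field F] [Algebra ℂ F] {x : F} (v : F) (hd : 0 < deg F x) {Λ : Type}
    [Field Λ] [Algebra ℂ Λ] (σ : F →ₐ[ℂ] Λ) {T : Set Λ} (hT : σ x ∈ T) :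
    IsAlgebraic (Algebra.adjoin ℂ T) (σ v) := by
  haveI : FiniteDimensional ℂ⟮x⟯ F := Module.finite_of_finrank_pos hd
  have hv : IsAlgebraic ℂ⟮x⟯ v := Algebra.IsAlgebraic.isAlgebraic v
  have hle : ∀ y : ℂ⟮x⟯, σ y ∈ IntermediateField.adjoin ℂ T := by
    intro y
    have h1 : ℂ⟮x⟯ ≤ IntermediateField.comap σ (IntermediateField.adjoin ℂ T) := by
      rw [IntermediateField.adjoin_simple_le_iff]
      exact IntermediateField.subset_adjoin ℂ T hT
    exact h1 y.2
  let f : ℂ⟮x⟯ →+* IntermediateField.adjoin ℂ T :=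
    ((σ : F →+* Λ).comp (algebraMap ℂ⟮x⟯ F)).codRestrict
      (IntermediateField.adjoin ℂ T).toSubfield.toSubring hle
  have h2 : IsAlgebraic (IntermediateField.adjoin ℂ T) (σ v) :=
    hv.ringHom_of_comp_eq f (σ : F →+* Λ) f.injective (by ext y; rfl)
  exact (IsFractionRing.isAlgebraic_iff (Algebra.adjoin ℂ T) (IntermediateField.adjoin ℂ T) Λ).mpr h2

/-- changing one of the independent elements by an element which is algebraic over the others -/
lemma ind_update {n : ℕ} {Λ : Type} [Field Λ] [Algebra ℂ Λ] {t : Fin n → Λ}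
    (ht : AlgebraicIndependent ℂ t) (i₀ j : Fin n) (hij : i₀ ≠ j) {F : Type} [Field F]
    [Algebra ℂ F] {x : F} (v : F) (hd : 0 < deg F x) (σ : F →ₐ[ℂ] Λ) (hσ : σ x = t i₀) :
    AlgebraicIndependent ℂ (Function.update t j (t j - σ v)) := by
  have h0 := (AlgebraicIndependent.iff_transcendental_adjoin_image j).mp ht
  rw [AlgebraicIndependent.iff_transcendental_adjoin_image j]
  have him : Function.update t j (t j - σ v) '' {j}ᶜ = t '' {j}ᶜ := by
    apply Set.image_congr
    intro i hi
    exact Function.update_of_ne hi _ _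
  refine ⟨?_, ?_⟩
  · convert! h0.1 using 2 with i
    exact Function.update_of_ne i.2 _ _
  · rw [him, Function.update_self]
    intro halg
    apply h0.2
    have h1 : IsAlgebraic (Algebra.adjoin ℂ (t '' {j}ᶜ)) (σ v) :=
      alg_image v hd σ (hσ ▸ ⟨i₀, hij, rfl⟩)
    have h2 := halg.add h1
    rwa [sub_add_cancel] at h2

/-- two homomorphisms which agree on generators -/
lemma hom_ext {n : ℕ} {F : Fin n → Type} [∀ i, Field (F i)] [∀ i, Algebra ℂ (F i)]
    {K : Type} [Field K] [Algebra ℂ K] {π : ∀ i, F i →ₐ[ℂ] K} (hP : PF F K π)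
    {Λ : Type} [Field Λ] [Algebra ℂ Λ] {ρ ρ' : K →ₐ[ℂ] Λ}
    (h : ∀ i, ρ.comp (π i) = ρ'.comp (π i)) : ρ = ρ' := by
  ext y
  have hy : y ∈ IntermediateField.adjoin ℂ (⋃ i, Set.range (π i)) := by
    rw [hP.gen]; trivial
  induction hy using IntermediateField.adjoin_induction with
  | mem z hz =>
    obtain ⟨i, w, rfl⟩ := Set.mem_iUnion.mp hz
    exact DFunLike.congr_fun (h i) w
  | algebraMap c => rw [AlgHom.commutes, AlgHom.commutes]
  | add a b _ _ ha hb => rw [map_add, map_add, ha, hb]
  | inv a _ ha => rw [map_inv₀, map_inv₀, ha]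
  | mul a b _ _ ha hb => rw [map_mul, map_mul, ha, hb]

end TCX

open TCX in
theorem tc (h2 : S_C2) : S_TC := by
  intro n F _ _ K _ _ π hP x hx hd i₀ j v hij Λ _ _ t ht
  classical
  have hfin : ∀ i u, Transcendental ℂ u → (Emb (F i) (x i) Λ u).Finite := fun i u hu =>
    (h2 (F i) (x i) (hx i) (hd i) Λ u hu).1
  have hfin₀ : (Emb (F i₀) (x i₀) Λ (t i₀)).Finite := hfin _ _ (ht.transcendental i₀)
  haveI : Fintype (Emb (F i₀) (x i₀) Λ (t i₀)) := hfin₀.fintype
  have hind : ∀ a : Emb (F i₀) (x i₀) Λ (t i₀),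
      AlgebraicIndependent ℂ (Function.update t j (t j - (a : F i₀ →ₐ[ℂ] Λ) v)) :=
    fun a => ind_update ht i₀ j hij v (hd i₀) a a.2
  let D : Emb (F i₀) (x i₀) Λ (t i₀) → ∀ i, Set (F i →ₐ[ℂ] Λ) := fun a =>
    Function.update (Function.update (fun i => Emb (F i) (x i) Λ (t i)) j
      (Emb (F j) (x j) Λ (t j - (a : F i₀ →ₐ[ℂ] Λ) v))) i₀ {(a : F i₀ →ₐ[ℂ] Λ)}
  have hD0 : ∀ a, D a i₀ = {(a : F i₀ →ₐ[ℂ] Λ)} := fun a => Function.update_self _ _ _
  have hDj : ∀ a, D a j = Emb (F j) (x j) Λ (t j - (a : F i₀ →ₐ[ℂ] Λ) v) := fun a => by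
    change Function.update _ _ _ _ = _
    rw [Function.update_of_ne hij.symm, Function.update_self]
  have hDi : ∀ a i, i ≠ i₀ → i ≠ j → D a i = Emb (F i) (x i) Λ (t i) := fun a i h h' => by
    change Function.update _ _ _ _ = _
    rw [Function.update_of_ne h, Function.update_of_ne h']
  have hDmem : ∀ a i (τ : F i →ₐ[ℂ] Λ), τ ∈ D a i →
      τ (x i) = Function.update t j (t j - (a : F i₀ →ₐ[ℂ] Λ) v) i := by
    intro a i τ hτ
    rcases eq_or_ne i i₀ with rfl | h
    · rw [hD0] at hτ
      rw [Set.mem_singleton_iff.mp hτ, Function.update_of_ne hij]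
      exact a.2
    · rcases eq_or_ne i j with rfl | h'
      · rw [hDj] at hτ
        rw [Function.update_self]
        exact hτ
      · rw [hDi _ _ h h'] at hτ
        rw [Function.update_of_ne h']
        exact hτ
  have hDfin : ∀ a i, (D a i).Finite := by
    intro a i
    rcases eq_or_ne i i₀ with rfl | h
    · rw [hD0]; exact Set.finite_singleton _
    · rcases eq_or_ne i j with rfl | h'
      · rw [hDj]
        have := (hind a).transcendental i
        rw [Function.update_self] at this
        exact hfin _ _ this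
      · rw [hDi _ _ h h']
        exact hfin _ _ (ht.transcendental i)
  have hDcard : ∀ a, ∏ i, (D a i).ncard =
      (Emb (F j) (x j) Λ (t j - (a : F i₀ →ₐ[ℂ] Λ) v)).ncard *
        ∏ i ∈ Finset.univ \ {i₀, j}, (Emb (F i) (x i) Λ (t i)).ncard := by
    intro a
    rw [← Finset.mul_prod_erase Finset.univ _ (Finset.mem_univ i₀), hD0, Set.ncard_singleton,
      one_mul, ← Finset.mul_prod_erase (Finset.univ.erase i₀) _
        (Finset.mem_erase.mpr ⟨hij.symm, Finset.mem_univ j⟩), hDj]
    congr 1
    have hs : (Finset.univ.erase i₀).erase j = Finset.univ \ {i₀, j} := by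
      ext i
      simp only [Finset.mem_erase, Finset.mem_univ, Finset.mem_sdiff, Finset.mem_insert,
        Finset.mem_singleton, true_and, and_true, not_or]
      tauto
    rw [hs]
    refine Finset.prod_congr rfl fun i hi => ?_
    simp only [Finset.mem_univ, Finset.mem_sdiff, Finset.mem_insert,
        Finset.mem_singleton, true_and, not_or] at hi
    rw [hDi a i hi.1 hi.2]
  -- the restriction to the `i₀`-th field
  have htw : ∀ i, i ≠ j → tw π x i₀ j v i = π i (x i) := fun i hi => if_neg hi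
  have htwj : tw π x i₀ j v j = π j (x j) + π i₀ v := if_pos rfl
  let A : Set (K →ₐ[ℂ] Λ) := {ρ | ∀ i, ρ (tw π x i₀ j v i) = t i}
  let f : A → Emb (F i₀) (x i₀) Λ (t i₀) := fun ρ => ⟨(ρ : K →ₐ[ℂ] Λ).comp (π i₀), by
    have := ρ.2 i₀
    rw [htw _ hij] at this
    exact this⟩
  have hequiv : ∀ a, Nonempty ({ρ : A // f ρ = a} ≃ Set.pi Set.univ (D a)) := by
    intro a
    let g : {ρ : A // f ρ = a} → Set.pi Set.univ (D a) := fun ρ =>
      ⟨fun i => (ρ.1 : K →ₐ[ℂ] Λ).comp (π i), by
        intro i _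
        have ha : (ρ.1 : K →ₐ[ℂ] Λ).comp (π i₀) = (a : F i₀ →ₐ[ℂ] Λ) :=
          congrArg Subtype.val ρ.2
        have hr := ρ.1.2 i
        rcases eq_or_ne i i₀ with rfl | h
        · rw [hD0]; exact ha
        · rcases eq_or_ne i j with rfl | h'
          · rw [hDj]
            rw [htwj, map_add] at hr
            have hb : (ρ.1 : K →ₐ[ℂ] Λ) (π i₀ v) = (a : F i₀ →ₐ[ℂ] Λ) v :=
              DFunLike.congr_fun ha v
            change (ρ.1 : K →ₐ[ℂ] Λ) (π i (x i)) = _
            rw [← hb, ← hr, add_sub_cancel_right]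
          · rw [hDi _ _ h h']
            rw [htw _ h'] at hr
            exact hr⟩
    have hg : Function.Bijective g := by
      constructor
      · intro ρ ρ' h
        apply Subtype.ext
        apply Subtype.ext
        apply hom_ext hP
        intro i
        exact congrFun (congrArg Subtype.val h) i
      · intro τ
        have hτ : ∀ i, τ.1 i (x i) = Function.update t j (t j - (a : F i₀ →ₐ[ℂ] Λ) v) i :=
          fun i => hDmem a i _ (τ.2 i trivial)
        obtain ⟨ρ, hρ⟩ := hP.ext x hd Λ τ.1 (by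
          have : (fun i => τ.1 i (x i)) = Function.update t j (t j - (a : F i₀ →ₐ[ℂ] Λ) v) :=
            funext hτ
          rw [this]
          exact hind a)
        have h0 : ρ.comp (π i₀) = (a : F i₀ →ₐ[ℂ] Λ) := by
          rw [hρ]
          have := τ.2 i₀ trivial
          rw [hD0] at this
          exact this
        have hA : ρ ∈ A := by
          intro i
          have h1 : ρ (π i (x i)) = Function.update t j (t j - (a : F i₀ →ₐ[ℂ] Λ) v) i := by
            rw [← hτ i, ← hρ i]; rfl
          rcases eq_or_ne i j with rfl | h'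
          · rw [htwj, map_add, h1, Function.update_self]
            have : ρ (π i₀ v) = (a : F i₀ →ₐ[ℂ] Λ) v := DFunLike.congr_fun h0 v
            rw [this, sub_add_cancel]
          · rw [htw _ h', h1, Function.update_of_ne h']
        refine ⟨⟨⟨ρ, hA⟩, Subtype.ext h0⟩, ?_⟩
        apply Subtype.ext
        funext i
        exact hρ i
    exact ⟨Equiv.ofBijective g hg⟩
  have hfiber : ∀ a, Nat.card {ρ : A // f ρ = a} = ∏ i, (D a i).ncard := by
    intro a
    obtain ⟨e⟩ := hequiv a
    rw [Nat.card_congr e, Nat.card_congr (Equiv.Set.univPi (D a)), Nat.card_pi]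
    rfl
  change Nat.card A = _
  haveI : ∀ a, Finite {ρ : A // f ρ = a} := by
    intro a
    obtain ⟨e⟩ := hequiv a
    have hp : (Set.pi Set.univ (D a)).Finite := Set.Finite.pi (hDfin a)
    haveI := hp.to_subtype
    exact Finite.of_equiv _ e.symm
  rw [← Nat.card_congr (Equiv.sigmaFiberEquiv f), Nat.card_sigma,
    Finset.sum_congr rfl fun a _ => hfiber a, Finset.sum_congr rfl fun a _ => hDcard a,
    ← Finset.sum_mul]
  congr 1
  rw [← finsum_set_coe_eq_finsum_mem, finsum_eq_sum_of_fintype]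

end Pool.Agent.Y169.GP
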