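import Pool.Agent.Y169.GP.Stm

/-!
# GP-TI: independence of the twisted coordinates
-/

set_option autoImplicit false

namespace Pool.Agent.Y169.GP

open scoped TensorProduct IntermediateField

namespace TIX

/-- if `K` is finite over `ℂ(y₁, …, yₙ)` and the transcendence degree of `K` is at least `n`, then
the `yᵢ` are algebraically independent -/
theorem indep_of_fd {n : ℕ} {K : Type} [Field K] [Algebra ℂ K] (a y : Fin n → K)
    (ha : AlgebraicIndependent ℂ a)
    (hy : FiniteDimensional (IntermediateField.adjoin ℂ (Set.range y)) K) :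
    AlgebraicIndependent ℂ y := by
  have h1 : Algebra.IsAlgebraic (IntermediateField.adjoin ℂ (Set.range y)) K :=
    Algebra.IsAlgebraic.of_finite _ _
  have h2 : Algebra.IsAlgebraic (Algebra.adjoin ℂ (Set.range y)) K :=
    IntermediateField.isAlgebraic_adjoin_iff_top.mp h1
  have hle : Cardinal.mk (Fin n) ≤ Algebra.trdeg ℂ K := ha.cardinalMk_le_trdeg
  exact (Algebra.IsAlgebraic.isTranscendenceBasis_of_le_trdeg_of_finite ℂ y hle).1

end TIX

/-- GP-TI -/
theorem ti (hfd : S_FD) : S_TI := by
  intro n F _ _ K _ _ π hPF x hx hd i₀ j v hij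
  exact TIX.indep_of_fd (fun i => π i (x i)) _ (hPF.ind x hx) ((hfd n F K π hPF x hd).2 i₀ j v hij)

end Pool.Agent.Y169.GP
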