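import Pool.Agent.Y169.GP.Stm

/-!
# GP-TW: the special embedding
-/

set_option autoImplicit false

namespace Pool.Agent.Y169.GP

open scoped TensorProduct IntermediateField

namespace TWX

section const

lemma alg_eq {Ω : Type} [Field Ω] [Algebra ℂ Ω] (c : ℂ) :
    algebraMap ℂ (LaurentSeries Ω) c = (HahnSeries.C (algebraMap ℂ Ω c) : LaurentSeries Ω) := by
  rw [HahnSeries.algebraMap_apply', PowerSeries.algebraMap_apply]
  exact HahnSeries.ofPowerSeries_C _

lemma alg_eq' {Ω : Type} [Field Ω] (a : Ω) :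
    algebraMap Ω (LaurentSeries Ω) a = (HahnSeries.C a : LaurentSeries Ω) := by
  rw [HahnSeries.algebraMap_apply', PowerSeries.algebraMap_apply]
  exact HahnSeries.ofPowerSeries_C _

/-- the variable is transcendental over the constants -/
lemma s_trans (Ω : Type) [Field Ω] :
    Transcendental Ω (HahnSeries.single 1 1 : LaurentSeries Ω) := by
  rw [transcendental_iff]
  intro p hp
  ext n
  rw [Polynomial.aeval_eq_sum_range] at hp
  simp only [Algebra.smul_def, alg_eq'] at hp
  have h2 : ∀ i : ℕ, HahnSeries.C (p.coeff i) * (HahnSeries.single 1 1 : LaurentSeries Ω) ^ i =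
      HahnSeries.single (i : ℤ) (p.coeff i) := by
    intro i
    rw [HahnSeries.single_pow, one_pow, HahnSeries.C_apply,
      HahnSeries.single_mul_single]
    simp
  simp only [h2] at hp
  have h3 := congrArg (fun f : LaurentSeries Ω => f.coeff (n : ℤ)) hp
  simp only [HahnSeries.coeff_sum, HahnSeries.coeff_single, HahnSeries.coeff_zero,
    Nat.cast_inj] at h3
  rw [Finset.sum_ite_eq] at h3
  by_cases h4 : n ∈ Finset.range (p.natDegree + 1)
  · rw [if_pos h4] at h3
    rw [h3, Polynomial.coeff_zero]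
  · rw [Finset.mem_range, not_lt] at h4
    rw [Polynomial.coeff_zero]
    exact Polynomial.coeff_eq_zero_of_natDegree_lt (by omega)

/-- `c + s` is transcendental over the constants -/
lemma cs_trans {Ω : Type} [Field Ω] (c : Ω) : Transcendental Ω (cs c) := by
  intro h
  apply s_trans Ω
  have h1 : (HahnSeries.single 1 1 : LaurentSeries Ω) =
      cs c - algebraMap Ω (LaurentSeries Ω) c := by
    rw [alg_eq']
    unfold cs
    ring
  rw [h1]
  exact h.sub (isAlgebraic_algebraMap _)

variable {Ω : Type} [Field Ω] [Algebra ℂ Ω]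

/-- the constants -/
noncomputable def CC : Ω →ₐ[ℂ] LaurentSeries Ω :=
  { (HahnSeries.C : Ω →+* LaurentSeries Ω) with
    commutes' := fun r => (alg_eq r).symm }

lemma CC_apply (a : Ω) : CC a = (HahnSeries.C a : LaurentSeries Ω) := rfl

lemma CC_inj : Function.Injective (CC : Ω → LaurentSeries Ω) :=
  (CC : Ω →ₐ[ℂ] LaurentSeries Ω).toRingHom.injective

lemma tower : @IsScalarTower ℂ Ω (LaurentSeries Ω) Algebra.toSMul
    (@Algebra.toSMul Ω (LaurentSeries Ω) _ _ _) (@Algebra.toSMul ℂ (LaurentSeries Ω) _ _ _) := by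
  refine IsScalarTower.of_algebraMap_eq (R := ℂ) (S := Ω) (A := LaurentSeries Ω) fun c => ?_
  rw [alg_eq, alg_eq']

lemma trans_CC {a : Ω} (ha : Transcendental ℂ a) : Transcendental ℂ (CC a) := by
  intro h
  exact ha ((isAlgebraic_algHom_iff (CC : Ω →ₐ[ℂ] LaurentSeries Ω) CC_inj).mp h)

lemma trans_add {a : Ω} (ha : Transcendental ℂ a) (c : ℂ) :
    Transcendental ℂ (a + algebraMap ℂ Ω c) := by
  intro h
  apply ha
  have h1 : a = (a + algebraMap ℂ Ω c) - algebraMap ℂ Ω c := by ring
  rw [h1]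
  exact h.sub (isAlgebraic_algebraMap _)

/-- the independence of the values -/
lemma ind {n : ℕ} (j : Fin n) (a : Fin n → Ω) (ha : AlgebraicIndependent ℂ a) (u : Ω) :
    AlgebraicIndependent ℂ (fun i => if i = j then cs u else CC (a i)) := by
  have := tower (Ω := Ω)
  have h1 : AlgebraicIndependent ℂ (fun i : {i : Fin n // i ≠ j} => a i.1) :=
    ha.comp (fun i : {i : Fin n // i ≠ j} => i.1) Subtype.val_injective
  have h2 : AlgebraicIndependent Ω (fun _ : Unit => cs u) := by
    rw [algebraicIndependent_unique_type_iff]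
    exact cs_trans u
  have h3 := AlgebraicIndependent.sumElim_comp h1 h2
  classical
  have h4 := h3.comp (fun i : Fin n => if h : i = j then Sum.inl () else Sum.inr ⟨i, h⟩) (by
    intro i i' h
    simp only at h
    split_ifs at h with h5 h6 h6
    · rw [h5, h6]
    · exact congrArg Subtype.val (Sum.inr.inj h))
  have h5 : (fun i => if i = j then cs u else CC (a i)) =
      (Sum.elim (fun _ : Unit => cs u) (algebraMap Ω (LaurentSeries Ω) ∘
        fun i : {i : Fin n // i ≠ j} => a i.1)) ∘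
        (fun i : Fin n => if h : i = j then Sum.inl () else Sum.inr ⟨i, h⟩) := by
    funext i
    by_cases h : i = j
    · simp [h]
    · simp only [if_neg h, Function.comp_apply, dif_neg h, Sum.elim_inr]
      rw [alg_eq', CC_apply]
  rw [h5]
  exact h4

/-- the embeddings with a constant value are constant -/
lemma emb_const (h1 : S_C1) (h2 : S_C2) [IsAlgClosed Ω] (F : Type) [Field F] [Algebra ℂ F] (x : F)
    (hx : Transcendental ℂ x) (hd : 0 < deg F x) {a : Ω} (ha : Transcendental ℂ a) :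
    (fun σ : F →ₐ[ℂ] Ω => (CC : Ω →ₐ[ℂ] LaurentSeries Ω).comp σ) '' Emb F x Ω a =
      Emb F x (LaurentSeries Ω) (CC a) ∧ (Emb F x (LaurentSeries Ω) (CC a)).ncard = deg F x ∧
      Function.Injective (fun σ : F →ₐ[ℂ] Ω => (CC : Ω →ₐ[ℂ] LaurentSeries Ω).comp σ) := by
  have hinj : Function.Injective
      (fun σ : F →ₐ[ℂ] Ω => (CC : Ω →ₐ[ℂ] LaurentSeries Ω).comp σ) := by
    intro σ τ h
    ext f
    have := congrArg (fun ρ : F →ₐ[ℂ] LaurentSeries Ω => ρ f) h
    exact CC_inj this
  obtain ⟨hfin, hle, -⟩ := h2 F x hx hd (LaurentSeries Ω) (CC a) (trans_CC ha)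
  have hcard := h1 F x hx hd Ω a ha
  have hsub : (fun σ : F →ₐ[ℂ] Ω => (CC : Ω →ₐ[ℂ] LaurentSeries Ω).comp σ) '' Emb F x Ω a ⊆
      Emb F x (LaurentSeries Ω) (CC a) := by
    rintro _ ⟨σ, hσ, rfl⟩
    have hσ' : σ x = a := hσ
    show CC (σ x) = CC a
    rw [hσ']
  have hc2 : ((fun σ : F →ₐ[ℂ] Ω => (CC : Ω →ₐ[ℂ] LaurentSeries Ω).comp σ) '' Emb F x Ω a).ncard =
      deg F x := by
    rw [Set.ncard_image_of_injective _ hinj, hcard]
  have heq := Set.eq_of_subset_of_ncard_le hsub (by rw [hc2]; exact hle) hfin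
  exact ⟨heq, by rw [← heq, hc2], hinj⟩

end const

end TWX

open TWX in
theorem tw_main (h1 : S_C1) (h2 : S_C2) (hTC : S_TC) (hS1 : S_S1) (hVT : S_VT) : S_TW := by
  intro n F _ _ K _ _ π hPF x hx hd i₀ j v hij hadj c hc
  classical
  obtain ⟨ι, -⟩ : ∃ ι : K →ₐ[ℂ] AlgebraicClosure K, ι = IsScalarTower.toAlgHom ℂ K _ := ⟨_, rfl⟩
  have hιi : Function.Injective ι := ι.toRingHom.injective
  -- the values
  have hind : AlgebraicIndependent ℂ (fun i => ι (π i (x i))) := (hPF.ind x hx).map' hιi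
  have htr : ∀ i, Transcendental ℂ (ι (π i (x i))) := fun i => hind.transcendental i
  obtain ⟨u, hu⟩ : ∃ u : AlgebraicClosure K, u = ι (π i₀ v) + algebraMap ℂ _ c := ⟨_, rfl⟩
  refine ⟨fun i => if i = j then cs u else CC (ι (π i (x i))), ind j _ hind u, ?_⟩
  have hN := hTC n F K π hPF x hx hd i₀ j v hij (LaurentSeries (AlgebraicClosure K))
    (fun i => if i = j then cs u else CC (ι (π i (x i)))) (ind j _ hind u)
  rw [hN]
  simp only [if_neg hij, if_true]
  -- the other factors
  have hprod : ∏ i ∈ Finset.univ \ {i₀, j}, (Emb (F i) (x i) (LaurentSeries (AlgebraicClosure K))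
      (if i = j then cs u else CC (ι (π i (x i))))).ncard =
      ∏ i ∈ Finset.univ \ {i₀, j}, deg (F i) (x i) := by
    refine Finset.prod_congr rfl fun i hi => ?_
    have hne : i ≠ j := by
      rintro rfl
      simp at hi
    rw [if_neg hne]
    exact (emb_const h1 h2 (F i) (x i) (hx i) (hd i) (htr i)).2.1
  rw [hprod]
  -- the sum
  obtain ⟨himg, -, hinj⟩ := emb_const (Ω := AlgebraicClosure K) h1 h2 (F i₀) (x i₀) (hx i₀) (hd i₀)
    (htr i₀)
  have hfin : (Emb (F i₀) (x i₀) (AlgebraicClosure K) (ι (π i₀ (x i₀)))).Finite :=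
    (h2 (F i₀) (x i₀) (hx i₀) (hd i₀) (AlgebraicClosure K) _ (htr i₀)).1
  have hcard := h1 (F i₀) (x i₀) (hx i₀) (hd i₀) (AlgebraicClosure K) _ (htr i₀)
  have hsum : (∑ᶠ σ ∈ Emb (F i₀) (x i₀) (LaurentSeries (AlgebraicClosure K))
      (CC (ι (π i₀ (x i₀)))), (Emb (F j) (x j) (LaurentSeries (AlgebraicClosure K))
        (cs u - σ v)).ncard) = ∑ σ ∈ hfin.toFinset, (Emb (F j) (x j)
        (LaurentSeries (AlgebraicClosure K)) (cs u - CC (σ v))).ncard := by
    rw [← himg, finsum_mem_image hinj.injOn, finsum_mem_eq_finite_toFinset_sum _ hfin]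
    rfl
  rw [hsum]
  have hT : hfin.toFinset.card = deg (F i₀) (x i₀) := by
    rw [← Set.ncard_eq_toFinset_card _ hfin]
    exact hcard
  have hσ0 : ι.comp (π i₀) ∈ hfin.toFinset := by
    rw [Set.Finite.mem_toFinset]
    rfl
  have hcs : ∀ w : AlgebraicClosure K, cs u - CC w = cs (u - w) := by
    intro w
    rw [CC_apply]
    unfold cs
    rw [map_sub]
    ring
  -- the other terms
  have hother : ∀ σ ∈ hfin.toFinset.erase (ι.comp (π i₀)), (Emb (F j) (x j)
        (LaurentSeries (AlgebraicClosure K)) (cs u - CC (σ v))).ncard = deg (F j) (x j) := by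
    intro σ hσ
    rw [Finset.mem_erase, Set.Finite.mem_toFinset] at hσ
    rw [hcs]
    refine hS1 (F j) (x j) (hx j) (hd j) (AlgebraicClosure K) (u - σ v) ?_
    have h3 := hVT (F i₀) (x i₀) v (hx i₀) (hd i₀) hadj (AlgebraicClosure K) _ (htr i₀)
      (ι.comp (π i₀)) rfl σ hσ.2 hσ.1.symm
    have h4 : u - σ v = ((ι.comp (π i₀)) v - σ v) + algebraMap ℂ _ c := by
      rw [hu]
      show ι (π i₀ v) + algebraMap ℂ _ c - σ v = (ι (π i₀ v) - σ v) + algebraMap ℂ _ c
      ring
    rw [h4]
    exact trans_add h3 c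
  have hfirst : (Emb (F j) (x j) (LaurentSeries (AlgebraicClosure K))
      (cs u - CC ((ι.comp (π i₀)) v))).ncard < deg (F j) (x j) := by
    rw [hcs]
    have h3 : u - (ι.comp (π i₀)) v = algebraMap ℂ _ c := by
      rw [hu]
      show ι (π i₀ v) + algebraMap ℂ _ c - ι (π i₀ v) = _
      ring
    rw [h3]
    exact hc
  rw [← Finset.add_sum_erase _ _ hσ0, Finset.sum_congr rfl hother, Finset.sum_const, smul_eq_mul,
    Finset.card_erase_of_mem hσ0, hT]
  -- the products
  have hP1 : ∏ i ∈ Finset.univ \ {i₀}, deg (F i) (x i) =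
      deg (F j) (x j) * ∏ i ∈ Finset.univ \ {i₀, j}, deg (F i) (x i) := by
    have h3 : (Finset.univ \ {i₀} : Finset (Fin n)) = insert j (Finset.univ \ {i₀, j}) := by
      ext i
      simp only [Finset.mem_sdiff, Finset.mem_univ, true_and, Finset.mem_singleton,
        Finset.mem_insert, not_or]
      constructor
      · intro h
        by_cases h4 : i = j
        · exact Or.inl h4
        · exact Or.inr ⟨h, h4⟩
      · rintro (h | h)
        · rw [h]; exact hij.symm
        · exact h.1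
    rw [h3, Finset.prod_insert (by simp)]
  have hP2 : ∏ i, deg (F i) (x i) = deg (F i₀) (x i₀) *
      (deg (F j) (x j) * ∏ i ∈ Finset.univ \ {i₀, j}, deg (F i) (x i)) := by
    rw [← hP1]
    have h3 : (Finset.univ : Finset (Fin n)) = insert i₀ (Finset.univ \ {i₀}) := by
      ext i
      simp only [Finset.mem_sdiff, Finset.mem_univ, true_and, Finset.mem_singleton,
        Finset.mem_insert]
      tauto
    conv_lhs => rw [h3]
    rw [Finset.prod_insert (by simp)]
  rw [hP1, hP2]
  have hPpos : 0 < ∏ i ∈ Finset.univ \ {i₀, j}, deg (F i) (x i) :=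
    Finset.prod_pos fun i _ => hd i
  have hd0 := hd i₀
  generalize ∏ i ∈ Finset.univ \ {i₀, j}, deg (F i) (x i) = Q at hPpos ⊢
  generalize (Emb (F j) (x j) (LaurentSeries (AlgebraicClosure K))
      (cs u - CC ((ι.comp (π i₀)) v))).ncard = A at hfirst ⊢
  generalize deg (F j) (x j) = B at hfirst ⊢
  generalize deg (F i₀) (x i₀) = D at hd0 ⊢
  obtain ⟨D', rfl⟩ : ∃ D', D = D' + 1 := ⟨D - 1, by omega⟩
  rw [Nat.add_sub_cancel]
  constructor
  · calc D' * (B * Q) = (D' * B) * Q := by ring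
      _ ≤ (A + D' * B) * Q := Nat.mul_le_mul_right _ (Nat.le_add_left _ _)
  · calc (A + D' * B) * Q < (B + D' * B) * Q :=
          Nat.mul_lt_mul_of_pos_right (by omega) hPpos
      _ = (D' + 1) * (B * Q) := by ring

end Pool.Agent.Y169.GP
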