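import Pool.Agent.Y169.GP.Stm

/-!
# GP-UP: the field of fractions of a tensor product of function fields
-/

set_option autoImplicit false

namespace Pool.Agent.Y169.GP

open scoped TensorProduct IntermediateField

namespace UPX

variable {n : ℕ} (F : Fin n → Type) [∀ i, Field (F i)] [∀ i, Algebra ℂ (F i)]

/-- A pure tensor is the product of its components. -/
theorem tprod_eq (a : ∀ i, F i) :
    PiTensorProduct.tprod ℂ a =
      ∏ i, (PiTensorProduct.singleAlgHom (R := ℂ) (A := F) i) (a i) := by
  have h : a = ∏ i, (Pi.mulSingle i (a i) : ∀ i, F i) := (Finset.univ_prod_mulSingle a).symm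
  conv_lhs => rw [h]
  rw [PiTensorProduct.tprod_prod]
  rfl

/-- The tensors of the members of linearly independent families are linearly independent. -/
theorem li_tprod {κ : Fin n → Type} (v : ∀ i, κ i → F i)
    (hv : ∀ i, LinearIndependent ℂ (v i)) :
    LinearIndependent ℂ (fun p : ∀ i, κ i =>
      (PiTensorProduct.tprod ℂ (fun i => v i (p i)) : ⨂[ℂ] i, F i)) := by
  classical
  have hs : ∀ i, LinearIndepOn ℂ id (Set.range (v i)) := fun i => (hv i).linearIndepOn_id
  let b := fun i => Module.Basis.extend (hs i)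
  let e : (∀ i, κ i) → ∀ i, (hs i).extend (Set.subset_univ _) := fun p i =>
    ⟨v i (p i), (hs i).subset_extend _ ⟨p i, rfl⟩⟩
  have he : Function.Injective e := by
    intro p q hpq
    funext i
    have h1 := congrArg Subtype.val (congrFun hpq i)
    exact (hv i).injective h1
  have h2 := (Basis.piTensorProduct b).linearIndependent.comp e he
  have h3 : (Basis.piTensorProduct b : _ → ⨂[ℂ] i, F i) ∘ e = (fun p : ∀ i, κ i =>
      (PiTensorProduct.tprod ℂ (fun i => v i (p i)) : ⨂[ℂ] i, F i)) := by
    funext p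
    simp only [Function.comp_apply, Basis.piTensorProduct_apply]
    congr 1
    funext i
    exact Module.Basis.extend_apply_self (hs i) _
  rw [h3] at h2
  exact h2

/-- Transcendental elements in the different factors are algebraically independent. -/
theorem ai_single (x : ∀ i, F i) (hx : ∀ i, Transcendental ℂ (x i)) :
    AlgebraicIndependent ℂ (fun i =>
      (PiTensorProduct.singleAlgHom (R := ℂ) (A := F) i) (x i)) := by
  have hp : ∀ i, LinearIndependent ℂ (fun k : ℕ => x i ^ k) := by
    intro i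
    have h1 := (Polynomial.basisMonomials ℂ).linearIndependent.map'
      (Polynomial.aeval (x i)).toLinearMap
      (LinearMap.ker_eq_bot.2 (transcendental_iff_injective.1 (hx i)))
    have h2 : ((Polynomial.aeval (x i)).toLinearMap : Polynomial ℂ → F i) ∘
        (Polynomial.basisMonomials ℂ) = fun k : ℕ => x i ^ k := by
      funext k
      simp
    rw [h2] at h1
    exact h1
  have h3 := li_tprod F (fun i (k : ℕ) => x i ^ k) hp
  have h4 := h3.comp (fun m : Fin n →₀ ℕ => (m : Fin n → ℕ)) DFunLike.coe_injective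
  rw [AlgebraicIndependent]
  have h5 : LinearIndependent ℂ (((MvPolynomial.aeval (fun i =>
      (PiTensorProduct.singleAlgHom (R := ℂ) (A := F) i) (x i))).toLinearMap :
      MvPolynomial (Fin n) ℂ → ⨂[ℂ] i, F i) ∘ MvPolynomial.basisMonomials (Fin n) ℂ) := by
    have h6 : ((MvPolynomial.aeval (fun i =>
      (PiTensorProduct.singleAlgHom (R := ℂ) (A := F) i) (x i))).toLinearMap :
      MvPolynomial (Fin n) ℂ → ⨂[ℂ] i, F i) ∘ MvPolynomial.basisMonomials (Fin n) ℂ =
      (fun p : Fin n → ℕ => (PiTensorProduct.tprod ℂ (fun i => x i ^ (p i)) : ⨂[ℂ] i, F i)) ∘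
        (fun m : Fin n →₀ ℕ => (m : Fin n → ℕ)) := by
      funext m
      simp only [Function.comp_apply, MvPolynomial.coe_basisMonomials, AlgHom.toLinearMap_apply,
        MvPolynomial.aeval_monomial, map_one, one_mul]
      rw [tprod_eq, Finsupp.prod_fintype _ _ (fun i => pow_zero _)]
      exact Finset.prod_congr rfl fun i _ => (map_pow _ _ _).symm
    rw [h6]
    exact h4
  exact LinearMap.injective_of_linearIndependent
    (MvPolynomial.basisMonomials (Fin n) ℂ).span_eq h5

/-- The homomorphism from the tensor product given by homomorphisms of the factors. -/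
noncomputable def lf {Λ : Type} [Field Λ] [Algebra ℂ Λ] (σ : ∀ i, F i →ₐ[ℂ] Λ) :
    (⨂[ℂ] i, F i) →ₐ[ℂ] Λ :=
  PiTensorProduct.liftAlgHom
    ((MultilinearMap.mkPiAlgebra ℂ (Fin n) Λ).compLinearMap fun i => (σ i).toLinearMap)
    (by simp)
    (by
      intro x y
      simp [Finset.prod_mul_distrib])

theorem lf_tprod {Λ : Type} [Field Λ] [Algebra ℂ Λ] (σ : ∀ i, F i →ₐ[ℂ] Λ) (a : ∀ i, F i) :
    lf F σ (PiTensorProduct.tprod ℂ a) = ∏ i, σ i (a i) := by
  change PiTensorProduct.lift ((MultilinearMap.mkPiAlgebra ℂ (Fin n) Λ).compLinearMap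
    fun i => (σ i).toLinearMap) (PiTensorProduct.tprod ℂ a) = _
  rw [PiTensorProduct.lift.tprod]
  rfl

theorem lf_single {Λ : Type} [Field Λ] [Algebra ℂ Λ] (σ : ∀ i, F i →ₐ[ℂ] Λ) (i : Fin n)
    (a : F i) : lf F σ (PiTensorProduct.singleAlgHom (R := ℂ) (A := F) i a) = σ i a := by
  change lf F σ (PiTensorProduct.tprod ℂ (Pi.mulSingle i a)) = σ i a
  rw [lf_tprod, Finset.prod_eq_single i]
  · simp
  · intro j _ hj
    simp [Pi.mulSingle_eq_of_ne hj]
  · intro h
    exact absurd (Finset.mem_univ i) h

open scoped IntermediateField.algebraAdjoinAdjoin in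
/-- The tensor product is algebraic over the subalgebra generated by the coordinates. -/
theorem alg [IsDomain (⨂[ℂ] i, F i)] (x : ∀ i, F i) (hx : ∀ i, 0 < deg (F i) (x i))
    (r : ⨂[ℂ] i, F i) :
    IsAlgebraic (Algebra.adjoin ℂ (Set.range fun i =>
      (PiTensorProduct.singleAlgHom (R := ℂ) (A := F) i) (x i))) r := by
  set A := Algebra.adjoin ℂ (Set.range fun i =>
      (PiTensorProduct.singleAlgHom (R := ℂ) (A := F) i) (x i)) with hA
  have hs : ∀ i (a : F i), IsAlgebraic A
      ((PiTensorProduct.singleAlgHom (R := ℂ) (A := F) i) a) := by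
    intro i a
    have h1 : FiniteDimensional ℂ⟮x i⟯ (F i) := FiniteDimensional.of_finrank_pos (hx i)
    have h2 : IsAlgebraic ℂ⟮x i⟯ a := Algebra.IsAlgebraic.isAlgebraic a
    have h3 : IsAlgebraic (Algebra.adjoin ℂ {x i}) a :=
      (IsFractionRing.isAlgebraic_iff (Algebra.adjoin ℂ {x i}) ℂ⟮x i⟯ (F i)).2 h2
    let j : Algebra.adjoin ℂ {x i} →ₐ[ℂ] A :=
      ((PiTensorProduct.singleAlgHom (R := ℂ) (A := F) i).comp
        (Algebra.adjoin ℂ {x i}).val).codRestrict A (by
          rintro ⟨y, hy⟩
          have h4 : (Algebra.adjoin ℂ {x i}) ≤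
              A.comap (PiTensorProduct.singleAlgHom (R := ℂ) (A := F) i) := by
            rw [Algebra.adjoin_le_iff]
            rintro z hz
            rw [Set.mem_singleton_iff] at hz
            subst hz
            exact Algebra.subset_adjoin ⟨i, rfl⟩
          exact h4 hy)
    have hj : Function.Injective j := by
      intro y z hyz
      have h5 := congrArg Subtype.val hyz
      exact Subtype.ext ((PiTensorProduct.singleAlgHom (R := ℂ) (A := F) i).toRingHom.injective h5)
    exact h3.ringHom_of_comp_eq j (PiTensorProduct.singleAlgHom (R := ℂ) (A := F) i) hj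
      (by ext y; rfl)
  have ht : ∀ a : ∀ i, F i, PiTensorProduct.tprod ℂ a ∈ Subalgebra.algebraicClosure A
      (⨂[ℂ] i, F i) := by
    intro a
    rw [tprod_eq]
    exact Subalgebra.prod_mem _ fun i _ => hs i (a i)
  change r ∈ Subalgebra.algebraicClosure A (⨂[ℂ] i, F i)
  induction r using PiTensorProduct.induction_on with
  | smul_tprod c a =>
    have h6 : c • PiTensorProduct.tprod ℂ a =
        (algebraMap ℂ A c) • PiTensorProduct.tprod ℂ a := by
      rw [algebraMap_smul]
    rw [h6]
    exact Subalgebra.smul_mem _ (ht a) _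
  | add y z hy hz => exact Subalgebra.add_mem _ hy hz

/-- The homomorphism from the tensor product is injective if the images of the coordinates are
algebraically independent. -/
theorem lf_inj [IsDomain (⨂[ℂ] i, F i)] (x : ∀ i, F i) (hx : ∀ i, 0 < deg (F i) (x i))
    {Λ : Type} [Field Λ] [Algebra ℂ Λ] (σ : ∀ i, F i →ₐ[ℂ] Λ)
    (h : AlgebraicIndependent ℂ (fun i => σ i (x i))) : Function.Injective (lf F σ) := by
  rw [injective_iff_map_eq_zero]
  intro r hr
  by_contra h0
  have h1 := Ideal.comap_ne_bot_of_algebraic_mem (I := RingHom.ker (lf F σ)) h0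
    ((RingHom.mem_ker).2 hr) (alg F x hx r)
  apply h1
  rw [eq_bot_iff]
  rintro ⟨c, hc⟩ hc'
  rw [Ideal.mem_comap, RingHom.mem_ker] at hc'
  change lf F σ c = 0 at hc'
  rw [Algebra.adjoin_range_eq_range_aeval] at hc
  obtain ⟨p, hp⟩ := hc
  have hp' : MvPolynomial.aeval (fun i =>
      (PiTensorProduct.singleAlgHom (R := ℂ) (A := F) i) (x i)) p = c := hp
  have h2 : MvPolynomial.aeval (fun i => σ i (x i)) p = 0 := by
    rw [← hc', ← hp', ← AlgHom.comp_apply, MvPolynomial.comp_aeval]
    simp only [lf_single]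
  have h3 : p = 0 := h.eq_zero_of_aeval_eq_zero p h2
  rw [Ideal.mem_bot]
  apply Subtype.ext
  change c = 0
  rw [← hp', h3, map_zero]

end UPX

/-- GP-UP. -/
theorem up : S_UP := by
  intro n F _ _ K _ _ _ _ _
  have hinj : Function.Injective (algebraMap (⨂[ℂ] i, F i) K) := IsFractionRing.injective _ _
  have : IsDomain (⨂[ℂ] i, F i) := Function.Injective.isDomain _ hinj
  refine ⟨?_, ?_, ?_⟩
  · rw [eq_top_iff]
    intro k _
    have h1 : ∀ a : ⨂[ℂ] i, F i, algebraMap (⨂[ℂ] i, F i) K a ∈
        IntermediateField.adjoin ℂ (⋃ i, Set.range (proj F K i)) := by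
      intro a
      induction a using PiTensorProduct.induction_on with
      | smul_tprod c a =>
        have h2 : algebraMap (⨂[ℂ] i, F i) K (c • PiTensorProduct.tprod ℂ a) =
            c • algebraMap (⨂[ℂ] i, F i) K (PiTensorProduct.tprod ℂ a) :=
          map_smul (IsScalarTower.toAlgHom ℂ (⨂[ℂ] i, F i) K) c _
        rw [h2]
        apply IntermediateField.smul_mem
        rw [UPX.tprod_eq, map_prod]
        refine prod_mem fun i _ => ?_
        exact IntermediateField.subset_adjoin _ _ (Set.mem_iUnion.2 ⟨i, a i, rfl⟩)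
      | add y z hy hz =>
        rw [map_add]
        exact add_mem hy hz
    obtain ⟨a, b, _, rfl⟩ := IsFractionRing.div_surjective (⨂[ℂ] i, F i) k
    exact div_mem (h1 a) (h1 b)
  · intro x hx
    have h1 := UPX.ai_single F x hx
    exact h1.map' (f := IsScalarTower.toAlgHom ℂ (⨂[ℂ] i, F i) K) hinj
  · intro x hx Λ _ _ σ h
    refine ⟨IsFractionRing.liftAlgHom (UPX.lf_inj F x hx σ h), fun i => ?_⟩
    ext a
    have h1 : proj F K i a = algebraMap (⨂[ℂ] i, F i) K
      (PiTensorProduct.singleAlgHom (R := ℂ) (A := F) i a) := rfl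
    rw [AlgHom.comp_apply, h1, IsFractionRing.liftAlgHom_apply, IsFractionRing.lift_algebraMap]
    exact UPX.lf_single F σ i a

end Pool.Agent.Y169.GP
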