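import Pool.Agent.Y169.GP.Stm

set_option autoImplicit false

namespace Pool.Agent.Y169.GP

open scoped TensorProduct IntermediateField

namespace VTX

/-- the subfield on which two homomorphisms agree -/
noncomputable def eqf {F : Type} [Field F] [Algebra ℂ F] {Ω : Type} [Field Ω] [Algebra ℂ Ω]
    (σ τ : F →ₐ[ℂ] Ω) : IntermediateField ℂ F :=
  (AlgHom.equalizer σ τ : Subalgebra ℂ F).toIntermediateField (by
        intro z hz
        have hz' : σ z = τ z := hz
        show σ z⁻¹ = τ z⁻¹
        rw [map_inv₀, map_inv₀, hz'])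

theorem mem_eqf {F : Type} [Field F] [Algebra ℂ F] {Ω : Type} [Field Ω] [Algebra ℂ Ω]
    {σ τ : F →ₐ[ℂ] Ω} {y : F} : y ∈ eqf σ τ ↔ σ y = τ y := Iff.rfl

/-- two homomorphisms which agree at `x` agree on `ℂ(x)` -/
theorem agree {F : Type} [Field F] [Algebra ℂ F] {x : F} {Ω : Type} [Field Ω] [Algebra ℂ Ω]
    {σ τ : F →ₐ[ℂ] Ω} (h : σ x = τ x) {y : F} (hy : y ∈ ℂ⟮x⟯) : σ y = τ y := by
  have h1 : ℂ⟮x⟯ ≤ eqf σ τ := by
    rw [IntermediateField.adjoin_simple_le_iff]
    exact h
  exact mem_eqf.mp (h1 hy)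

/-- evaluation of a polynomial over `ℂ(x)` and two homomorphisms which agree at `x` -/
theorem hom_aeval {F : Type} [Field F] [Algebra ℂ F] {x : F} {Ω : Type} [Field Ω] [Algebra ℂ Ω]
    {σ τ : F →ₐ[ℂ] Ω} (h : σ x = τ x) (p : Polynomial ℂ⟮x⟯) {a b : F} (hab : σ a = τ b) :
    σ (Polynomial.aeval a p) = τ (Polynomial.aeval b p) := by
  have h1 : (σ : F →+* Ω).comp (algebraMap ℂ⟮x⟯ F) = (τ : F →+* Ω).comp (algebraMap ℂ⟮x⟯ F) := by
    refine RingHom.ext fun y => ?_
    exact agree h y.2
  have h2 := Polynomial.hom_eval₂ p (algebraMap ℂ⟮x⟯ F) (σ : F →+* Ω) a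
  have h3 := Polynomial.hom_eval₂ p (algebraMap ℂ⟮x⟯ F) (τ : F →+* Ω) b
  have h4 : (σ : F →+* Ω) a = (τ : F →+* Ω) b := hab
  rw [h1, h4, ← h3] at h2
  exact h2

end VTX

theorem vt : S_VT := by
  intro F _ _ x v hx hd hgen Ω _ _ t ht σ hσ τ hτ hne htr
  have hστ : σ x = τ x := by
    have hσx : σ x = t := hσ
    have hτx : τ x = t := hτ
    rw [hσx, hτx]
  have : CharZero F := charZero_of_injective_algebraMap (algebraMap ℂ F).injective
  have : FiniteDimensional ℂ⟮x⟯ F := Module.finite_of_finrank_pos hd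
  -- the difference is a constant
  have hal : IsAlgebraic ℂ (σ v - τ v) := htr
  obtain ⟨e, he⟩ : ∃ e : ℂ, algebraMap ℂ Ω e = σ v - τ v := by
    have h2 : IsIntegral ℂ (σ v - τ v) := isAlgebraic_iff_isIntegral.mp hal
    have h4 : (minpoly ℂ (σ v - τ v)).degree = 1 :=
      IsAlgClosed.degree_eq_one_of_irreducible ℂ (minpoly.irreducible h2)
    exact minpoly.mem_range_of_degree_eq_one ℂ _ h4
  set m : Polynomial ℂ⟮x⟯ := minpoly ℂ⟮x⟯ v with hmdef
  have hint : IsIntegral ℂ⟮x⟯ v := Algebra.IsIntegral.isIntegral v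
  have hm0 : m ≠ 0 := minpoly.ne_zero hint
  -- `v - e` is a root of `m`
  have hσe : ∀ z : F, σ (z - algebraMap ℂ F e) = σ z - algebraMap ℂ Ω e := by
    intro z
    rw [map_sub, AlgHom.commutes]
  have h1 : Polynomial.aeval (v - algebraMap ℂ F e) m = 0 := by
    have h2 : σ (v - algebraMap ℂ F e) = τ v := by
      rw [hσe, he]
      ring
    have h3 := VTX.hom_aeval hστ m h2
    rw [hmdef, minpoly.aeval, map_zero] at h3
    exact (map_eq_zero σ).mp h3
  -- the set of the roots is stable under the translation by `-e`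
  have h2 : ∀ w : F, Polynomial.aeval w m = 0 →
      Polynomial.aeval (w - algebraMap ℂ F e) m = 0 := by
    have h3 : ∀ w : F, Polynomial.aeval w
        (m.comp (Polynomial.X - Polynomial.C (algebraMap ℂ ℂ⟮x⟯ e))) =
        Polynomial.aeval (w - algebraMap ℂ F e) m := by
      intro w
      rw [Polynomial.aeval_comp]
      congr 1
      simp only [map_sub, Polynomial.aeval_X, Polynomial.aeval_C]
      rfl
    have h4 : m ∣ m.comp (Polynomial.X - Polynomial.C (algebraMap ℂ ℂ⟮x⟯ e)) := by
      refine minpoly.dvd ℂ⟮x⟯ v ?_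
      rw [h3 v]
      exact h1
    obtain ⟨q, hq⟩ := h4
    intro w hw
    rw [← h3 w, hq, map_mul, hw, zero_mul]
  have h3 : ∀ n : ℕ, Polynomial.aeval (v - n * algebraMap ℂ F e) m = 0 := by
    intro n
    induction n with
    | zero =>
      have h4 : v - ((0 : ℕ) : F) * algebraMap ℂ F e = v := by simp
      rw [h4]
      exact minpoly.aeval ℂ⟮x⟯ v
    | succ n ih =>
      have h4 := h2 _ ih
      have h5 : v - (n : F) * algebraMap ℂ F e - algebraMap ℂ F e =
          v - ((n + 1 : ℕ) : F) * algebraMap ℂ F e := by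
        push_cast
        ring
      rw [h5] at h4
      exact h4
  -- so `e = 0`
  have he0 : e = 0 := by
    by_contra hne0
    have hinj : Function.Injective (fun n : ℕ => v - (n : F) * algebraMap ℂ F e) := by
      intro a b hab
      have h4 : (a : F) * algebraMap ℂ F e = (b : F) * algebraMap ℂ F e := by
        have h5 : v - (a : F) * algebraMap ℂ F e = v - (b : F) * algebraMap ℂ F e := hab
        exact sub_right_injective h5
      have h6 : algebraMap ℂ F e ≠ 0 := by
        intro h7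
        exact hne0 ((map_eq_zero (algebraMap ℂ F)).mp h7)
      exact Nat.cast_injective (mul_right_cancel₀ h6 h4)
    have h7 : (m.rootSet F).Infinite := by
      refine Set.infinite_of_injective_forall_mem hinj fun n => ?_
      rw [Polynomial.mem_rootSet]
      exact ⟨hm0, h3 n⟩
    exact h7 (m.rootSet_finite F)
  have hv : σ v = τ v := by
    rw [he0, map_zero] at he
    exact (sub_eq_zero.mp he.symm)
  -- so the homomorphisms agree
  apply hne
  have h4 : IntermediateField.adjoin ℂ {x, v} ≤ VTX.eqf σ τ := by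
    rw [IntermediateField.adjoin_le_iff]
    intro y hy
    rcases hy with hy | hy
    · rw [hy]
      exact hστ
    · rw [Set.mem_singleton_iff] at hy
      rw [hy]
      exact hv
  rw [hgen] at h4
  refine AlgHom.ext fun y => ?_
  exact VTX.mem_eqf.mp (h4 IntermediateField.mem_top)

end Pool.Agent.Y169.GP
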