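import Pool.Agent.Y169.GP.Conv
import Pool.Agent.Y169.GP.CF
import Pool.Agent.Y169.GP.C1
import Pool.Agent.Y169.GP.C2
import Pool.Agent.Y169.GP.UP
import Pool.Agent.Y169.GP.C3
import Pool.Agent.Y169.GP.FD
import Pool.Agent.Y169.GP.MD
import Pool.Agent.Y169.GP.TI
import Pool.Agent.Y169.GP.TC
import Pool.Agent.Y169.GP.S1
import Pool.Agent.Y169.GP.DF
import Pool.Agent.Y169.GP.DL
import Pool.Agent.Y169.GP.DC
import Pool.Agent.Y169.GP.IN
import Pool.Agent.Y169.GP.RT
import Pool.Agent.Y169.GP.IB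
import Pool.Agent.Y169.GP.BR
import Pool.Agent.Y169.GP.VT
import Pool.Agent.Y169.GP.TW
import Pool.Agent.Y169.GP.NU

/-!
# All parts together
-/

set_option autoImplicit false

namespace Pool.Agent.Y169.GP

theorem br_all : S_BR := br c2 df dl dc inn rt ib

theorem tw_all : S_TW := tw_main c1 c2 (tc c2) (s1 c1 c2) vt

theorem final : Final :=
  fin_main cf c1 c2 up c3 fd md (ti fd) (tc c2) br_all tw_all nu

theorem easy_all : Easy := easy cf up

end Pool.Agent.Y169.GP
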