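import Pool.Agent.Y169.GP.Fin

/-!
# The easy cases
-/

set_option autoImplicit false

namespace Pool.Agent.Y169.GP

open scoped TensorProduct IntermediateField

/-- the converse in the easy cases -/
def Easy : Prop := ∀ (n : ℕ) (F : Fin n → Type) [∀ i, Field (F i)] [∀ i, Algebra ℂ (F i)]
  (K : Type) [Field K] [Algebra ℂ K] [Algebra (⨂[ℂ] i, F i) K] [IsScalarTower ℂ (⨂[ℂ] i, F i) K]
  [IsFractionRing (⨂[ℂ] i, F i) K], (∀ i, IsCurveField (F i)) →
  (n = 1 ∨ ∀ i, gonality (F i) = 1) →
  ∀ φ : SpaceField n →ₐ[ℂ] K, mapDegree φ = ∏ i, gonality (F i) →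
    ∃ ψ : SpaceField n →ₐ[ℂ] K, IsProductMap F K ψ ∧ BirationallyEquivalent φ ψ

theorem easy (hCF : S_CF) (hUP : S_UP) : Easy := by
  intro n F _ _ K _ _ _ _ _ hF h φ hφ
  have hPF : PF F K (proj F K) := hUP n F K
  rcases h with h | h
  · subst h
    refine ⟨φ, ?_, AlgEquiv.refl, AlgEquiv.refl, fun x => rfl⟩
    have hsurj : ∀ y : K, ∃ a, proj F K 0 a = y := by
      intro y
      have h1 : IntermediateField.adjoin ℂ (⋃ i, Set.range (proj F K i)) ≤
          (proj F K 0).fieldRange := by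
        rw [IntermediateField.adjoin_le_iff]
        intro z hz
        obtain ⟨i, a, rfl⟩ := Set.mem_iUnion.1 hz
        have hi : i = 0 := Subsingleton.elim _ _
        subst hi
        exact ⟨a, rfl⟩
      rw [hPF.gen] at h1
      exact h1 (IntermediateField.mem_top (x := y))
    choose f hf using hsurj
    refine ⟨fun i => (Subsingleton.elim 0 i : (0 : Fin 1) = i) ▸ f (φ (coord 0)), ?_⟩
    intro i
    have hi : i = 0 := Subsingleton.elim _ _
    subst hi
    exact (hf _).symm
  · have hch : ∀ i, ∃ x : F i, Transcendental ℂ x ∧ ℂ⟮x⟯ = ⊤ := by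
      intro i
      obtain ⟨htr, ⟨x, hx, hdx⟩, -, -⟩ := hCF (F i) (hF i)
      refine ⟨x, (htr x hx).1, ?_⟩
      rw [h i] at hdx
      exact IntermediateField.finrank_eq_one_iff_eq_top.1 hdx
    choose x hx hx1 using hch
    obtain ⟨ψ, hψ⟩ := exists_map (hPF.ind x hx)
    have hψtop : ψ.fieldRange = ⊤ := by
      rw [eq_top_iff, ← hPF.gen, IntermediateField.adjoin_le_iff]
      intro z hz
      obtain ⟨i, a, rfl⟩ := Set.mem_iUnion.1 hz
      have h2 : (⊤ : IntermediateField ℂ (F i)).map (proj F K i) ≤ ψ.fieldRange := by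
        rw [← hx1 i, IntermediateField.adjoin_map, IntermediateField.adjoin_le_iff]
        rintro _ ⟨y, hy, rfl⟩
        rw [Set.mem_singleton_iff] at hy
        subst hy
        exact ⟨coord i, hψ i⟩
      exact h2 ⟨a, IntermediateField.mem_top, rfl⟩
    have hφtop : φ.fieldRange = ⊤ := by
      have h3 : Module.finrank φ.fieldRange K = 1 := by
        have : mapDegree φ = 1 := by rw [hφ]; simp [h]
        exact this
      exact IntermediateField.finrank_eq_one_iff_eq_top.1 h3
    have hbij : ∀ χ : SpaceField n →ₐ[ℂ] K, χ.fieldRange = ⊤ → Function.Bijective χ := by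
      intro χ hχ
      refine ⟨χ.toRingHom.injective, fun y => ?_⟩
      have : y ∈ χ.fieldRange := by rw [hχ]; exact IntermediateField.mem_top
      exact this
    let eφ := AlgEquiv.ofBijective φ (hbij φ hφtop)
    let eψ := AlgEquiv.ofBijective ψ (hbij ψ hψtop)
    refine ⟨ψ, ⟨x, hψ⟩, eψ.symm.trans eφ, AlgEquiv.refl, fun y => ?_⟩
    change φ y = eφ (eψ.symm (ψ y))
    have h5 : eψ.symm (ψ y) = y := eψ.symm_apply_apply y
    rw [h5]
    rfl

end Pool.Agent.Y169.GP
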