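import Mathlib

/-!
# Rational maps from a product of curves to projective space, in terms of function fields

Smooth projective curves over `ℂ` are encoded by their function fields, the function field of their
product is the field of fractions of the tensor product, and dominant rational maps `X ⇢ ℙⁿ` are the
embeddings `ℂ(ℙⁿ) → ℂ(X)` of function fields.
-/

set_option autoImplicit false

namespace Pool.Agent.Y169.GP

open scoped TensorProduct IntermediateField

/-- `F` is the function field of a curve over `ℂ`: finitely generated of transcendence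
degree one. -/
def IsCurveField (F : Type) [Field F] [Algebra ℂ F] : Prop :=
  (⊤ : IntermediateField ℂ F).FG ∧ Algebra.trdeg ℂ F = 1

/-- The degree `[F : ℂ(f)]` of the function `f` on the curve with function field `F`. -/
noncomputable def deg (F : Type) [Field F] [Algebra ℂ F] (f : F) : ℕ := Module.finrank ℂ⟮f⟯ F

/-- The gonality of the curve with function field `F`: the least degree `[F : ℂ(f)]` over all
non-constant `f`, that is, the least degree of a non-constant morphism to the projective line. -/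
noncomputable def gonality (F : Type) [Field F] [Algebra ℂ F] : ℕ :=
  sInf {d : ℕ | ∃ f : F, f ∉ Set.range (algebraMap ℂ F) ∧ d = deg F f}

/-- The function field `ℂ(t_1, …, t_n)` of projective `n`-space. -/
abbrev SpaceField (n : ℕ) : Type := FractionRing (MvPolynomial (Fin n) ℂ)

/-- The coordinate functions. -/
noncomputable def coord {n : ℕ} (i : Fin n) : SpaceField n :=
  algebraMap (MvPolynomial (Fin n) ℂ) (SpaceField n) (MvPolynomial.X i)

section

variable {n : ℕ} {K : Type} [Field K] [Algebra ℂ K]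

/-- The degree of the dominant rational map `X ⇢ ℙⁿ` given by `φ : ℂ(ℙⁿ) → ℂ(X) = K`. -/
noncomputable def mapDegree (φ : SpaceField n →ₐ[ℂ] K) : ℕ := Module.finrank φ.fieldRange K

/-- Birational equivalence of dominant rational maps `X ⇢ ℙⁿ`: they agree up to a birational
self-map of `X` and one of `ℙⁿ`. -/
def BirationallyEquivalent (φ ψ : SpaceField n →ₐ[ℂ] K) : Prop :=
  ∃ (α : K ≃ₐ[ℂ] K) (β : SpaceField n ≃ₐ[ℂ] SpaceField n), ∀ x, φ (β x) = α (ψ x)

end

section

variable {n : ℕ} (F : Fin n → Type) [∀ i, Field (F i)] [∀ i, Algebra ℂ (F i)] (K : Type) [Field K]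
  [Algebra ℂ K] [Algebra (⨂[ℂ] i, F i) K] [IsScalarTower ℂ (⨂[ℂ] i, F i) K]

/-- The inclusion of the function field of the `i`-th curve in that of the product, given by the
`i`-th projection. -/
noncomputable def proj (i : Fin n) : F i →ₐ[ℂ] K :=
  (IsScalarTower.toAlgHom ℂ (⨂[ℂ] i, F i) K).comp (PiTensorProduct.singleAlgHom i)

/-- `ψ` is a product map `f₁ × ⋯ × fₙ : C₁ × ⋯ × Cₙ ⇢ (ℙ¹)ⁿ`, where `F i` is the function field of
`C_i` and `K` is that of the product. -/
def IsProductMap (ψ : SpaceField n →ₐ[ℂ] K) : Prop :=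
  ∃ f : ∀ i, F i, ∀ i, ψ (coord i) = proj F K i (f i)

end

/-! ### auxiliary notions -/

/-- embeddings of `F` in `Λ` over `ℂ` with `x ↦ t` -/
def Emb (F : Type) [Field F] [Algebra ℂ F] (x : F) (Λ : Type) [Field Λ] [Algebra ℂ Λ] (t : Λ) :
    Set (F →ₐ[ℂ] Λ) := {σ | σ x = t}

/-- the properties of the function field of a product which are used -/
structure PF {n : ℕ} (F : Fin n → Type) [∀ i, Field (F i)] [∀ i, Algebra ℂ (F i)] (K : Type)
    [Field K] [Algebra ℂ K] (π : ∀ i, F i →ₐ[ℂ] K) : Prop where
  gen : IntermediateField.adjoin ℂ (⋃ i, Set.range (π i)) = ⊤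
  ind : ∀ x : ∀ i, F i, (∀ i, Transcendental ℂ (x i)) →
    AlgebraicIndependent ℂ (fun i => π i (x i))
  ext : ∀ x : ∀ i, F i, (∀ i, 0 < deg (F i) (x i)) → ∀ (Λ : Type) [Field Λ] [Algebra ℂ Λ]
    (σ : ∀ i, F i →ₐ[ℂ] Λ), AlgebraicIndependent ℂ (fun i => σ i (x i)) →
    ∃ ρ : K →ₐ[ℂ] Λ, ∀ i, ρ.comp (π i) = σ i

/-- the coordinates of the twisted map: `x i`, but `x j + v` at the place `j`, where `v` is a
function on the `i₀`-th curve -/
noncomputable def tw {n : ℕ} {F : Fin n → Type} [∀ i, Field (F i)] [∀ i, Algebra ℂ (F i)] {K : Type}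
    [Field K] [Algebra ℂ K] (π : ∀ i, F i →ₐ[ℂ] K) (x : ∀ i, F i) (i₀ j : Fin n) (v : F i₀)
    (i : Fin n) : K :=
  if i = j then π i (x i) + π i₀ v else π i (x i)

/-- Laurent series without negative exponents -/
def Nn {Ω : Type} [Field Ω] (f : LaurentSeries Ω) : Prop := ∀ n : ℤ, n < 0 → f.coeff n = 0

/-- the Laurent series `c + s` -/
noncomputable def cs {Ω : Type} [Field Ω] (c : Ω) : LaurentSeries Ω :=
  HahnSeries.C c + HahnSeries.single 1 1

end Pool.Agent.Y169.GP
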