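import Pool.Agent.Y169.GP.Stm

/-!
# Assembly
-/

set_option autoImplicit false

namespace Pool.Agent.Y169.GP

open scoped TensorProduct IntermediateField
open scoped IntermediateField.algebraAdjoinAdjoin

section

variable {n : ℕ} {K : Type} [Field K] [Algebra ℂ K]

lemma space_ext {f g : SpaceField n →ₐ[ℂ] K} (h : ∀ i, f (coord i) = g (coord i)) : f = g := by
  have h1 : (f : SpaceField n →+* K).comp (algebraMap (MvPolynomial (Fin n) ℂ) (SpaceField n)) =
      (g : SpaceField n →+* K).comp (algebraMap (MvPolynomial (Fin n) ℂ) (SpaceField n)) := by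
    apply MvPolynomial.ringHom_ext
    · intro r
      have : algebraMap (MvPolynomial (Fin n) ℂ) (SpaceField n) (MvPolynomial.C r) =
        algebraMap ℂ (SpaceField n) r := rfl
      simp only [RingHom.comp_apply, RingHom.coe_coe]
      rw [this, f.commutes, g.commutes]
    · intro i
      exact h i
  have h2 : (f : SpaceField n →+* K) = g :=
    IsLocalization.ringHom_ext (nonZeroDivisors (MvPolynomial (Fin n) ℂ)) h1
  exact AlgHom.ext fun x => DFunLike.congr_fun h2 x

lemma ind_of_map (f : SpaceField n →ₐ[ℂ] K) : AlgebraicIndependent ℂ (fun i => f (coord i)) := by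
  have h1 : AlgebraicIndependent ℂ (fun i : Fin n => (coord i : SpaceField n)) := by
    have h2 : AlgebraicIndependent ℂ (MvPolynomial.X : Fin n → MvPolynomial (Fin n) ℂ) :=
      MvPolynomial.algebraicIndependent_X _ _
    exact h2.map' (f := IsScalarTower.toAlgHom ℂ (MvPolynomial (Fin n) ℂ) (SpaceField n))
      (IsFractionRing.injective (MvPolynomial (Fin n) ℂ) (SpaceField n))
  exact h1.map' (f := f) f.toRingHom.injective

lemma exists_map {x : Fin n → K} (hx : AlgebraicIndependent ℂ x) :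
    ∃ φ : SpaceField n →ₐ[ℂ] K, ∀ i, φ (coord i) = x i := by
  have hx' : Function.Injective (MvPolynomial.aeval x : MvPolynomial (Fin n) ℂ →ₐ[ℂ] K) := hx
  refine ⟨IsFractionRing.liftAlgHom hx', fun i => ?_⟩
  rw [IsFractionRing.liftAlgHom_apply, coord, IsFractionRing.lift_algebraMap]
  simp

lemma fieldRange_equiv {φ ψ : SpaceField n →ₐ[ℂ] K} {α : K ≃ₐ[ℂ] K}
    {β : SpaceField n ≃ₐ[ℂ] SpaceField n} (h : ∀ x, φ (β x) = α (ψ x)) (y : K) :
    y ∈ ψ.fieldRange ↔ α y ∈ φ.fieldRange := by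
  constructor
  · rintro ⟨x, rfl⟩
    exact ⟨β x, h x⟩
  · rintro ⟨x, hx⟩
    refine ⟨β.symm x, ?_⟩
    apply α.injective
    have h1 := h (β.symm x)
    rw [AlgEquiv.apply_symm_apply] at h1
    exact h1.symm.trans hx

lemma mapDegree_eq {φ ψ : SpaceField n →ₐ[ℂ] K} (h : BirationallyEquivalent φ ψ) :
    mapDegree φ = mapDegree ψ := by
  obtain ⟨α, β, h⟩ := h
  symm
  let i : ψ.fieldRange ≃+* φ.fieldRange :=
    { toFun := fun x => ⟨α x, (fieldRange_equiv h x).1 x.2⟩
      invFun := fun x => ⟨α.symm x, (fieldRange_equiv h _).2 (by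
        rw [AlgEquiv.apply_symm_apply]; exact x.2)⟩
      left_inv := fun x => Subtype.ext (α.symm_apply_apply _)
      right_inv := fun x => Subtype.ext (α.apply_symm_apply _)
      map_mul' := fun x y => Subtype.ext (map_mul α _ _)
      map_add' := fun x y => Subtype.ext (map_add α _ _) }
  exact Algebra.finrank_eq_of_equiv_equiv i α.toRingEquiv (by ext x; rfl)

end

lemma tr_sub {n : ℕ} {F : Type} [Field F] [Algebra ℂ F] {x v : F} (hd : 0 < deg F x)
    {Λ : Type} [Field Λ] [Algebra ℂ Λ] {t : Fin n → Λ} (ht : AlgebraicIndependent ℂ t)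
    {i₀ j : Fin n} (hij : i₀ ≠ j) {σ : F →ₐ[ℂ] Λ} (hσ : σ ∈ Emb F x Λ (t i₀)) :
    Transcendental ℂ (t j - σ v) := by
  intro halg
  have h1 : Transcendental (Algebra.adjoin ℂ (t '' {i₀})) (t j) :=
    ht.transcendental_adjoin (by simpa using hij.symm)
  apply h1
  have hfin : FiniteDimensional ℂ⟮x⟯ F := Module.finite_of_finrank_pos hd
  have hv : IsAlgebraic ℂ⟮x⟯ v := Algebra.IsAlgebraic.isAlgebraic v
  have hv2 : IsAlgebraic (Algebra.adjoin ℂ {x}) v := by
    have : IsFractionRing (Algebra.adjoin ℂ {x}) ℂ⟮x⟯ := inferInstance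
    exact (IsFractionRing.isAlgebraic_iff (Algebra.adjoin ℂ {x}) ℂ⟮x⟯ F).2 hv
  have hσx : σ x = t i₀ := hσ
  -- map to Λ
  have hv3 : IsAlgebraic (Algebra.adjoin ℂ (t '' {i₀})) (σ v) := by
    obtain ⟨p, hp0, hp⟩ := hv2
    have hmap : ∀ a : Algebra.adjoin ℂ {x}, σ a ∈ Algebra.adjoin ℂ (t '' {i₀}) := by
      intro a
      have : σ a ∈ (Algebra.adjoin ℂ {x}).map σ := ⟨a, a.2, rfl⟩
      rwa [AlgHom.map_adjoin, Set.image_singleton, hσx, ← Set.image_singleton (f := t)] at this
    let g : Algebra.adjoin ℂ {x} →+* Algebra.adjoin ℂ (t '' {i₀}) :=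
      { toFun := fun a => ⟨σ a, hmap a⟩
        map_one' := Subtype.ext (map_one σ)
        map_mul' := fun a b => Subtype.ext (map_mul σ _ _)
        map_zero' := Subtype.ext (map_zero σ)
        map_add' := fun a b => Subtype.ext (map_add σ _ _) }
    have hg : Function.Injective g := by
      intro a b hab
      apply Subtype.ext
      apply σ.toRingHom.injective
      exact congrArg Subtype.val hab
    refine ⟨p.map g, ?_, ?_⟩
    · rwa [Ne, Polynomial.map_eq_zero_iff hg]
    · rw [Polynomial.aeval_def, Polynomial.eval₂_map]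
      have h5 : (algebraMap (Algebra.adjoin ℂ (t '' {i₀})) Λ).comp g =
          (σ : F →+* Λ).comp (algebraMap (Algebra.adjoin ℂ {x}) F) := by
        ext a; rfl
      rw [h5]
      have := congrArg σ hp
      rw [map_zero, Polynomial.aeval_def] at this
      rw [← this]
      exact (Polynomial.hom_eval₂ p (algebraMap (Algebra.adjoin ℂ {x}) F) (σ : F →+* Λ) v).symm
  have halg2 : IsAlgebraic (Algebra.adjoin ℂ (t '' {i₀})) (t j - σ v) :=
    halg.extendScalars (algebraMap ℂ (Algebra.adjoin ℂ (t '' {i₀}))).injective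
  have := halg2.add hv3
  simpa using this

/-- the full statement -/
def Final : Prop := ∀ (n : ℕ) (F : Fin n → Type) [∀ i, Field (F i)] [∀ i, Algebra ℂ (F i)]
  (K : Type) [Field K] [Algebra ℂ K] [Algebra (⨂[ℂ] i, F i) K] [IsScalarTower ℂ (⨂[ℂ] i, F i) K]
  [IsFractionRing (⨂[ℂ] i, F i) K], (∀ i, IsCurveField (F i)) →
  (∃ i j, i ≠ j ∧ 2 ≤ gonality (F i) ∧ 2 ≤ gonality (F j)) →
  ∃ φ : SpaceField n →ₐ[ℂ] K, mapDegree φ = ∏ i, gonality (F i) ∧
    ∀ ψ : SpaceField n →ₐ[ℂ] K, IsProductMap F K ψ → ¬ BirationallyEquivalent φ ψ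

theorem fin_main (hCF : S_CF) (hC1 : S_C1) (hC2 : S_C2) (hUP : S_UP) (hC3 : S_C3) (hFD : S_FD)
    (hMD : S_MD) (hTI : S_TI) (hTC : S_TC) (hBR : S_BR) (hTW : S_TW) (hNU : S_NU) : Final := by
  intro n F _ _ K _ _ _ _ _ hF ⟨p, q, hpq, hp, hq⟩
  obtain ⟨i₀, -, hmax⟩ := Finset.exists_max_image Finset.univ (fun i => gonality (F i))
    ⟨p, Finset.mem_univ _⟩
  have hmax' : ∀ i, gonality (F i) ≤ gonality (F i₀) := fun i => hmax i (Finset.mem_univ _)
  obtain ⟨j, hij, hj⟩ : ∃ j, i₀ ≠ j ∧ 2 ≤ gonality (F j) := by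
    by_cases h : i₀ = p
    · exact ⟨q, h ▸ hpq, hq⟩
    · exact ⟨p, h, hp⟩
  have hi₀ : 2 ≤ gonality (F i₀) := hj.trans (hmax' j)
  -- gonal functions
  have hch : ∀ i, ∃ x : F i, x ∉ Set.range (algebraMap ℂ (F i)) ∧ deg (F i) x = gonality (F i) ∧
      (i = j → ∃ c : ℂ, (Emb (F i) x (LaurentSeries (AlgebraicClosure K))
        (cs (algebraMap ℂ (AlgebraicClosure K) c))).ncard < deg (F i) x) := by
    intro i
    obtain ⟨-, ⟨z, hz, hdz⟩, -, hle⟩ := hCF (F i) (hF i)
    by_cases hi : i = j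
    · subst hi
      have htz := ((hCF (F i) (hF i)).1 z hz)
      rcases hBR (F i) z htz.1 (by rw [hdz]; exact hj) (AlgebraicClosure K) with ⟨c, hc⟩ | hc
      · exact ⟨z, hz, hdz, fun _ => ⟨c, hc⟩⟩
      · exact ⟨z⁻¹, (hle z hz).2.2, by rw [(hle z hz).2.1, hdz], fun _ => ⟨0, hc⟩⟩
    · exact ⟨z, hz, hdz, fun h => absurd h hi⟩
  choose x hx hdx hbr using hch
  obtain ⟨c, hc⟩ := hbr j rfl
  have htr : ∀ i, Transcendental ℂ (x i) := fun i => ((hCF (F i) (hF i)).1 (x i) (hx i)).1
  have hpos : ∀ i, 0 < deg (F i) (x i) := fun i => ((hCF (F i) (hF i)).1 (x i) (hx i)).2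
  -- primitive element
  obtain ⟨v, hv⟩ : ∃ v, IntermediateField.adjoin ℂ {x i₀, v} = ⊤ := by
    have hfin : FiniteDimensional ℂ⟮x i₀⟯ (F i₀) := Module.finite_of_finrank_pos (hpos i₀)
    obtain ⟨v, hv⟩ := Field.exists_primitive_element ℂ⟮x i₀⟯ (F i₀)
    refine ⟨v, ?_⟩
    have h1 := IntermediateField.adjoin_adjoin_left ℂ {x i₀} {v}
    rw [hv, IntermediateField.restrictScalars_top] at h1
    rw [Set.insert_eq, ← h1]
  have hPF : PF F K (proj F K) := hUP n F K
  have hTIx := hTI n F K _ hPF x htr hpos i₀ j v hij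
  obtain ⟨φ, hφ⟩ := exists_map hTIx
  have hmd : ∀ χ : SpaceField n →ₐ[ℂ] K,
      FiniteDimensional (IntermediateField.adjoin ℂ (Set.range fun i => χ (coord i))) K →
      {ρ : K →ₐ[ℂ] AlgebraicClosure K | ∀ i, ρ (χ (coord i)) =
        algebraMap K (AlgebraicClosure K) (χ (coord i))}.ncard = mapDegree χ := by
    intro χ hχ
    exact hMD n K χ hχ (AlgebraicClosure K) _ ((ind_of_map χ).map'
      (f := IsScalarTower.toAlgHom ℂ K (AlgebraicClosure K))
      (algebraMap K (AlgebraicClosure K)).injective)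
  have hprod : (deg (F i₀) (x i₀) * deg (F j) (x j)) *
      ∏ i ∈ Finset.univ \ {i₀, j}, deg (F i) (x i) = ∏ i, deg (F i) (x i) := by
    rw [← Finset.prod_sdiff (Finset.subset_univ ({i₀, j} : Finset (Fin n))),
      Finset.prod_pair hij, mul_comm]
  have hdeg : mapDegree φ = ∏ i, gonality (F i) := by
    have h1 : FiniteDimensional (IntermediateField.adjoin ℂ (Set.range fun i => φ (coord i))) K := by
      have h2 := (hFD n F K _ hPF x hpos).2 i₀ j v hij
      have h3 : (fun i => φ (coord i)) = tw (proj F K) x i₀ j v := funext hφ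
      rw [h3]; exact h2
    rw [← hmd φ h1]
    have ht : AlgebraicIndependent ℂ (fun i => algebraMap K (AlgebraicClosure K) (φ (coord i))) :=
      (ind_of_map φ).map' (f := IsScalarTower.toAlgHom ℂ K (AlgebraicClosure K))
        (algebraMap K (AlgebraicClosure K)).injective
    have h4 := hTC n F K _ hPF x htr hpos i₀ j v hij (AlgebraicClosure K) _ ht
    have h5 : {ρ : K →ₐ[ℂ] AlgebraicClosure K | ∀ i, ρ (φ (coord i)) =
        algebraMap K (AlgebraicClosure K) (φ (coord i))} =
        {ρ : K →ₐ[ℂ] AlgebraicClosure K | ∀ i, ρ (tw (proj F K) x i₀ j v i) =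
        algebraMap K (AlgebraicClosure K) (φ (coord i))} := by
      ext ρ
      simp only [Set.mem_setOf_eq, hφ]
    rw [h5, h4]
    have htt : ∀ i, Transcendental ℂ (algebraMap K (AlgebraicClosure K) (φ (coord i))) :=
      fun i => ht.transcendental i
    have hfin : (Emb (F i₀) (x i₀) (AlgebraicClosure K)
        (algebraMap K (AlgebraicClosure K) (φ (coord i₀)))).Finite :=
      (hC2 (F i₀) (x i₀) (htr i₀) (hpos i₀) _ _ (htt i₀)).1
    rw [finsum_mem_eq_finite_toFinset_sum _ hfin]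
    rw [Finset.sum_congr rfl (g := fun _ => deg (F j) (x j))]
    · rw [Finset.sum_const, ← Set.ncard_eq_toFinset_card _ hfin,
        hC1 (F i₀) (x i₀) (htr i₀) (hpos i₀) _ _ (htt i₀), smul_eq_mul]
      rw [Finset.prod_congr rfl (fun i _ => hC1 (F i) (x i) (htr i) (hpos i) _ _ (htt i)), hprod]
      exact Finset.prod_congr rfl fun i _ => hdx i
    · intro σ hσ
      rw [Set.Finite.mem_toFinset] at hσ
      exact hC1 (F j) (x j) (htr j) (hpos j) _ _ (tr_sub (hpos i₀) ht hij hσ)
  refine ⟨φ, hdeg, ?_⟩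
  rintro ψ ⟨f, hf⟩ hbir
  have hdψ := mapDegree_eq hbir
  obtain ⟨α, β, hαβ⟩ := hbir
  have hψi := ind_of_map ψ
  have hfr : ∀ i, f i ∉ Set.range (algebraMap ℂ (F i)) := by
    rintro i ⟨a, ha⟩
    apply hψi.transcendental i
    rw [hf i, ← ha, AlgHom.commutes]
    exact isAlgebraic_algebraMap a
  have hftr : ∀ i, Transcendental ℂ (f i) := fun i => ((hCF (F i) (hF i)).1 (f i) (hfr i)).1
  have hfpos : ∀ i, 0 < deg (F i) (f i) := fun i => ((hCF (F i) (hF i)).1 (f i) (hfr i)).2
  have hdψ2 : mapDegree ψ = ∏ i, deg (F i) (f i) := by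
    have h1 : FiniteDimensional (IntermediateField.adjoin ℂ (Set.range fun i => ψ (coord i))) K := by
      have h2 := (hFD n F K _ hPF f hfpos).1
      have h3 : (fun i => ψ (coord i)) = fun i => proj F K i (f i) := funext hf
      rw [h3]; exact h2
    rw [← hmd ψ h1]
    have ht : AlgebraicIndependent ℂ (fun i => algebraMap K (AlgebraicClosure K) (ψ (coord i))) :=
      hψi.map' (f := IsScalarTower.toAlgHom ℂ K (AlgebraicClosure K))
        (algebraMap K (AlgebraicClosure K)).injective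
    have h4 := hC3 n F K _ hPF f hfpos (AlgebraicClosure K) _ ht
    have h5 : {ρ : K →ₐ[ℂ] AlgebraicClosure K | ∀ i, ρ (ψ (coord i)) =
        algebraMap K (AlgebraicClosure K) (ψ (coord i))} =
        {ρ : K →ₐ[ℂ] AlgebraicClosure K | ∀ i, ρ (proj F K i (f i)) =
        algebraMap K (AlgebraicClosure K) (ψ (coord i))} := by
      ext ρ
      simp only [Set.mem_setOf_eq, hf]
    rw [h5, h4]
    exact Finset.prod_congr rfl fun i _ => hC1 (F i) (f i) (hftr i) (hfpos i) _ _ (ht.transcendental i)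
  have hgle : ∀ i, gonality (F i) ≤ deg (F i) (f i) :=
    fun i => ((hCF (F i) (hF i)).2.2.2 (f i) (hfr i)).1
  have hgpos : ∀ i, 0 < gonality (F i) := fun i => (hCF (F i) (hF i)).2.2.1
  have hgeq : ∀ i, deg (F i) (f i) = gonality (F i) := by
    intro i
    by_contra hne
    have hlt : gonality (F i) < deg (F i) (f i) := lt_of_le_of_ne (hgle i) (Ne.symm hne)
    have h7 : ∏ i, gonality (F i) < ∏ i, deg (F i) (f i) :=
      Finset.prod_lt_prod (fun k _ => hgpos k) (fun k _ => hgle k) ⟨i, Finset.mem_univ _, hlt⟩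
    rw [← hdeg, ← hdψ2, hdψ] at h7
    exact lt_irrefl _ h7
  obtain ⟨t, ht, hlow, hup⟩ := hTW n F K _ hPF x htr hpos i₀ j v hij hv c hc
  obtain ⟨ι, hι⟩ := exists_map ht
  let t' : Fin n → LaurentSeries (AlgebraicClosure K) := fun i => ι (β (coord i))
  have ht' : AlgebraicIndependent ℂ t' := ind_of_map (ι.comp (β : SpaceField n →ₐ[ℂ] SpaceField n))
  have hN : {ρ : K →ₐ[ℂ] LaurentSeries (AlgebraicClosure K) |
      ∀ i, ρ (tw (proj F K) x i₀ j v i) = t i}.ncard =
      {ρ : K →ₐ[ℂ] LaurentSeries (AlgebraicClosure K) | ∀ i, ρ (proj F K i (f i)) = t' i}.ncard := by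
    have hkey : ∀ ρ : K →ₐ[ℂ] LaurentSeries (AlgebraicClosure K),
        (∀ i, ρ (tw (proj F K) x i₀ j v i) = t i) ↔
        ∀ i, (ρ.comp (α : K →ₐ[ℂ] K)) (proj F K i (f i)) = t' i := by
      intro ρ
      have e1 : (∀ i, ρ (tw (proj F K) x i₀ j v i) = t i) ↔ ρ.comp φ = ι := by
        constructor
        · intro h
          apply space_ext
          intro i
          rw [AlgHom.comp_apply, hφ, h, hι]
        · intro h i
          rw [← hφ, ← AlgHom.comp_apply, h, hι]
      have e2 : (∀ i, (ρ.comp (α : K →ₐ[ℂ] K)) (proj F K i (f i)) = t' i) ↔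
          (ρ.comp φ).comp (β : SpaceField n →ₐ[ℂ] SpaceField n) =
            ι.comp (β : SpaceField n →ₐ[ℂ] SpaceField n) := by
        constructor
        · intro h
          apply space_ext
          intro i
          have := h i
          rw [← hf i] at this
          change ρ (φ (β (coord i))) = ι (β (coord i))
          rw [hαβ]
          exact this
        · intro h i
          have : ρ (φ (β (coord i))) = ι (β (coord i)) := DFunLike.congr_fun h (coord i)
          rw [← hf i]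
          change ρ (α (ψ (coord i))) = ι (β (coord i))
          rw [← hαβ]
          exact this
      rw [e1, e2]
      constructor
      · intro h; rw [h]
      · intro h
        apply AlgHom.ext
        intro y
        have : ρ (φ (β (β.symm y))) = ι (β (β.symm y)) := DFunLike.congr_fun h (β.symm y)
        rw [AlgEquiv.apply_symm_apply] at this
        exact this
    refine Set.ncard_congr (fun ρ _ => ρ.comp (α : K →ₐ[ℂ] K)) (fun ρ hρ => (hkey ρ).1 hρ) ?_ ?_
    · intro ρ ρ' _ _ h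
      apply AlgHom.ext
      intro y
      have : ρ (α (α.symm y)) = ρ' (α (α.symm y)) := DFunLike.congr_fun h (α.symm y)
      rw [AlgEquiv.apply_symm_apply] at this
      exact this
    · intro ρ hρ
      refine ⟨ρ.comp (α.symm : K →ₐ[ℂ] K), (hkey _).2 ?_, ?_⟩
      · intro i
        have : ρ (proj F K i (f i)) = t' i := hρ i
        change ρ (α.symm (α (proj F K i (f i)))) = t' i
        rw [AlgEquiv.symm_apply_apply]
        exact this
      · apply AlgHom.ext
        intro y
        change ρ (α.symm (α y)) = ρ y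
        rw [AlgEquiv.symm_apply_apply]
  rw [hN, hC3 n F K _ hPF f hfpos _ t' ht'] at hlow hup
  refine hNU n (fun i => gonality (F i)) (fun i => (Emb (F i) (f i) _ (t' i)).ncard) i₀ hgpos hmax'
    hi₀ ?_ ?_ ?_
  · intro i
    have h8 := hC2 (F i) (f i) (hftr i) (hfpos i) (LaurentSeries (AlgebraicClosure K)) (t' i)
      (ht'.transcendental i)
    rw [hgeq i] at h8
    exact ⟨h8.2.1, h8.2.2⟩
  · simp only [hdx] at hlow
    exact hlow
  · simp only [hdx] at hup
    exact hup

end Pool.Agent.Y169.GP
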