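import Pool.Agent.Y169.GP.Stm

/-!
# GP-IB: functions integral over `ℂ[z]` have no poles at the finite places
-/

set_option autoImplicit false

namespace Pool.Agent.Y169.GP

open scoped TensorProduct IntermediateField

namespace IBX

/-- the power series, as a subring of the Laurent series -/
noncomputable abbrev ps (Ω : Type) [Field Ω] : PowerSeries Ω →+* LaurentSeries Ω :=
  algebraMap (PowerSeries Ω) (LaurentSeries Ω)

lemma cs_range {Ω : Type} [Field Ω] (c : Ω) : cs c ∈ (ps Ω).range := by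
  refine ⟨PowerSeries.C c + PowerSeries.X, ?_⟩
  rw [LaurentSeries.coe_algebraMap, map_add, HahnSeries.ofPowerSeries_C,
    HahnSeries.ofPowerSeries_X]
  rfl

lemma algebraMap_range {Ω : Type} [Field Ω] [Algebra ℂ Ω] (r : ℂ) :
    algebraMap ℂ (LaurentSeries Ω) r ∈ (ps Ω).range := by
  refine ⟨algebraMap ℂ (PowerSeries Ω) r, ?_⟩
  rw [LaurentSeries.coe_algebraMap, HahnSeries.algebraMap_apply']

lemma nn_of_integral {Ω : Type} [Field Ω] {f : LaurentSeries Ω}
    (hf : IsIntegral (PowerSeries Ω) f) : Nn f := by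
  obtain ⟨g, rfl⟩ := IsIntegrallyClosed.isIntegral_iff.1 hf
  intro n hn
  rw [LaurentSeries.coe_algebraMap, PowerSeries.coeff_coe, if_pos hn]

lemma image_range {F : Type} [Field F] [Algebra ℂ F] {z : F} {Ω : Type} [Field Ω] [Algebra ℂ Ω]
    (σ : F →ₐ[ℂ] LaurentSeries Ω) (hσ : σ z ∈ (ps Ω).range) {a : F}
    (ha : a ∈ Algebra.adjoin ℂ {z}) : σ a ∈ (ps Ω).range := by
  induction ha using Algebra.adjoin_induction with
  | mem x hx =>
    rw [Set.mem_singleton_iff] at hx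
    rwa [hx]
  | algebraMap r =>
    rw [AlgHom.commutes]
    exact algebraMap_range r
  | add x y _ _ hx hy =>
    rw [map_add]
    exact add_mem hx hy
  | mul x y _ _ hx hy =>
    rw [map_mul]
    exact mul_mem hx hy

lemma integral_image {F : Type} [Field F] [Algebra ℂ F] {z : F} {Ω : Type} [Field Ω]
    [Algebra ℂ Ω] (σ : F →ₐ[ℂ] LaurentSeries Ω) (hσ : σ z ∈ (ps Ω).range) {y : F}
    (hy : IsIntegral (Algebra.adjoin ℂ {z}) y) : IsIntegral (PowerSeries Ω) (σ y) := by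
  obtain ⟨p, hp, hp0⟩ := hy
  set φ : Algebra.adjoin ℂ {z} →+* LaurentSeries Ω :=
    (σ : F →+* LaurentSeries Ω).comp (algebraMap (Algebra.adjoin ℂ {z}) F) with hφ
  have hl : p.map φ ∈ Polynomial.lifts (ps Ω) := by
    rw [Polynomial.lifts_iff_coeff_lifts]
    intro n
    rw [Polynomial.coeff_map]
    obtain ⟨g, hg⟩ := image_range σ hσ (p.coeff n).2
    exact ⟨g, hg⟩
  obtain ⟨q, hq1, -, hq2⟩ := Polynomial.lifts_and_natDegree_eq_and_monic hl (hp.map φ)
  refine ⟨q, hq2, ?_⟩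
  have h1 : Polynomial.eval₂ (algebraMap (PowerSeries Ω) (LaurentSeries Ω)) (σ y) q =
      Polynomial.eval (σ y) (q.map (ps Ω)) := (Polynomial.eval_map _ _).symm
  rw [h1, hq1, Polynomial.eval_map]
  have h2 := Polynomial.hom_eval₂ p (algebraMap (Algebra.adjoin ℂ {z}) F)
    (σ : F →+* LaurentSeries Ω) y
  rw [hp0, map_zero] at h2
  exact h2.symm

open scoped IntermediateField.algebraAdjoinAdjoin in
lemma exists_den {F : Type} [Field F] [Algebra ℂ F] {z : F} (hz : 0 < deg F z) (h : F) :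
    ∃ q ∈ Algebra.adjoin ℂ {z}, q ≠ 0 ∧ IsIntegral (Algebra.adjoin ℂ {z}) (q * h) := by
  haveI : FiniteDimensional ℂ⟮z⟯ F := Module.finite_of_finrank_pos hz
  have h1 : IsAlgebraic ℂ⟮z⟯ h := Algebra.IsAlgebraic.isAlgebraic h
  have h2 : IsAlgebraic (Algebra.adjoin ℂ {z}) h :=
    (IsFractionRing.isAlgebraic_iff (Algebra.adjoin ℂ {z}) ℂ⟮z⟯ F).2 h1
  obtain ⟨q, hq0, hq⟩ := h2.exists_integral_multiple
  refine ⟨q, q.2, fun h0 => hq0 (Subtype.ext h0), ?_⟩
  rwa [Algebra.smul_def] at hq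

end IBX

theorem ib : S_IB := by
  intro F _ _ z _ hd h
  obtain ⟨q, hq, hq0, hi⟩ := IBX.exists_den hd h
  refine ⟨q, hq, hq0, ?_⟩
  intro Ω _ _ c σ hσ
  have hσ' : σ z = cs (algebraMap ℂ Ω c) := hσ
  refine IBX.nn_of_integral (IBX.integral_image (z := z) σ ?_ hi)
  rw [hσ']
  exact IBX.cs_range _

end Pool.Agent.Y169.GP
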