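import Pool.Agent.Y169.GP.Defs

/-!
# Statements of the parts
-/

set_option autoImplicit false

namespace Pool.Agent.Y169.GP

open scoped TensorProduct IntermediateField

/-- GP-CF: nonconstant functions on curves -/
def S_CF : Prop := ∀ (F : Type) [Field F] [Algebra ℂ F], IsCurveField F →
  (∀ x : F, x ∉ Set.range (algebraMap ℂ F) → Transcendental ℂ x ∧ 0 < deg F x) ∧
  (∃ x : F, x ∉ Set.range (algebraMap ℂ F) ∧ deg F x = gonality F) ∧ 0 < gonality F ∧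
  (∀ x : F, x ∉ Set.range (algebraMap ℂ F) → gonality F ≤ deg F x ∧ deg F x⁻¹ = deg F x ∧
    x⁻¹ ∉ Set.range (algebraMap ℂ F))

/-- GP-C1: embeddings in an algebraically closed field -/
def S_C1 : Prop := ∀ (F : Type) [Field F] [Algebra ℂ F] (x : F), Transcendental ℂ x →
  0 < deg F x → ∀ (Λ : Type) [Field Λ] [Algebra ℂ Λ] [IsAlgClosed Λ] (t : Λ),
  Transcendental ℂ t → (Emb F x Λ t).ncard = deg F x

/-- GP-C2: embeddings in an arbitrary field: never exactly one is missing -/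
def S_C2 : Prop := ∀ (F : Type) [Field F] [Algebra ℂ F] (x : F), Transcendental ℂ x →
  0 < deg F x → ∀ (Λ : Type) [Field Λ] [Algebra ℂ Λ] (t : Λ), Transcendental ℂ t →
  (Emb F x Λ t).Finite ∧ (Emb F x Λ t).ncard ≤ deg F x ∧ (Emb F x Λ t).ncard + 1 ≠ deg F x

/-- GP-UP: the field of fractions of the tensor product -/
def S_UP : Prop := ∀ (n : ℕ) (F : Fin n → Type) [∀ i, Field (F i)] [∀ i, Algebra ℂ (F i)]
  (K : Type) [Field K] [Algebra ℂ K] [Algebra (⨂[ℂ] i, F i) K] [IsScalarTower ℂ (⨂[ℂ] i, F i) K]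
  [IsFractionRing (⨂[ℂ] i, F i) K], PF F K (proj F K)

/-- GP-C3: embeddings of the function field of a product -/
def S_C3 : Prop := ∀ (n : ℕ) (F : Fin n → Type) [∀ i, Field (F i)] [∀ i, Algebra ℂ (F i)]
  (K : Type) [Field K] [Algebra ℂ K] (π : ∀ i, F i →ₐ[ℂ] K), PF F K π →
  ∀ x : ∀ i, F i, (∀ i, 0 < deg (F i) (x i)) → ∀ (Λ : Type) [Field Λ] [Algebra ℂ Λ]
  (t : Fin n → Λ), AlgebraicIndependent ℂ t →
  {ρ : K →ₐ[ℂ] Λ | ∀ i, ρ (π i (x i)) = t i}.ncard = ∏ i, (Emb (F i) (x i) Λ (t i)).ncard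

/-- GP-FD: finiteness -/
def S_FD : Prop := ∀ (n : ℕ) (F : Fin n → Type) [∀ i, Field (F i)] [∀ i, Algebra ℂ (F i)]
  (K : Type) [Field K] [Algebra ℂ K] (π : ∀ i, F i →ₐ[ℂ] K), PF F K π →
  ∀ x : ∀ i, F i, (∀ i, 0 < deg (F i) (x i)) →
  FiniteDimensional (IntermediateField.adjoin ℂ (Set.range fun i => π i (x i))) K ∧
  ∀ (i₀ j : Fin n) (v : F i₀), i₀ ≠ j →
    FiniteDimensional (IntermediateField.adjoin ℂ (Set.range (tw π x i₀ j v))) K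

/-- GP-MD: the degree of a rational map as a number of embeddings -/
def S_MD : Prop := ∀ (n : ℕ) (K : Type) [Field K] [Algebra ℂ K] (φ : SpaceField n →ₐ[ℂ] K),
  FiniteDimensional (IntermediateField.adjoin ℂ (Set.range fun i => φ (coord i))) K →
  ∀ (Λ : Type) [Field Λ] [Algebra ℂ Λ] [IsAlgClosed Λ] (t : Fin n → Λ), AlgebraicIndependent ℂ t →
  {ρ : K →ₐ[ℂ] Λ | ∀ i, ρ (φ (coord i)) = t i}.ncard = mapDegree φ

/-- GP-TI: the twisted coordinates are independent, and remain so under embeddings -/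
def S_TI : Prop := ∀ (n : ℕ) (F : Fin n → Type) [∀ i, Field (F i)] [∀ i, Algebra ℂ (F i)]
  (K : Type) [Field K] [Algebra ℂ K] (π : ∀ i, F i →ₐ[ℂ] K), PF F K π →
  ∀ x : ∀ i, F i, (∀ i, Transcendental ℂ (x i)) → (∀ i, 0 < deg (F i) (x i)) →
  ∀ (i₀ j : Fin n) (v : F i₀), i₀ ≠ j → AlgebraicIndependent ℂ (tw π x i₀ j v)

/-- GP-TC: embeddings with given values of the twisted coordinates -/
def S_TC : Prop := ∀ (n : ℕ) (F : Fin n → Type) [∀ i, Field (F i)] [∀ i, Algebra ℂ (F i)]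
  (K : Type) [Field K] [Algebra ℂ K] (π : ∀ i, F i →ₐ[ℂ] K), PF F K π →
  ∀ x : ∀ i, F i, (∀ i, Transcendental ℂ (x i)) → (∀ i, 0 < deg (F i) (x i)) →
  ∀ (i₀ j : Fin n) (v : F i₀), i₀ ≠ j →
  ∀ (Λ : Type) [Field Λ] [Algebra ℂ Λ] (t : Fin n → Λ), AlgebraicIndependent ℂ t →
  {ρ : K →ₐ[ℂ] Λ | ∀ i, ρ (tw π x i₀ j v i) = t i}.ncard =
    (∑ᶠ σ ∈ Emb (F i₀) (x i₀) Λ (t i₀), (Emb (F j) (x j) Λ (t j - σ v)).ncard) *
      ∏ i ∈ Finset.univ \ {i₀, j}, (Emb (F i) (x i) Λ (t i)).ncard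

/-- GP-S1: complete splitting near a transcendental point -/
def S_S1 : Prop := ∀ (F : Type) [Field F] [Algebra ℂ F] (x : F), Transcendental ℂ x →
  0 < deg F x → ∀ (Ω : Type) [Field Ω] [Algebra ℂ Ω] [IsAlgClosed Ω] (t : Ω),
  Transcendental ℂ t → (Emb F x (LaurentSeries Ω) (cs t)).ncard = deg F x

/-- GP-DF: the derivation `d/dz` of a function field -/
def S_DF : Prop := ∀ (F : Type) [Field F] [Algebra ℂ F] (z : F), Transcendental ℂ z →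
  0 < deg F z → ∃ D : Derivation ℂ F F, D z = 1 ∧ ∀ g, D g = 0 → g ∈ Set.range (algebraMap ℂ F)

/-- GP-DL: the derivation `d/ds` of the field of Laurent series -/
def S_DL : Prop := ∀ (Ω : Type) [Field Ω] [Algebra ℂ Ω],
  ∃ D : Derivation ℂ (LaurentSeries Ω) (LaurentSeries Ω), ∀ (f : LaurentSeries Ω) (n : ℤ),
    (D f).coeff n = ((n + 1 : ℤ) : Ω) * f.coeff (n + 1)

/-- GP-DC: compatibility of derivations -/
def S_DC : Prop := ∀ (F : Type) [Field F] [Algebra ℂ F] (z : F), Transcendental ℂ z →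
  0 < deg F z → ∀ D : Derivation ℂ F F, D z = 1 → ∀ (Λ : Type) [Field Λ] [Algebra ℂ Λ]
  (E : Derivation ℂ Λ Λ) (σ : F →ₐ[ℂ] Λ) (g : F), E (σ g) = E (σ z) * σ (D g)

/-- GP-IN: coefficients of the minimal polynomial in the completely split case -/
def S_IN : Prop := ∀ (F : Type) [Field F] [Algebra ℂ F] (z y : F), Transcendental ℂ z →
  0 < deg F z → Transcendental ℂ y → ℂ⟮z⟯ = ℂ⟮y⟯ → ∀ (Ω : Type) [Field Ω] [Algebra ℂ Ω]
  (t : LaurentSeries Ω), Transcendental ℂ t →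
  (Emb F y (LaurentSeries Ω) t).ncard = deg F y → ∀ h : F,
  (∀ σ ∈ Emb F y (LaurentSeries Ω) t, Nn (σ h)) →
  ∀ (i : ℕ), ∀ σ ∈ Emb F y (LaurentSeries Ω) t, Nn (σ (((minpoly ℂ⟮z⟯ h).coeff i : ℂ⟮z⟯) : F))

/-- GP-RT: rational functions without poles -/
def S_RT : Prop := ∀ (F : Type) [Field F] [Algebra ℂ F] (z : F), Transcendental ℂ z →
  ∀ (Ω : Type) [Field Ω] [Algebra ℂ Ω] (q : F), q ∈ ℂ⟮z⟯ →
  (∀ c : ℂ, ∃ σ ∈ Emb F z (LaurentSeries Ω) (cs (algebraMap ℂ Ω c)), Nn (σ q)) →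
  q ∈ Algebra.adjoin ℂ {z} ∧
  ((∃ σ ∈ Emb F z⁻¹ (LaurentSeries Ω) (cs 0), Nn (σ q)) → q ∈ Set.range (algebraMap ℂ F))

/-- GP-IB: integral functions have no poles -/
def S_IB : Prop := ∀ (F : Type) [Field F] [Algebra ℂ F] (z : F), Transcendental ℂ z →
  0 < deg F z → ∀ h : F, ∃ q ∈ Algebra.adjoin ℂ {z}, q ≠ 0 ∧
  ∀ (Ω : Type) [Field Ω] [Algebra ℂ Ω] (c : ℂ),
    ∀ σ ∈ Emb F z (LaurentSeries Ω) (cs (algebraMap ℂ Ω c)), Nn (σ (q * h))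

/-- GP-BR: existence of a branch point -/
def S_BR : Prop := ∀ (F : Type) [Field F] [Algebra ℂ F] (z : F), Transcendental ℂ z →
  2 ≤ deg F z → ∀ (Ω : Type) [Field Ω] [Algebra ℂ Ω],
  (∃ c : ℂ, (Emb F z (LaurentSeries Ω) (cs (algebraMap ℂ Ω c))).ncard < deg F z) ∨
  (Emb F z⁻¹ (LaurentSeries Ω) (cs (algebraMap ℂ Ω 0))).ncard < deg F z⁻¹

/-- GP-VT: differences of conjugates are transcendental -/
def S_VT : Prop := ∀ (F : Type) [Field F] [Algebra ℂ F] (x v : F), Transcendental ℂ x →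
  0 < deg F x → IntermediateField.adjoin ℂ {x, v} = ⊤ → ∀ (Ω : Type) [Field Ω] [Algebra ℂ Ω]
  (t : Ω), Transcendental ℂ t → ∀ σ ∈ Emb F x Ω t, ∀ τ ∈ Emb F x Ω t, σ ≠ τ →
  Transcendental ℂ (σ v - τ v)

/-- GP-TW: the special embedding -/
def S_TW : Prop := ∀ (n : ℕ) (F : Fin n → Type) [∀ i, Field (F i)] [∀ i, Algebra ℂ (F i)]
  (K : Type) [Field K] [Algebra ℂ K] (π : ∀ i, F i →ₐ[ℂ] K), PF F K π →
  ∀ x : ∀ i, F i, (∀ i, Transcendental ℂ (x i)) → (∀ i, 0 < deg (F i) (x i)) →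
  ∀ (i₀ j : Fin n) (v : F i₀), i₀ ≠ j → IntermediateField.adjoin ℂ {x i₀, v} = ⊤ →
  ∀ c : ℂ, (Emb (F j) (x j) (LaurentSeries (AlgebraicClosure K))
    (cs (algebraMap ℂ (AlgebraicClosure K) c))).ncard < deg (F j) (x j) →
  ∃ t : Fin n → LaurentSeries (AlgebraicClosure K), AlgebraicIndependent ℂ t ∧
    (deg (F i₀) (x i₀) - 1) * ∏ i ∈ Finset.univ \ {i₀}, deg (F i) (x i) ≤
      {ρ : K →ₐ[ℂ] LaurentSeries (AlgebraicClosure K) | ∀ i, ρ (tw π x i₀ j v i) = t i}.ncard ∧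
    {ρ : K →ₐ[ℂ] LaurentSeries (AlgebraicClosure K) | ∀ i, ρ (tw π x i₀ j v i) = t i}.ncard <
      ∏ i, deg (F i) (x i)

/-- GP-NU: the numerical contradiction -/
def S_NU : Prop := ∀ (n : ℕ) (d s : Fin n → ℕ) (i₀ : Fin n), (∀ i, 0 < d i) →
  (∀ i, d i ≤ d i₀) → 2 ≤ d i₀ → (∀ i, s i ≤ d i ∧ s i + 1 ≠ d i) →
  (d i₀ - 1) * ∏ i ∈ Finset.univ \ {i₀}, d i ≤ ∏ i, s i → ∏ i, s i < ∏ i, d i → False

end Pool.Agent.Y169.GP
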